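import Pool.Agent.Helper55.UNF.Win

/-!
# Signed reduction theorem: windows (owner helper74)

`Wn` is `Win` with windows that may be empty (`lo = hi + 1`).  `mV`, `mH`, `mLa`: mirror images.
-/

set_option autoImplicit false
set_option linter.unusedSectionVars false

namespace Pool.Agent.MP42E

open Pool.Agent.Helper55.UNF

/-! ## Mirror images -/

/-- the lane of the mirror image -/
def swL : Ln → Ln
  | Ln.z => Ln.z
  | Ln.n => Ln.s
  | Ln.s => Ln.n

/-- the side in the mirror image -/
def mpt : Prt → Prt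
  | Prt.W => Prt.E
  | Prt.E => Prt.W
  | Prt.N => Prt.N
  | Prt.S => Prt.S

lemma swL_swL (l : Ln) : swL (swL l) = l := by cases l <;> rfl

lemma swL_z {l : Ln} : swL l = Ln.z ↔ l = Ln.z := by cases l <;> simp [swL]
lemma swL_n {l : Ln} : swL l = Ln.n ↔ l = Ln.s := by cases l <;> simp [swL]
lemma swL_s {l : Ln} : swL l = Ln.s ↔ l = Ln.n := by cases l <;> simp [swL]

lemma mpt_mpt (p : Prt) : mpt (mpt p) = p := by cases p <;> rfl

lemma okc_mir : ∀ a b u v, okc a b u v = true → okc b a (swL u) (swL v) = true := by decide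

lemma usd_mir : ∀ a b u v p, usd b a (swL u) (swL v) (mpt p) = usd a b u v p := by decide

lemma mate_mir : ∀ a b u v, okc a b u v = true → ∀ p,
    mate b a (swL u) (swL v) (mpt p) = mpt (mate a b u v p) := by decide

/-- mirror image of a function on vertical unit edges -/
def mV {α : Type*} (k : ℕ) (f : ℕ → ℕ → α) : ℕ → ℕ → α := fun x y => f (k - x) y

/-- mirror image of a function on horizontal unit edges -/
def mH {α : Type*} (k : ℕ) (f : ℕ → ℕ → α) : ℕ → ℕ → α := fun x y => f (k - 1 - x) y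

/-- mirror image of the lanes -/
def mLa (k : ℕ) (f : ℕ → ℕ → Ln) : ℕ → ℕ → Ln := fun x y => swL (f (k - 1 - x) y)

lemma CellOk.mir {k : ℕ} {pr : ℕ → ℕ → Bool} {la : ℕ → ℕ → Ln} (h : CellOk k pr la) :
    CellOk k (mV k pr) (mLa k la) := by
  intro x y hx hy
  have := okc_mir _ _ _ _ (h (k - 1 - x) y (by omega) hy)
  unfold mV mLa
  rw [show k - x = k - 1 - x + 1 by omega, show k - (x + 1) = k - 1 - x by omega]
  exact this

lemma prt_mir {k : ℕ} (ψ χ : ℕ → ℕ → Prop) {x y : ℕ} (hx : x < k) (p : Prt) :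
    prt (mV k ψ) (mH k χ) x y p ↔ prt ψ χ (k - 1 - x) y (mpt p) := by
  cases p
  · show ψ (k - x) y ↔ ψ (k - 1 - x + 1) y
    rw [show k - x = k - 1 - x + 1 by omega]
  · show ψ (k - (x + 1)) y ↔ ψ (k - 1 - x) y
    rw [show k - (x + 1) = k - 1 - x by omega]
  · exact Iff.rfl
  · exact Iff.rfl

/-- The relations of the mirror image of a facet, in the facet. -/
lemma CellRel.unmir {k : ℕ} {pr : ℕ → ℕ → Bool} {la : ℕ → ℕ → Ln} {ψ χ : ℕ → ℕ → Prop}
    (hok : CellOk k pr la) (h : CellRel k (mV k pr) (mLa k la) ψ χ) :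
    CellRel k pr la (mV k ψ) (mH k χ) := by
  intro x y hx hy p hp
  have h1 := h (k - 1 - x) y (by omega) hy (mpt p)
  unfold mV mLa at h1
  rw [show k - (k - 1 - x) = x + 1 by omega, show k - (k - 1 - x + 1) = x by omega,
    show k - 1 - (k - 1 - x) = x by omega, usd_mir, mate_mir _ _ _ _ (hok x y hx hy)] at h1
  rw [prt_mir ψ χ hx, prt_mir ψ χ hx]
  exact h1 hp

/-! ## Windows -/

/-- A family of windows. -/
structure Wn (k : ℕ) where
  lo : ℕ → ℕ
  hi : ℕ → ℕ
  /-- shift columns -/
  sh : ℕ → Bool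
  lt : ∀ x ≤ k, hi x < k
  lk : ∀ x ≤ k, lo x < k
  n0 : ∀ x < k, sh x = false → lo (x + 1) = lo x ∨ lo (x + 1) = lo x + 1 ∨ lo x = lo (x + 1) + 1
  n1 : ∀ x < k, sh x = false → hi (x + 1) = hi x ∨ hi (x + 1) = hi x + 1 ∨ hi x = hi (x + 1) + 1
  n2 : ∀ x < k, sh x = false → lo x ≤ hi x + 1 ∧ lo (x + 1) ≤ hi x + 1 ∧
    lo x ≤ hi (x + 1) + 1 ∧ lo (x + 1) ≤ hi (x + 1) + 1
  s0 : ∀ x < k, sh x = true → lo (x + 1) = lo x + 1 ∧ hi (x + 1) = hi x + 1 ∧ lo x ≤ hi x

namespace Wn

variable {k : ℕ} (w : Wn k)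

/-- the strands of a window -/
def pr (x y : ℕ) : Bool := decide (w.lo x ≤ y ∧ y ≤ w.hi x)

/-- the lanes of a window -/
def la (x y : ℕ) : Ln :=
  if w.sh x = true then (if w.lo x < y ∧ y ≤ w.hi x + 1 then Ln.n else Ln.z)
  else if y ≤ w.lo x ∧ y ≤ w.lo (x + 1) then lnd (w.lo x) (w.lo (x + 1))
  else if w.hi x < y ∧ w.hi (x + 1) < y then lnd (w.hi x) (w.hi (x + 1))
  else Ln.z

lemma pr_true {x y : ℕ} : w.pr x y = true ↔ w.lo x ≤ y ∧ y ≤ w.hi x := by
  unfold pr; simp

lemma ok : CellOk k w.pr w.la := by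
  intro x y hx hy
  unfold pr la lnd
  cases hs : w.sh x
  · have h0 := w.n0 x hx hs
    have h1 := w.n1 x hx hs
    have h2 := w.n2 x hx hs
    generalize w.lo x = l at *
    generalize w.lo (x + 1) = l' at *
    generalize w.hi x = h at *
    generalize w.hi (x + 1) = h' at *
    simp only [Bool.false_eq_true, if_false]
    by_cases a : l ≤ y ∧ y ≤ h <;> by_cases b : l' ≤ y ∧ y ≤ h' <;>
      simp only [a, b, decide_false] <;>
      split_ifs <;> first | rfl | (exfalso; omega)
  · obtain ⟨h0, h1, h2⟩ := w.s0 x hx hs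
    rw [h0, h1]
    generalize w.lo x = l at *
    generalize w.hi x = h at *
    simp only [if_true]
    by_cases a : l ≤ y ∧ y ≤ h
    · rw [decide_eq_true a, if_pos (show l < y + 1 ∧ y + 1 ≤ h + 1 by omega)]
      by_cases b : l + 1 ≤ y ∧ y ≤ h + 1
      · rw [decide_eq_true b, if_pos (show l < y ∧ y ≤ h + 1 by omega)]; rfl
      · rw [decide_eq_false b, if_neg (show ¬ (l < y ∧ y ≤ h + 1) by omega)]; rfl
    · rw [decide_eq_false a, if_neg (show ¬ (l < y + 1 ∧ y + 1 ≤ h + 1) by omega)]
      by_cases b : l + 1 ≤ y ∧ y ≤ h + 1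
      · rw [decide_eq_true b, if_pos (show l < y ∧ y ≤ h + 1 by omega)]; rfl
      · rw [decide_eq_false b, if_neg (show ¬ (l < y ∧ y ≤ h + 1) by omega)]; rfl

/-- the lane over the bottom side -/
def bot (x : ℕ) : Ln := if w.sh x = true then Ln.z else lnd (w.lo x) (w.lo (x + 1))

/-- the lane over the top side -/
def top (x : ℕ) : Ln := if w.sh x = true then Ln.z else lnd (w.hi x) (w.hi (x + 1))

lemma la_bot (x : ℕ) : w.la x 0 = w.bot x := by
  unfold la bot; simp

lemma la_top {x : ℕ} (hx : x < k) : w.la x k = w.top x := by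
  have h1 := w.lt x hx.le
  have h2 := w.lt (x + 1) hx
  have h0 := w.lk x hx.le
  unfold la top
  cases hs : w.sh x
  · have := w.n2 x hx hs
    simp only [Bool.false_eq_true, if_false]
    rw [if_neg (by omega), if_pos ⟨h1, h2⟩]
  · obtain ⟨h3, h4, h5⟩ := w.s0 x hx hs
    simp only [if_true]
    rw [if_neg (by omega)]

variable {ψ χ : ℕ → ℕ → Prop}

/-- straight strands -/
lemma straight (hr : CellRel k w.pr w.la ψ χ) {x y : ℕ} (hx : x < k) (hs : w.sh x = false)
    (h1 : w.lo x ≤ y) (h2 : y ≤ w.hi x) (h3 : w.lo (x + 1) ≤ y) (h4 : y ≤ w.hi (x + 1)) :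
    ψ x y ↔ ψ (x + 1) y := by
  have hy := w.lt x hx.le
  have h0 := w.n0 x hx hs
  have h0' := w.n1 x hx hs
  have a : w.pr x y = true := w.pr_true.2 ⟨h1, h2⟩
  have b : w.pr (x + 1) y = true := w.pr_true.2 ⟨h3, h4⟩
  have u : w.la x (y + 1) = Ln.z := by
    unfold la lnd
    rw [if_neg (by rw [hs]; decide)]
    split_ifs <;> first | rfl | (exfalso; omega)
  have v : w.la x y = Ln.z := by
    unfold la lnd
    rw [if_neg (by rw [hs]; decide)]
    split_ifs <;> first | rfl | (exfalso; omega)
  have := hr x y hx (by omega) Prt.W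
  rw [a, b, u, v] at this
  exact this rfl

/-- shifted strands -/
lemma shift (hr : CellRel k w.pr w.la ψ χ) {x y : ℕ} (hx : x < k) (hs : w.sh x = true)
    (h1 : w.lo x ≤ y) (h2 : y ≤ w.hi x) :
    (ψ x y ↔ χ x (y + 1)) ∧ (χ x (y + 1) ↔ ψ (x + 1) (y + 1)) := by
  have hy := w.lt x hx.le
  obtain ⟨h3, h4, h5⟩ := w.s0 x hx hs
  have hy' := w.lt (x + 1) hx
  have a : w.pr x y = true := w.pr_true.2 ⟨h1, h2⟩
  have u : w.la x (y + 1) = Ln.n := by
    unfold la
    rw [if_pos hs, if_pos (by omega)]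
  have b : w.pr (x + 1) (y + 1) = true := w.pr_true.2 ⟨by omega, by omega⟩
  constructor
  · have := hr x y hx (by omega) Prt.W
    have hok := w.ok x y hx (by omega)
    rw [a, u] at this hok
    generalize w.pr (x + 1) y = b' at *
    generalize w.la x y = v' at *
    cases b' <;> cases v' <;> first | exact this rfl | exact absurd hok (by decide)
  · have := hr x (y + 1) hx (by omega) Prt.S
    have hok := w.ok x (y + 1) hx (by omega)
    rw [b, u] at this hok
    generalize w.pr x (y + 1) = a' at *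
    generalize w.la x (y + 1 + 1) = u' at *
    cases a' <;> cases u' <;> first | exact this rfl | exact absurd hok (by decide)

/-- a lane below the window is one strand -/
lemma lane_low (hr : CellRel k w.pr w.la ψ χ) {x : ℕ} (hx : x < k) (hs : w.sh x = false)
    (hne : w.bot x ≠ Ln.z) : ∀ y, y ≤ w.lo x → y ≤ w.lo (x + 1) → (χ x 0 ↔ χ x y) := by
  intro y
  have h2 := w.n2 x hx hs
  have hy := w.lt x hx.le
  have hb : w.bot x = lnd (w.lo x) (w.lo (x + 1)) := by
    unfold bot; rw [if_neg (by rw [hs]; decide)]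
  rw [hb] at hne
  induction y with
  | zero => intro _ _; exact Iff.rfl
  | succ y ih =>
    intro h3 h4
    rw [ih (by omega) (by omega)]
    have a : w.pr x y = false := by
      unfold pr; simp; omega
    have b : w.pr (x + 1) y = false := by
      unfold pr; simp; omega
    have u : w.la x (y + 1) = lnd (w.lo x) (w.lo (x + 1)) := by
      unfold la
      rw [if_neg (by rw [hs]; decide), if_pos ⟨h3, h4⟩]
    have v : w.la x y = lnd (w.lo x) (w.lo (x + 1)) := by
      unfold la
      rw [if_neg (by rw [hs]; decide), if_pos (by omega)]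
    have := hr x y hx (by omega) Prt.S
    rw [a, b, u, v] at this
    generalize lnd (w.lo x) (w.lo (x + 1)) = t at *
    cases t
    · exact absurd rfl hne
    · exact this rfl
    · exact this rfl

/-- a lane above the window is one strand -/
lemma lane_high (hr : CellRel k w.pr w.la ψ χ) {x : ℕ} (hx : x < k) (hs : w.sh x = false)
    (hne : w.top x ≠ Ln.z) : ∀ y, w.hi x < y → w.hi (x + 1) < y → y ≤ k → (χ x y ↔ χ x k) := by
  intro y h3 h4 h5
  have h2 := w.n2 x hx hs
  have hb : w.top x = lnd (w.hi x) (w.hi (x + 1)) := by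
    unfold top; rw [if_neg (by rw [hs]; decide)]
  rw [hb] at hne
  have hne' : w.hi x ≠ w.hi (x + 1) := by
    intro h
    apply hne
    unfold lnd
    rw [if_neg (by omega), if_neg (by omega)]
  obtain ⟨d, rfl⟩ : ∃ d, k = y + d := ⟨k - y, by omega⟩
  clear h5
  have hlt := w.lt
  have key : ∀ e ≤ d, (χ x y ↔ χ x (y + e)) := by
    intro e
    induction e with
    | zero => intro _; exact Iff.rfl
    | succ e ih =>
      intro he
      rw [ih (by omega)]
      have a : w.pr x (y + e) = false := by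
        unfold pr; simp; omega
      have b : w.pr (x + 1) (y + e) = false := by
        unfold pr; simp; omega
      have u : w.la x (y + e + 1) = lnd (w.hi x) (w.hi (x + 1)) := by
        unfold la
        rw [if_neg (by rw [hs]; decide), if_neg (by omega), if_pos (by omega)]
      have v : w.la x (y + e) = lnd (w.hi x) (w.hi (x + 1)) := by
        unfold la
        rw [if_neg (by rw [hs]; decide), if_neg (by omega), if_pos (by omega)]
      have := hr x (y + e) hx (by omega) Prt.S
      rw [a, b, u, v] at this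
      rw [show y + (e + 1) = y + e + 1 by ring]
      generalize lnd (w.hi x) (w.hi (x + 1)) = t at *
      cases t
      · exact absurd rfl hne
      · exact this rfl
      · exact this rfl
  exact key d le_rfl

/-- a new lowest strand comes from below -/
lemma enter_low (hr : CellRel k w.pr w.la ψ χ) {x : ℕ} (hx : x < k) (hs : w.sh x = false)
    (h : w.lo x = w.lo (x + 1) + 1) :
    w.bot x = Ln.n ∧ (χ x 0 ↔ ψ (x + 1) (w.lo (x + 1))) := by
  have h2 := w.n2 x hx hs
  have hy := w.lt x hx.le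
  have hb : w.bot x = Ln.n := by
    unfold bot lnd; rw [if_neg (by rw [hs]; decide), if_pos h]
  refine ⟨hb, ?_⟩
  rw [w.lane_low hr hx hs (by rw [hb]; decide) (w.lo (x + 1)) (by omega) le_rfl]
  have a : w.pr x (w.lo (x + 1)) = false := by
    unfold pr; simp; omega
  have b : w.pr (x + 1) (w.lo (x + 1)) = true := w.pr_true.2 ⟨le_rfl, by omega⟩
  have u : w.la x (w.lo (x + 1) + 1) = Ln.z := by
    unfold la lnd
    rw [if_neg (by rw [hs]; decide)]
    split_ifs <;> first | rfl | (exfalso; omega)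
  have v : w.la x (w.lo (x + 1)) = Ln.n := by
    unfold la lnd
    rw [if_neg (by rw [hs]; decide), if_pos (by omega), if_pos h]
  have := hr x (w.lo (x + 1)) hx (by omega) Prt.S
  rw [a, b, u, v] at this
  exact this rfl

/-- the lowest strand leaves -/
lemma leave_low (hr : CellRel k w.pr w.la ψ χ) {x : ℕ} (hx : x < k) (hs : w.sh x = false)
    (h : w.lo (x + 1) = w.lo x + 1) :
    w.bot x = Ln.s ∧ (χ x 0 ↔ ψ x (w.lo x)) := by
  have h2 := w.n2 x hx hs
  have hy := w.lt x hx.le
  have hb : w.bot x = Ln.s := by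
    unfold bot lnd; rw [if_neg (by rw [hs]; decide), if_neg (by omega), if_pos h]
  refine ⟨hb, ?_⟩
  rw [w.lane_low hr hx hs (by rw [hb]; decide) (w.lo x) le_rfl (by omega)]
  have a : w.pr x (w.lo x) = true := w.pr_true.2 ⟨le_rfl, by omega⟩
  have b : w.pr (x + 1) (w.lo x) = false := by
    unfold pr; simp; omega
  have u : w.la x (w.lo x + 1) = Ln.z := by
    unfold la lnd
    rw [if_neg (by rw [hs]; decide)]
    split_ifs <;> first | rfl | (exfalso; omega)
  have v : w.la x (w.lo x) = Ln.s := by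
    unfold la lnd
    rw [if_neg (by rw [hs]; decide), if_pos (by omega), if_neg (by omega), if_pos h]
  have := hr x (w.lo x) hx (by omega) Prt.S
  rw [a, b, u, v] at this
  exact this rfl

/-- a new highest strand comes from above -/
lemma enter_high (hr : CellRel k w.pr w.la ψ χ) {x : ℕ} (hx : x < k) (hs : w.sh x = false)
    (h : w.hi (x + 1) = w.hi x + 1) :
    w.top x = Ln.s ∧ (χ x k ↔ ψ (x + 1) (w.hi (x + 1))) := by
  have h2 := w.n2 x hx hs
  have hy := w.lt (x + 1) hx
  have hb : w.top x = Ln.s := by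
    unfold top lnd; rw [if_neg (by rw [hs]; decide), if_neg (by omega), if_pos h]
  refine ⟨hb, ?_⟩
  rw [← w.lane_high hr hx hs (by rw [hb]; decide) (w.hi (x + 1) + 1) (by omega) (by omega)
    (by omega)]
  have a : w.pr x (w.hi (x + 1)) = false := by
    unfold pr; simp; omega
  have b : w.pr (x + 1) (w.hi (x + 1)) = true := w.pr_true.2 ⟨by omega, le_rfl⟩
  have u : w.la x (w.hi (x + 1) + 1) = Ln.s := by
    unfold la lnd
    rw [if_neg (by rw [hs]; decide), if_neg (by omega), if_pos (by omega), if_neg (by omega),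
      if_pos h]
  have v : w.la x (w.hi (x + 1)) = Ln.z := by
    unfold la lnd
    rw [if_neg (by rw [hs]; decide)]
    split_ifs <;> first | rfl | (exfalso; omega)
  have := hr x (w.hi (x + 1)) hx (by omega) Prt.N
  rw [a, b, u, v] at this
  exact this rfl

/-- the highest strand leaves -/
lemma leave_high (hr : CellRel k w.pr w.la ψ χ) {x : ℕ} (hx : x < k) (hs : w.sh x = false)
    (h : w.hi x = w.hi (x + 1) + 1) :
    w.top x = Ln.n ∧ (χ x k ↔ ψ x (w.hi x)) := by
  have h2 := w.n2 x hx hs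
  have hy := w.lt x hx.le
  have hb : w.top x = Ln.n := by
    unfold top lnd; rw [if_neg (by rw [hs]; decide), if_pos h]
  refine ⟨hb, ?_⟩
  rw [← w.lane_high hr hx hs (by rw [hb]; decide) (w.hi x + 1) (by omega) (by omega) (by omega)]
  have a : w.pr x (w.hi x) = true := w.pr_true.2 ⟨by omega, le_rfl⟩
  have b : w.pr (x + 1) (w.hi x) = false := by
    unfold pr; simp; omega
  have u : w.la x (w.hi x + 1) = Ln.n := by
    unfold la lnd
    rw [if_neg (by rw [hs]; decide), if_neg (by omega), if_pos (by omega), if_pos h]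
  have v : w.la x (w.hi x) = Ln.z := by
    unfold la lnd
    rw [if_neg (by rw [hs]; decide)]
    split_ifs <;> first | rfl | (exfalso; omega)
  have := hr x (w.hi x) hx (by omega) Prt.N
  rw [a, b, u, v] at this
  exact this rfl

end Wn

end Pool.Agent.MP42E
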