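import Pool.Agent.MP42.E.Defs
import Pool.Agent.MP42.E.Wn
import Pool.Agent.MP42.G.Main0
import Pool.Agent.MP42.G.Height

/-!
# Signed reduction theorem: reading the rims of negative bands to the west (owner helper73)

`Neg r`: `r` is a rim state of a ring with `sg = -1`.  Its rim is read to the west: `pS` is the next
state, `wdS` the letters of the mirror image, `nxS`, `wsumS`, `MatchedS`, `UnmatchedS` as usual.
In this reading all bands have a total `≥ 0`.
-/

set_option autoImplicit false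
set_option linter.unusedSectionVars false

namespace Pool.Agent.MP42E

open Pool.Agent.Helper55.UNF Pool.Agent.Helper55.UNF.GridSolid Pool.Agent.MP42G
open Function

variable {P : GridSolid}

lemma vl_swL (l : Ln) : vl (swL l) = - vl l := by cases l <;> rfl

/-! ## The walk along a rim -/

section Walk

variable {k : ℕ}

lemma nx_lt {q : P.FSt × ℕ} (h : q.2 < k) : (nx k q).2 < k := by
  unfold nx
  split_ifs with h1
  · exact h1
  · show 0 < k
    omega

lemma px_lt {q : P.FSt × ℕ} (h : q.2 < k) : (px k q).2 < k := by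
  unfold px
  split_ifs with h1
  · show q.2 - 1 < k
    omega
  · show k - 1 < k
    omega

lemma px_nx {q : P.FSt × ℕ} (h : q.2 < k) : px k (nx k q) = q := by
  obtain ⟨r, x⟩ := q
  have h' : x < k := h
  by_cases h1 : x + 1 < k
  · have e : nx k (r, x) = (r, x + 1) := by unfold nx; rw [if_pos h1]
    rw [e]
    unfold px
    rw [if_pos (by show 0 < x + 1; omega)]
    rfl
  · have e : nx k (r, x) = (r.stE, 0) := by unfold nx; rw [if_neg h1]
    rw [e]
    unfold px
    rw [if_neg (by show ¬ (0 < 0); omega)]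
    have e2 : (pE : Equiv.Perm P.FSt).symm r.stE = r := by
      rw [Equiv.symm_apply_eq]; rfl
    rw [e2]
    congr 1
    omega

lemma nx_px {q : P.FSt × ℕ} (h : q.2 < k) : nx k (px k q) = q := by
  obtain ⟨r, x⟩ := q
  have h' : x < k := h
  by_cases h1 : 0 < x
  · have e : px k (r, x) = (r, x - 1) := by unfold px; rw [if_pos h1]
    rw [e]
    unfold nx
    rw [if_pos (by show x - 1 + 1 < k; omega)]
    show (r, x - 1 + 1) = (r, x)
    congr 1
    omega
  · have e : px k (r, x) = ((pE : Equiv.Perm P.FSt).symm r, k - 1) := by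
      unfold px; rw [if_neg h1]
    rw [e]
    unfold nx
    rw [if_neg (by show ¬ (k - 1 + 1 < k); omega)]
    have e2 : ((pE : Equiv.Perm P.FSt).symm r).stE = r :=
      Equiv.apply_symm_apply (pE : Equiv.Perm P.FSt) r
    show (((pE : Equiv.Perm P.FSt).symm r).stE, 0) = (r, x)
    rw [e2]
    congr 1
    omega

lemma nx_iter_lt {q : P.FSt × ℕ} (h : q.2 < k) (n : ℕ) : ((nx k)^[n] q).2 < k := by
  induction n with
  | zero => exact h
  | succ n ih => rw [iterate_succ_apply']; exact nx_lt ih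

lemma px_iter_lt {q : P.FSt × ℕ} (h : q.2 < k) (n : ℕ) : ((px k)^[n] q).2 < k := by
  induction n with
  | zero => exact h
  | succ n ih => rw [iterate_succ_apply']; exact px_lt ih

lemma px_iter_nx {q : P.FSt × ℕ} (h : q.2 < k) (n : ℕ) : (px k)^[n] ((nx k)^[n] q) = q := by
  induction n with
  | zero => rfl
  | succ n ih =>
    rw [iterate_succ_apply (px k), iterate_succ_apply' (nx k), px_nx (nx_iter_lt h n), ih]

lemma nx_iter_px {q : P.FSt × ℕ} (h : q.2 < k) (n : ℕ) : (nx k)^[n] ((px k)^[n] q) = q := by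
  induction n with
  | zero => rfl
  | succ n ih =>
    rw [iterate_succ_apply (nx k), iterate_succ_apply' (px k), nx_px (px_iter_lt h n), ih]

lemma px_iter_sub {q : P.FSt × ℕ} (h : q.2 < k) {j n : ℕ} (hj : j ≤ n) :
    (px k)^[j] ((nx k)^[n] q) = (nx k)^[n - j] q := by
  obtain ⟨m, rfl⟩ : ∃ m, n = j + m := ⟨n - j, by omega⟩
  rw [iterate_add_apply, px_iter_nx (nx_iter_lt h m), Nat.add_sub_cancel_left]

lemma nx_turn {r : P.FSt} (hk : 0 < k) : (nx k)^[k] (r, 0) = (r.stE, 0) := by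
  have key : ∀ n, n < k → (nx k)^[n] (r, 0) = (r, n) := by
    intro n
    induction n with
    | zero => intro _; rfl
    | succ n ih =>
      intro hn
      rw [iterate_succ_apply', ih (by omega)]
      unfold nx
      rw [if_pos (by show n + 1 < k; exact hn)]
  obtain ⟨m, rfl⟩ : ∃ m, k = m + 1 := ⟨k - 1, by omega⟩
  rw [iterate_succ_apply', key m (by omega)]
  unfold nx
  rw [if_neg (by show ¬ (m + 1 < m + 1); omega)]

lemma nx_iter_col (r : P.FSt) {x n : ℕ} (h : x + n < k) : (nx k)^[n] (r, x) = (r, x + n) := by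
  induction n with
  | zero => rfl
  | succ n ih =>
    rw [iterate_succ_apply', ih (by omega)]
    unfold nx
    rw [if_pos (by show x + n + 1 < k; omega)]
    rfl

lemma nx_mul (r : P.FSt) (hk : 0 < k) (i : ℕ) :
    (nx k)^[i * k] (r, 0) = ((pE^[i]) r, 0) := by
  induction i with
  | zero => simp
  | succ i ih =>
    rw [Nat.succ_mul, add_comm, iterate_add_apply, ih, nx_turn hk, iterate_succ_apply']
    rfl

lemma nx_per (r : P.FSt) {x : ℕ} (hx : x < k) :
    (nx k)^[minimalPeriod pE r * k] (r, x) = (r, x) := by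
  have h1 : (nx k)^[x] (r, 0) = (r, x) := by
    rw [nx_iter_col r (by omega), Nat.zero_add]
  have h2 : (nx k)^[minimalPeriod pE r * k] (r, 0) = (r, 0) := by
    rw [nx_mul r (by omega), iterate_minimalPeriod]
  conv_lhs => rw [← h1]
  rw [← iterate_add_apply, Nat.add_comm, iterate_add_apply, h2, h1]

lemma nx_same (q : P.FSt × ℕ) (n : ℕ) : pE.SameCycle q.1 ((nx k)^[n] q).1 := by
  induction n with
  | zero => exact Equiv.Perm.SameCycle.refl _ _
  | succ n ih =>
    rw [iterate_succ_apply']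
    unfold nx
    split_ifs
    · exact ih
    · exact Equiv.Perm.sameCycle_apply_right.2 ih

end Walk

namespace JCertE

variable {k : ℕ} (C : JCertE P k)

/-! ## Sums -/

lemma wsum_zero (q : P.FSt × ℕ) : C.wsum q 0 = 0 := by unfold wsum; simp

lemma wsum_one (q : P.FSt × ℕ) : C.wsum q 1 = vl (C.wd q.1 q.2) := by
  unfold wsum
  simp

lemma wsum_add (q : P.FSt × ℕ) (m n : ℕ) :
    C.wsum q (m + n) = C.wsum q m + C.wsum ((nx k)^[m] q) n := by
  unfold wsum
  rw [Finset.sum_range_add]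
  congr 1
  apply Finset.sum_congr rfl
  intro j _
  rw [Nat.add_comm m j, iterate_add_apply]

/-- the sum read to the west -/
lemma wsumW_iter {q : P.FSt × ℕ} (h : q.2 < k) (n : ℕ) :
    C.wsumW ((nx k)^[n] q) (n + 1) = C.wsum q (n + 1) := by
  unfold wsumW wsum
  rw [← Finset.sum_range_reflect (fun j => vl (C.wd ((nx k)^[j] q).1 ((nx k)^[j] q).2)) (n + 1)]
  apply Finset.sum_congr rfl
  intro j hj
  rw [Finset.mem_range] at hj
  rw [px_iter_sub h (show j ≤ n by omega), show n + 1 - 1 - j = n - j by omega]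

lemma wsumW_eq {q : P.FSt × ℕ} (h : q.2 < k) {n j : ℕ} (hj : j ≤ n + 1) :
    C.wsumW ((nx k)^[n] q) j = C.wsum ((nx k)^[n + 1 - j] q) j := by
  cases j with
  | zero => unfold wsumW wsum; simp
  | succ i =>
    have h1 := C.wsumW_iter (nx_iter_lt h (n - i)) i
    rw [← iterate_add_apply, show i + (n - i) = n by omega] at h1
    rw [h1, show n + 1 - (i + 1) = n - i by omega]

/-- complement of a sum read to the west -/
lemma wsumW_sub {q : P.FSt × ℕ} (h : q.2 < k) {n j : ℕ} (hj : j ≤ n + 1) :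
    C.wsumW ((nx k)^[n] q) j = C.wsum q (n + 1) - C.wsum q (n + 1 - j) := by
  rw [C.wsumW_eq h hj]
  have := C.wsum_add q (n + 1 - j) j
  rw [show n + 1 - j + j = n + 1 by omega] at this
  rw [this]
  ring

variable {C}

section Tot

variable {B : ℕ} (hW : C.Words B)
include hW

lemma Words.tot_x {r : P.FSt} (hV : IsV r) (hC : C.core r.facet) {x : ℕ} (hx : x < k) :
    C.wsum (r, x) (minimalPeriod pE r * k) = 2 * C.sg r.facet := by
  have h1 := C.wsum_add (r, 0) x (minimalPeriod pE r * k)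
  have h2 := C.wsum_add (r, 0) (minimalPeriod pE r * k) x
  rw [nx_iter_col r (by omega), Nat.zero_add] at h1
  rw [nx_per r (by omega), Nat.add_comm, h1, hW.tot r hV hC] at h2
  linarith

lemma Words.totW_x {r : P.FSt} (hV : IsV r) (hC : C.core r.facet) {x : ℕ} (hx : x < k) :
    C.wsumW (r, x) (minimalPeriod pE r * k) = 2 * C.sg r.facet := by
  set L := minimalPeriod pE r * k with hL
  have hLp : 0 < L := Nat.mul_pos (Pool.Agent.MP42.minimalPeriod_pos' pE r) (by omega)
  have h0 : (nx k)^[L] (r, x) = (r, x) := nx_per r hx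
  have h1 := C.wsumW_sub (q := (r, x)) hx (n := L) (j := L) (by omega)
  rw [h0, show L + 1 - L = 1 by omega] at h1
  have h2 := C.wsum_add (r, x) L 1
  rw [h0, hW.tot_x hV hC hx] at h2
  rw [h1, h2]
  ring

/-- the bound for sums read to the west -/
lemma Words.bdW {r : P.FSt} (hV : IsV r) (hC : C.core r.facet) {x n : ℕ} (hx : x < k)
    (hn : n ≤ minimalPeriod pE r * k) : |C.wsumW (r, x) n| ≤ B := by
  set L := minimalPeriod pE r * k with hL
  have h0 : (nx k)^[L] (r, x) = (r, x) := nx_per r hx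
  have h1 := C.wsumW_eq (q := (r, x)) hx (n := L) (j := n) (by omega)
  rw [h0] at h1
  rw [h1]
  have hs := nx_same (k := k) (r, x) (L + 1 - n)
  have hlt := nx_iter_lt (k := k) (q := (r, x)) hx (L + 1 - n)
  set q' := (nx k)^[L + 1 - n] (r, x) with hq'
  have hs' : pE.SameCycle r q'.1 := hs
  have hper : minimalPeriod pE q'.1 = minimalPeriod pE r := by
    obtain ⟨i, hi⟩ := hs'.exists_nat_pow_eq
    rw [← hi, Equiv.Perm.coe_pow]
    rw [minimalPeriod_apply_iterate]
    exact Function.Injective.mem_periodicPts (pE : Equiv.Perm P.FSt).injective r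
  have hVC : IsV q'.1 ∧ C.core q'.1.facet := by
    obtain ⟨i, hi⟩ := hs'.exists_nat_pow_eq
    rw [← hi]
    clear_value q'
    clear hs hlt hs' hper hi h1
    induction i with
    | zero => exact ⟨hV, hC⟩
    | succ i ih =>
      rw [pow_succ']
      exact ⟨(IsV_stE _).2 ih.1, (C.core_E _ ih.1).2 ih.2⟩
  exact hW.bd q'.1 q'.2 n hVC.1 hVC.2 hlt (by rw [hper]; exact hn)

end Tot

/-! ## Negative rings -/

variable (C)

/-- the rim states that are read to the west -/
def Neg (r : P.FSt) : Prop := IsV r ∧ C.core r.facet ∧ C.sg r.facet = -1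

lemma Neg_E (r : P.FSt) : C.Neg r.stE ↔ C.Neg r := by
  unfold Neg
  constructor
  · rintro ⟨h1, h2, h3⟩
    have hV := (IsV_stE r).1 h1
    have hC := (C.core_E r hV).1 h2
    exact ⟨hV, hC, by rw [← C.sg_E r hV hC]; exact h3⟩
  · rintro ⟨h1, h2, h3⟩
    exact ⟨(IsV_stE r).2 h1, (C.core_E r h1).2 h2, by rw [C.sg_E r h1 h2]; exact h3⟩

lemma Neg_r2 (r : P.FSt) : C.Neg r.r2 ↔ C.Neg r := by
  unfold Neg
  rw [IsV_r2, FSt.facet_r2]

lemma Neg_Es (r : P.FSt) : C.Neg ((pE : Equiv.Perm P.FSt).symm r) ↔ C.Neg r := by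
  have h := C.Neg_E ((pE : Equiv.Perm P.FSt).symm r)
  have h2 : ((pE : Equiv.Perm P.FSt).symm r).stE = r :=
    Equiv.apply_symm_apply (pE : Equiv.Perm P.FSt) r
  rw [h2] at h
  exact h.symm

open Classical in
/-- the next state of a rim in the S-reading -/
noncomputable def pS : Equiv.Perm P.FSt where
  toFun := fun r => if C.Neg r then (pE : Equiv.Perm P.FSt).symm r else pE r
  invFun := fun r => if C.Neg r then pE r else (pE : Equiv.Perm P.FSt).symm r
  left_inv := fun r => by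
    by_cases h : C.Neg r
    · simp only [if_pos h, if_pos ((C.Neg_Es r).2 h), Equiv.apply_symm_apply]
    · have h' : ¬ C.Neg (pE r) := fun h1 => h ((C.Neg_E r).1 h1)
      simp only [if_neg h, if_neg h', Equiv.symm_apply_apply]
  right_inv := fun r => by
    by_cases h : C.Neg r
    · have h' : C.Neg (pE r) := (C.Neg_E r).2 h
      simp only [if_pos h, if_pos h', Equiv.symm_apply_apply]
    · have h' : ¬ C.Neg ((pE : Equiv.Perm P.FSt).symm r) := fun h1 => h ((C.Neg_Es r).1 h1)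
      simp only [if_neg h, if_neg h', Equiv.apply_symm_apply]

lemma pS_pos {r : P.FSt} (h : ¬ C.Neg r) : C.pS r = r.stE := by
  classical
  show (if C.Neg r then (pE : Equiv.Perm P.FSt).symm r else pE r) = _
  rw [if_neg h]
  rfl

lemma pS_neg {r : P.FSt} (h : C.Neg r) : C.pS r = (pE : Equiv.Perm P.FSt).symm r := by
  classical
  show (if C.Neg r then (pE : Equiv.Perm P.FSt).symm r else pE r) = _
  rw [if_pos h]

lemma Es_stE (r : P.FSt) : ((pE : Equiv.Perm P.FSt).symm r).stE = r :=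
  Equiv.apply_symm_apply (pE : Equiv.Perm P.FSt) r

lemma pS_neg_stE {r : P.FSt} (h : C.Neg r) : (C.pS r).stE = r := by
  rw [C.pS_neg h]
  exact Es_stE r

lemma Neg_S (r : P.FSt) : C.Neg (C.pS r) ↔ C.Neg r := by
  by_cases h : C.Neg r
  · rw [C.pS_neg h]; exact C.Neg_Es r
  · rw [C.pS_pos h]; exact C.Neg_E r

/-- the half turn reverses the walk -/
lemma pS_inv (r : P.FSt) : C.pS (C.pS r).r2 = r.r2 := by
  by_cases h : C.Neg r
  · have h1 : C.Neg (C.pS r).r2 := (C.Neg_r2 _).2 ((C.Neg_S r).2 h)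
    rw [C.pS_neg h1, Equiv.symm_apply_eq, C.pS_neg h]
    have h2 := FSt.stE_inv ((pE : Equiv.Perm P.FSt).symm r)
    rw [Es_stE] at h2
    exact h2.symm
  · have h1 : ¬ C.Neg (C.pS r).r2 := fun h2 => h ((C.Neg_S r).1 ((C.Neg_r2 _).1 h2))
    rw [C.pS_pos h1, C.pS_pos h]
    exact FSt.stE_inv r

lemma IsV_S (r : P.FSt) : IsV (C.pS r) ↔ IsV r := by
  by_cases h : C.Neg r
  · have h1 := C.pS_neg_stE h
    rw [← IsV_stE (C.pS r), h1]
  · rw [C.pS_pos h, IsV_stE]

lemma IsU_S (r : P.FSt) : IsU (C.pS r) ↔ IsU r := by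
  by_cases h : C.Neg r
  · have h1 := C.pS_neg_stE h
    rw [← IsU_stE (C.pS r), h1]
  · rw [C.pS_pos h, IsU_stE]

lemma core_S {r : P.FSt} (hV : IsV r) : C.core (C.pS r).facet ↔ C.core r.facet := by
  by_cases h : C.Neg r
  · have h1 := C.pS_neg_stE h
    rw [← C.core_E (C.pS r) ((C.IsV_S r).2 hV), h1]
  · rw [C.pS_pos h, C.core_E r hV]

lemma sg_S {r : P.FSt} (hV : IsV r) (hC : C.core r.facet) :
    C.sg (C.pS r).facet = C.sg r.facet := by
  by_cases h : C.Neg r
  · have h1 := C.pS_neg_stE h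
    rw [← C.sg_E (C.pS r) ((C.IsV_S r).2 hV) ((C.core_S hV).2 hC), h1]
  · rw [C.pS_pos h, C.sg_E r hV hC]

lemma pS_iter (r : P.FSt) (n : ℕ) : (C.Neg ((C.pS)^[n] r) ↔ C.Neg r) ∧
    (C.Neg r → (C.pS)^[n] r = ((pE : Equiv.Perm P.FSt).symm)^[n] r) ∧
    (¬ C.Neg r → (C.pS)^[n] r = (pE : Equiv.Perm P.FSt)^[n] r) := by
  induction n with
  | zero => exact ⟨Iff.rfl, fun _ => rfl, fun _ => rfl⟩
  | succ n ih =>
    refine ⟨?_, fun h => ?_, fun h => ?_⟩
    · rw [iterate_succ_apply', C.Neg_S]; exact ih.1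
    · rw [iterate_succ_apply', iterate_succ_apply', C.pS_neg (ih.1.2 h), ih.2.1 h]
    · rw [iterate_succ_apply', iterate_succ_apply', C.pS_pos (fun h1 => h (ih.1.1 h1)), ih.2.2 h]
      rfl

lemma minimalPeriod_S (r : P.FSt) : minimalPeriod C.pS r = minimalPeriod pE r := by
  rw [minimalPeriod_eq_minimalPeriod_iff]
  intro n
  unfold IsPeriodicPt IsFixedPt
  by_cases h : C.Neg r
  · rw [(C.pS_iter r n).2.1 h]
    rw [← Equiv.Perm.coe_pow, ← Equiv.Perm.coe_pow]
    have e : ((pE : Equiv.Perm P.FSt).symm ^ n) = ((pE : Equiv.Perm P.FSt) ^ n).symm := by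
      show (pE : Equiv.Perm P.FSt)⁻¹ ^ n = ((pE : Equiv.Perm P.FSt) ^ n)⁻¹
      rw [inv_pow]
    rw [e, Equiv.symm_apply_eq]
    exact eq_comm
  · rw [(C.pS_iter r n).2.2 h]

lemma sameCycle_S {r a : P.FSt} : C.pS.SameCycle r a ↔ pE.SameCycle r a := by
  constructor
  · intro h
    obtain ⟨n, rfl⟩ := h.exists_nat_pow_eq
    clear h
    rw [Equiv.Perm.coe_pow]
    by_cases h : C.Neg r
    · rw [(C.pS_iter r n).2.1 h, ← Equiv.Perm.coe_pow]
      exact ⟨-(n : ℤ), by
        rw [zpow_neg, zpow_natCast]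
        show ((pE : Equiv.Perm P.FSt) ^ n)⁻¹ r = ((pE : Equiv.Perm P.FSt)⁻¹ ^ n) r
        rw [inv_pow]⟩
    · rw [(C.pS_iter r n).2.2 h, ← Equiv.Perm.coe_pow]
      exact ⟨n, by rw [zpow_natCast]⟩
  · intro h
    by_cases hn : C.Neg r
    · obtain ⟨n, hn2⟩ := (Equiv.Perm.sameCycle_inv.2 h).exists_nat_pow_eq
      refine ⟨n, ?_⟩
      rw [zpow_natCast, Equiv.Perm.coe_pow, (C.pS_iter r n).2.1 hn, ← Equiv.Perm.coe_pow]
      exact hn2
    · obtain ⟨n, hn2⟩ := h.exists_nat_pow_eq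
      refine ⟨n, ?_⟩
      rw [zpow_natCast, Equiv.Perm.coe_pow, (C.pS_iter r n).2.2 hn, ← Equiv.Perm.coe_pow]
      exact hn2

/-! ## The word in the S-reading -/

open Classical in
/-- the letters of a rim in the S-reading -/
noncomputable def wdS (r : P.FSt) (x : ℕ) : Ln :=
  if C.Neg r then swL (C.wd r (k - 1 - x)) else C.wd r x

open Classical in
/-- the value of a predicate on the south side of a state in the S-reading -/
noncomputable def fvS (χ : P.Facet → ℕ → ℕ → Prop) (r : P.FSt) (x : ℕ) : Prop :=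
  if C.Neg r then C.fv χ r (k - 1 - x) else C.fv χ r x

/-- the next column in the S-reading -/
noncomputable def nxS (q : P.FSt × ℕ) : P.FSt × ℕ :=
  if q.2 + 1 < k then (q.1, q.2 + 1) else (C.pS q.1, 0)

/-- sum of the next `n` letters in the S-reading -/
noncomputable def wsumS (q : P.FSt × ℕ) (n : ℕ) : ℤ :=
  ∑ j ∈ Finset.range n, vl (C.wdS ((C.nxS)^[j] q).1 ((C.nxS)^[j] q).2)

/-- bracket matching in the S-reading -/
def MatchedS (q q' : P.FSt × ℕ) : Prop :=
  C.wdS q.1 q.2 = Ln.n ∧ C.wdS q'.1 q'.2 = Ln.s ∧ ∃ n, 1 ≤ n ∧ (C.nxS)^[n] q = q' ∧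
    C.wsumS q n = 1 ∧ ∀ j, 1 ≤ j → j ≤ n → 1 ≤ C.wsumS q j

/-- `q` opens a strand that is never closed, in the S-reading -/
def UnmatchedS (q : P.FSt × ℕ) : Prop :=
  C.wdS q.1 q.2 = Ln.n ∧ ∀ j, 1 ≤ j → 1 ≤ C.wsumS q j

open Classical in
/-- a position in the S-reading -/
noncomputable def mu (q : P.FSt × ℕ) : P.FSt × ℕ :=
  if C.Neg q.1 then (q.1, k - 1 - q.2) else q

lemma mu_1 (q : P.FSt × ℕ) : (C.mu q).1 = q.1 := by
  unfold mu
  split_ifs <;> rfl

lemma mu_lt {q : P.FSt × ℕ} (h : q.2 < k) : (C.mu q).2 < k := by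
  unfold mu
  split_ifs
  · show k - 1 - q.2 < k
    omega
  · exact h

lemma mu_mu {q : P.FSt × ℕ} (h : q.2 < k) : C.mu (C.mu q) = q := by
  by_cases hn : C.Neg q.1
  · have e : C.mu q = (q.1, k - 1 - q.2) := by unfold mu; rw [if_pos hn]
    rw [e]
    unfold mu
    rw [if_pos hn]
    obtain ⟨r, x⟩ := q
    have h' : x < k := h
    show (r, k - 1 - (k - 1 - x)) = (r, x)
    congr 1
    omega
  · have e : C.mu q = q := by unfold mu; rw [if_neg hn]
    rw [e, e]

lemma mu_neg {r : P.FSt} (hn : C.Neg r) (x : ℕ) : C.mu (r, x) = (r, k - 1 - x) := by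
  unfold mu
  rw [if_pos hn]

lemma mu_pos {q : P.FSt × ℕ} (hn : ¬ C.Neg q.1) : C.mu q = q := by
  unfold mu
  rw [if_neg hn]

open Classical in
lemma wdS_mu {q : P.FSt × ℕ} (h : q.2 < k) :
    C.wdS (C.mu q).1 (C.mu q).2 = if C.Neg q.1 then swL (C.wd q.1 q.2) else C.wd q.1 q.2 := by
  obtain ⟨r, x⟩ := q
  have h' : x < k := h
  by_cases hn : C.Neg r
  · rw [C.mu_neg hn]
    unfold wdS
    show (if C.Neg r then swL (C.wd r (k - 1 - (k - 1 - x))) else C.wd r (k - 1 - x)) = _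
    rw [if_pos hn, if_pos hn, show k - 1 - (k - 1 - x) = x by omega]
  · rw [C.mu_pos (q := (r, x)) hn]
    unfold wdS
    rw [if_neg hn, if_neg hn]

lemma fvS_mu (χ : P.Facet → ℕ → ℕ → Prop) {q : P.FSt × ℕ} (h : q.2 < k) :
    C.fvS χ (C.mu q).1 (C.mu q).2 ↔ C.fv χ q.1 q.2 := by
  classical
  obtain ⟨r, x⟩ := q
  have h' : x < k := h
  by_cases hn : C.Neg r
  · rw [C.mu_neg hn]
    unfold fvS
    show (if C.Neg r then C.fv χ r (k - 1 - (k - 1 - x)) else C.fv χ r (k - 1 - x)) ↔ _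
    rw [if_pos hn, show k - 1 - (k - 1 - x) = x by omega]
  · rw [C.mu_pos (q := (r, x)) hn]
    unfold fvS
    rw [if_neg hn]

lemma nxS_lt {q : P.FSt × ℕ} (h : q.2 < k) : (C.nxS q).2 < k := by
  unfold nxS
  split_ifs with h1
  · exact h1
  · show 0 < k
    omega

lemma nxS_iter_lt {q : P.FSt × ℕ} (h : q.2 < k) (n : ℕ) : ((C.nxS)^[n] q).2 < k := by
  induction n with
  | zero => exact h
  | succ n ih => rw [iterate_succ_apply']; exact C.nxS_lt ih

lemma nxS_pos {q : P.FSt × ℕ} (hn : ¬ C.Neg q.1) : C.nxS q = nx k q := by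
  unfold nxS nx
  rw [C.pS_pos hn]

lemma nxS_neg {q : P.FSt × ℕ} (hn : C.Neg q.1) (h : q.2 < k) : C.nxS q = C.mu (px k (C.mu q)) := by
  obtain ⟨r, x⟩ := q
  have h' : x < k := h
  have hn' : C.Neg r := hn
  rw [C.mu_neg hn']
  unfold nxS px
  by_cases h1 : x + 1 < k
  · rw [if_pos h1, if_pos (by show 0 < k - 1 - x; omega)]
    show (r, x + 1) = C.mu (r, k - 1 - x - 1)
    rw [C.mu_neg hn']
    congr 1
    omega
  · rw [if_neg h1, if_neg (by show ¬ (0 < k - 1 - x); omega)]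
    show (C.pS r, 0) = C.mu ((pE : Equiv.Perm P.FSt).symm r, k - 1)
    rw [C.mu_neg ((C.Neg_Es r).2 hn'), C.pS_neg hn']
    congr 1
    omega

lemma Neg_nxS (q : P.FSt × ℕ) : C.Neg (C.nxS q).1 ↔ C.Neg q.1 := by
  unfold nxS
  split_ifs
  · exact Iff.rfl
  · exact C.Neg_S _

lemma Neg_px (q : P.FSt × ℕ) : C.Neg (px k q).1 ↔ C.Neg q.1 := by
  unfold px
  split_ifs
  · exact Iff.rfl
  · exact C.Neg_Es _

lemma Neg_nx (q : P.FSt × ℕ) : C.Neg (nx k q).1 ↔ C.Neg q.1 := by
  unfold nx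
  split_ifs
  · exact Iff.rfl
  · exact C.Neg_E _

lemma Neg_px_iter (q : P.FSt × ℕ) (n : ℕ) : C.Neg ((px k)^[n] q).1 ↔ C.Neg q.1 := by
  induction n with
  | zero => exact Iff.rfl
  | succ n ih => rw [iterate_succ_apply', C.Neg_px]; exact ih

lemma Neg_nx_iter (q : P.FSt × ℕ) (n : ℕ) : C.Neg ((nx k)^[n] q).1 ↔ C.Neg q.1 := by
  induction n with
  | zero => exact Iff.rfl
  | succ n ih => rw [iterate_succ_apply', C.Neg_nx]; exact ih

lemma nxS_iter_pos {q : P.FSt × ℕ} (hn : ¬ C.Neg q.1) (n : ℕ) :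
    (C.nxS)^[n] q = (nx k)^[n] q := by
  induction n with
  | zero => rfl
  | succ n ih =>
    rw [iterate_succ_apply', iterate_succ_apply', ih]
    exact C.nxS_pos (fun h => hn ((C.Neg_nx_iter q n).1 h))

lemma nxS_iter_neg {q : P.FSt × ℕ} (hn : C.Neg q.1) (h : q.2 < k) (n : ℕ) :
    (C.nxS)^[n] q = C.mu ((px k)^[n] (C.mu q)) := by
  induction n with
  | zero => exact (C.mu_mu h).symm
  | succ n ih =>
    have hlt := px_iter_lt (k := k) (C.mu_lt h) n
    have hneg : C.Neg ((px k)^[n] (C.mu q)).1 := by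
      rw [C.Neg_px_iter, C.mu_1]; exact hn
    rw [iterate_succ_apply', iterate_succ_apply', ih, C.nxS_neg (by rw [C.mu_1]; exact hneg)
      (C.mu_lt hlt), C.mu_mu hlt]

lemma wsumS_pos {q : P.FSt × ℕ} (hn : ¬ C.Neg q.1) (n : ℕ) : C.wsumS q n = C.wsum q n := by
  unfold wsumS wsum
  apply Finset.sum_congr rfl
  intro j _
  rw [C.nxS_iter_pos hn j]
  unfold wdS
  rw [if_neg (fun h => hn ((C.Neg_nx_iter q j).1 h))]

lemma wsumS_neg {q : P.FSt × ℕ} (hn : C.Neg q.1) (h : q.2 < k) (n : ℕ) :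
    C.wsumS q n = - C.wsumW (C.mu q) n := by
  classical
  unfold wsumS wsumW
  rw [← Finset.sum_neg_distrib]
  apply Finset.sum_congr rfl
  intro j _
  rw [C.nxS_iter_neg hn h j, C.wdS_mu (px_iter_lt (C.mu_lt h) j), if_pos, vl_swL]
  rw [C.Neg_px_iter, C.mu_1]
  exact hn

lemma wsumS_mu_neg {q : P.FSt × ℕ} (hn : C.Neg q.1) (h : q.2 < k) (n : ℕ) :
    C.wsumS (C.mu q) n = - C.wsumW q n := by
  rw [C.wsumS_neg (by rw [C.mu_1]; exact hn) (C.mu_lt h), C.mu_mu h]

/-! ## Totals and bounds in the S-reading -/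

variable {C}

section TotS

variable {B : ℕ} (hW : C.Words B)
include hW

lemma Words.totS (hk : 0 < k) {r : P.FSt} (hV : IsV r) (hC : C.core r.facet) :
    C.wsumS (r, 0) (minimalPeriod C.pS r * k) = 2 * |C.sg r.facet| := by
  rw [C.minimalPeriod_S]
  by_cases hn : C.Neg r
  · have h1 := C.wsumS_neg (q := (r, 0)) hn hk (minimalPeriod pE r * k)
    rw [h1, C.mu_neg hn, hW.totW_x hV hC (by omega), hn.2.2]
    norm_num
  · rw [C.wsumS_pos (q := (r, 0)) hn, hW.tot r hV hC]
    rcases C.sg_or _ hC with h | h | h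
    · rw [h]; norm_num
    · exact absurd ⟨hV, hC, h⟩ hn
    · rw [h]; norm_num

lemma Words.bdS {r : P.FSt} (hV : IsV r) (hC : C.core r.facet) {x n : ℕ} (hx : x < k)
    (hn : n ≤ minimalPeriod C.pS r * k) : |C.wsumS (r, x) n| ≤ B := by
  rw [C.minimalPeriod_S] at hn
  by_cases hneg : C.Neg r
  · rw [C.wsumS_neg (q := (r, x)) hneg hx, C.mu_neg hneg, abs_neg]
    exact hW.bdW hV hC (by omega) hn
  · rw [C.wsumS_pos (q := (r, x)) hneg]
    exact hW.bd r x n hV hC hx hn

end TotS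

/-! ## Matched and unmatched feet -/

/-- matched feet in the S-reading -/
lemma Matched.toS {q q' : P.FSt × ℕ} (hq : q.2 < k) (h : C.Matched q q') :
    C.MatchedS (C.mu q) (C.mu q') ∨ C.MatchedS (C.mu q') (C.mu q) := by
  classical
  obtain ⟨h1, h2, n, hn, rfl, h4, h5⟩ := h
  have hlt := nx_iter_lt (k := k) hq n
  by_cases hneg : C.Neg q.1
  · right
    have hneg' : C.Neg ((nx k)^[n] q).1 := (C.Neg_nx_iter q n).2 hneg
    have hs : C.wsum q (n + 1) = 0 := by
      have := C.wsum_add q n 1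
      rw [C.wsum_one, h2, h4] at this
      rw [this]; rfl
    have key : ∀ j, j ≤ n + 1 → C.wsumS (C.mu ((nx k)^[n] q)) j = C.wsum q (n + 1 - j) := by
      intro j hj
      rw [C.wsumS_mu_neg hneg' hlt, C.wsumW_sub hq hj, hs]
      ring
    refine ⟨?_, ?_, n, hn, ?_, ?_, ?_⟩
    · rw [C.wdS_mu hlt, if_pos hneg', h2]; rfl
    · rw [C.wdS_mu hq, if_pos hneg, h1]; rfl
    · rw [C.nxS_iter_neg (by rw [C.mu_1]; exact hneg') (C.mu_lt hlt), C.mu_mu hlt, px_iter_nx hq]
    · rw [key n (by omega), show n + 1 - n = 1 by omega, C.wsum_one, h1]; rfl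
    · intro j hj1 hj2
      rw [key j (by omega)]
      exact h5 _ (by omega) (by omega)
  · left
    have hneg' : ¬ C.Neg ((nx k)^[n] q).1 := fun h => hneg ((C.Neg_nx_iter q n).1 h)
    rw [C.mu_pos hneg, C.mu_pos hneg']
    refine ⟨?_, ?_, n, hn, C.nxS_iter_pos hneg n, ?_, ?_⟩
    · unfold wdS; rw [if_neg hneg]; exact h1
    · unfold wdS; rw [if_neg hneg']; exact h2
    · rw [C.wsumS_pos hneg]; exact h4
    · intro j hj1 hj2
      rw [C.wsumS_pos hneg]
      exact h5 j hj1 hj2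

/-- unmatched feet in the S-reading -/
lemma Unmatched.toS {B : ℕ} (hW : C.Words B) {r : P.FSt} {x : ℕ} (hV : IsV r)
    (hC : C.core r.facet) (hx : x < k) (h : C.Unmatched (r, x)) :
    C.sg r.facet ≠ 0 ∧ C.UnmatchedS (C.mu (r, x)) := by
  classical
  have hLp : 1 ≤ minimalPeriod pE r * k :=
    Nat.mul_pos (Pool.Agent.MP42.minimalPeriod_pos' pE r) (by omega)
  rcases h with ⟨h1, h2⟩ | ⟨h1, h2⟩
  · have h3 := h2 _ hLp
    rw [hW.tot_x hV hC hx] at h3
    have hneg : ¬ C.Neg r := by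
      rintro ⟨-, -, h⟩
      rw [h] at h3
      norm_num at h3
    refine ⟨fun h0 => by rw [h0] at h3; norm_num at h3, ?_⟩
    rw [C.mu_pos (q := (r, x)) hneg]
    refine ⟨?_, fun j hj => ?_⟩
    · unfold wdS; rw [if_neg hneg]; exact h1
    · rw [C.wsumS_pos (q := (r, x)) hneg]
      exact h2 j hj
  · have h3 := h2 _ hLp
    rw [hW.totW_x hV hC hx] at h3
    have hneg : C.Neg r := by
      refine ⟨hV, hC, ?_⟩
      rcases C.sg_or _ hC with h | h | h
      · rw [h] at h3; norm_num at h3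
      · exact h
      · rw [h] at h3; norm_num at h3
    refine ⟨by rw [hneg.2.2]; decide, ?_, fun j hj => ?_⟩
    · rw [C.wdS_mu (q := (r, x)) hx, if_pos hneg]
      rw [h1]; rfl
    · rw [C.wsumS_mu_neg (q := (r, x)) hneg hx]
      have := h2 j hj
      linarith

lemma UnmatchedS.to {q : P.FSt × ℕ} (hx : q.2 < k) (h : C.UnmatchedS q) :
    C.Unmatched (C.mu q) := by
  classical
  obtain ⟨h1, h2⟩ := h
  by_cases hneg : C.Neg q.1
  · right
    constructor
    · unfold wdS at h1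
      rw [if_pos hneg, swL_n] at h1
      unfold mu
      rw [if_pos hneg]
      exact h1
    · intro j hj
      have h3 := h2 j hj
      rw [C.wsumS_neg hneg hx] at h3
      linarith
  · left
    rw [C.mu_pos hneg]
    constructor
    · unfold wdS at h1
      rw [if_neg hneg] at h1
      exact h1
    · intro j hj
      rw [← C.wsumS_pos hneg]
      exact h2 j hj

end JCertE

end Pool.Agent.MP42E
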