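import Pool.Agent.MP42.G.Defs

/-!
# Signed reduction theorem (GRT with a sign for every band, and cut bands): the interface

`JCertE P k` is `JCert P k` of `G/Defs.lean` with a number `sg f` for every core ring:
`sg = 1` or `-1`: the curve runs through the band; the words of its two rims have total `2 * sg`.
`sg = 0`: a cut band; the words of its rims have total `0`.

Changes compared with `JCert`:
* `cov` is required for all facets (also the core facets of cut rings), and a core facet of a cut
  ring only counts as a target if a strand runs over the line `x` there (`Opn`);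
* lean facets hang on core facets with `sg` different from `0`;
* `Words.tot`, `Unmatched` (in a ring with `sg = -1`: a lane `s` that is never opened).

As before all rim words are read in the frame of the rim state, going east, junction in the south.
-/

set_option autoImplicit false
set_option linter.unusedSectionVars false

namespace Pool.Agent.MP42E

open Pool.Agent.Helper55.UNF Pool.Agent.Helper55.UNF.GridSolid Pool.Agent.MP42G

variable {P : GridSolid}

section Words

variable (k : ℕ) (can : P.Facet → P.FSt) (la : P.Facet → ℕ → ℕ → Ln)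

open Classical in
/-- the lane over the south side of a state -/
noncomputable def wdF (r : P.FSt) (x : ℕ) : Ln :=
  if can r.facet = r then la r.facet x 0 else la r.facet (k - 1 - x) k

/-- the next column on a rim -/
def nx (q : P.FSt × ℕ) : P.FSt × ℕ := if q.2 + 1 < k then (q.1, q.2 + 1) else (q.1.stE, 0)

/-- the previous column on a rim -/
noncomputable def px (q : P.FSt × ℕ) : P.FSt × ℕ :=
  if 0 < q.2 then (q.1, q.2 - 1) else (pE.symm q.1, k - 1)

/-- sum of the next `n` letters of the word of a rim -/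
noncomputable def wsF (q : P.FSt × ℕ) (n : ℕ) : ℤ :=
  ∑ j ∈ Finset.range n, vl (wdF k can la ((nx k)^[j] q).1 ((nx k)^[j] q).2)

/-- A strand runs over the line `x` (`0 ≤ x ≤ k`) of the rim state `r` of a cut ring: to the east
of the line there is a lane `s` that is opened to the west of the line. -/
def Opn (r : P.FSt) (x : ℕ) : Prop :=
  ∃ n, wsF k can la (if x < k then (r, x) else (r.stE, 0)) n < 0

end Words

/-- A junction certificate with signs. -/
structure JCertE (P : GridSolid) (k : ℕ) where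
  core : P.Facet → Prop
  core_E : ∀ s : P.FSt, IsV s → (core s.stE.facet ↔ core s.facet)
  /-- the signs of the core rings -/
  sg : P.Facet → ℤ
  sg_or : ∀ f, core f → sg f = 1 ∨ sg f = -1 ∨ sg f = 0
  sg_E : ∀ s : P.FSt, IsV s → core s.facet → sg s.stE.facet = sg s.facet
  can : P.Facet → P.FSt
  can_facet : ∀ f, (can f).facet = f
  can_core : ∀ f, core f → IsV (can f)
  /-- strands over vertical unit edges (only the facets that are not core matter) -/
  pr : P.Facet → ℕ → ℕ → Bool
  /-- lanes over horizontal unit edges (on the core facets only the lower and upper side matter) -/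
  la : P.Facet → ℕ → ℕ → Ln
  ok : ∀ f, ¬ core f → CellOk k (pr f) (la f)
  /-- the two outermost columns of the core facets carry no lanes, if the band is not cut -/
  free : ∀ f, core f → sg f ≠ 0 → ∀ x < k, (x < 2 ∨ k ≤ x + 2) → la f x 0 = Ln.z ∧ la f x k = Ln.z
  gN : ∀ f g, (can f).stN = can g → ∀ x < k, la f x k = la g x 0
  gN' : ∀ f, (∀ g, (can f).stN ≠ can g) → ∀ x < k, la f x k = Ln.z
  gS' : ∀ g, (∀ f, (can f).stN ≠ can g) → ∀ x < k, la g x 0 = Ln.z
  gE : ∀ f g, ¬ core f → (can f).stE = can g → ∀ y < k, pr f k y = pr g 0 y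
  gEr : ∀ f g, ¬ core f → (can f).stE = (can g).r2 → ∀ y < k, pr f k y = pr g k (k - 1 - y)
  gWr : ∀ f g, ¬ core f → (can f).r2.stE = can g → ∀ y < k, pr f 0 y = pr g 0 (k - 1 - y)
  gE' : ∀ f, ¬ core f → (∀ g, (can f).stE ≠ can g ∧ (can f).stE ≠ (can g).r2) → ∀ y < k,
    pr f k y = false
  gW' : ∀ f, ¬ core f → (∀ g, (can f).r2.stE ≠ can g ∧ (can f).r2.stE ≠ (can g).r2) → ∀ y < k,
    pr f 0 y = false
  /-- the lean facets: they carry nothing and are attached to their eastern or western neighbour -/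
  L : P.Facet → Prop
  L_core : ∀ f, L f → ¬ core f
  Lpr : ∀ f, L f → ∀ x y, x ≤ k → y < k → pr f x y = false
  Lla : ∀ f, L f → ∀ x y, x < k → y ≤ k → la f x y = Ln.z
  /-- coverage: the canonical line of a facet that is not lean and not in a ring with
  `sg ≠ 0` reaches a west port (`w = true`) and an east port (`w = false`) of the column `x`: in a
  facet that is not core, or in any core facet with `sg ≠ 0`, or in a core facet of a cut ring where
  a strand of one of the two rims runs over this line -/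
  cov : ∀ f, ¬ L f → (core f → sg f = 0) → ∀ x < k, ∀ w : Bool, ∃ z : ℤ,
    (∀ y ∈ Set.uIcc 0 z, ∃ g, ¬ L g ∧ (pN ^ y) (can f) = can g) ∧
    ∃ g, (pN ^ z) (can f) = can g ∧
      ((core g ∧ (sg g ≠ 0 ∨ Opn k can la (can g) (if w then x else x + 1) ∨
          Opn k can la (can g).r2 (k - (if w then x else x + 1)))) ∨
        (¬ core g ∧ ∃ y < k, pr g (if w then x else x + 1) y = true))
  /-- facets that are not used as special facets -/
  nsp : P.Facet → Prop
  nsp_ex : ∀ r : P.FSt, IsV r → core r.facet → sg r.facet ≠ 0 →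
    ∃ a, pE.SameCycle r a ∧ ¬ nsp a.facet
  /-- the support of the lean facets; if they hang on core facets then in rings with `sg ≠ 0` -/
  lean : ∀ f, L f → ∃ J : JLean P k core nsp L can pr la f, core J.f0 → sg J.f0 ≠ 0
  lcut : ∀ f, L f → ∃ g, core g ∧ sg g ≠ 0

namespace JCertE

variable {k : ℕ} (C : JCertE P k)

/-- the lane over the south side of a state -/
noncomputable def wd (r : P.FSt) (x : ℕ) : Ln := wdF k C.can C.la r x

open Classical in
/-- the value of a predicate on the south side of a state -/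
noncomputable def fv (χ : P.Facet → ℕ → ℕ → Prop) (r : P.FSt) (x : ℕ) : Prop :=
  if C.can r.facet = r then χ r.facet x 0 else χ r.facet (k - 1 - x) k

/-- sum of the next `n` letters of the word of a rim -/
noncomputable def wsum (q : P.FSt × ℕ) (n : ℕ) : ℤ :=
  ∑ j ∈ Finset.range n, vl (C.wd ((nx k)^[j] q).1 ((nx k)^[j] q).2)

/-- sum of the `n` letters that end with `q`, going west -/
noncomputable def wsumW (q : P.FSt × ℕ) (n : ℕ) : ℤ :=
  ∑ j ∈ Finset.range n, vl (C.wd ((px k)^[j] q).1 ((px k)^[j] q).2)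

/-- bracket matching: `q` opens a strand and `q'` closes it -/
def Matched (q q' : P.FSt × ℕ) : Prop :=
  C.wd q.1 q.2 = Ln.n ∧ C.wd q'.1 q'.2 = Ln.s ∧ ∃ n, 1 ≤ n ∧ (nx k)^[n] q = q' ∧
    C.wsum q n = 1 ∧ ∀ j, 1 ≤ j → j ≤ n → 1 ≤ C.wsum q j

/-- `q` opens a strand that is never closed (only if `sg = 1`), or `q` closes a strand that is
never opened (only if `sg = -1`) -/
def Unmatched (q : P.FSt × ℕ) : Prop :=
  (C.wd q.1 q.2 = Ln.n ∧ ∀ j, 1 ≤ j → 1 ≤ C.wsum q j) ∨
    (C.wd q.1 q.2 = Ln.s ∧ ∀ j, 1 ≤ j → C.wsumW q j ≤ -1)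

/-- the predicates are invariant in the junctions -/
structure Inv (ψ χ : P.Facet → ℕ → ℕ → Prop) : Prop where
  cell : ∀ f, ¬ C.core f → CellRel k (C.pr f) (C.la f) (ψ f) (χ f)
  gN : ∀ f g, (C.can f).stN = C.can g → ∀ x < k, C.la f x k ≠ Ln.z → (χ f x k ↔ χ g x 0)
  gE : ∀ f g, ¬ C.core f → (C.can f).stE = C.can g → ∀ y < k, C.pr f k y = true →
    (ψ f k y ↔ ψ g 0 y)
  gEr : ∀ f g, ¬ C.core f → (C.can f).stE = (C.can g).r2 → ∀ y < k, C.pr f k y = true →
    (ψ f k y ↔ ψ g k (k - 1 - y))
  gWr : ∀ f g, ¬ C.core f → (C.can f).r2.stE = C.can g → ∀ y < k, C.pr f 0 y = true →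
    (ψ f 0 y ↔ ψ g 0 (k - 1 - y))
  matched : ∀ r x q', IsV r → C.core r.facet → x < k → C.Matched (r, x) q' →
    (C.fv χ r x ↔ C.fv χ q'.1 q'.2)

/-- any two unmatched feet of a rim have the same value -/
def Eq2 (χ : P.Facet → ℕ → ℕ → Prop) : Prop :=
  ∀ r x r' x', IsV r → C.core r.facet → pE.SameCycle r r' → x < k → x' < k →
    C.Unmatched (r, x) → C.Unmatched (r', x') → (C.fv χ r x ↔ C.fv χ r' x')

/-- Constant on the junctions: `Q` is the value of the junction; for the core facets `Q r` is the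
value of the rim of the rim state `r`. -/
structure ConstJ (ψ χ : P.Facet → ℕ → ℕ → Prop) (Q : P.FSt → Prop) : Prop where
  fac : ∀ s, ¬ C.core s.facet → (Q s ↔ Q (C.can s.facet))
  adj : ∀ s, ¬ C.core s.facet → ¬ C.core s.stE.facet → (Q s ↔ Q s.stE)
  rim : ∀ r, IsV r → C.core r.facet → (Q r ↔ Q r.stE)
  link : ∀ r, IsV r → C.core r.facet → (Q r ↔ Q r.r2.stN)
  feet : ∀ r x, IsV r → C.core r.facet → x < k → C.wd r x ≠ Ln.z → (C.fv χ r x ↔ Q r)
  ver : ∀ f x y, ¬ C.core f → x ≤ k → y < k → C.pr f x y = true → (ψ f x y ↔ Q (C.can f))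
  hor : ∀ f x y, ¬ C.core f → x < k → y ≤ k → C.la f x y ≠ Ln.z → (χ f x y ↔ Q (C.can f))

/-- the closed-up junctions are closed curves -/
def Conn : Prop := ∀ ψ χ, C.Inv ψ χ → C.Eq2 χ → ∃ Q, C.ConstJ ψ χ Q

/-- The words of the rims: every rim has total `2 * sg`, and partial sums are bounded. -/
structure Words (B : ℕ) : Prop where
  bd : ∀ r x n, IsV r → C.core r.facet → x < k → n ≤ Function.minimalPeriod pE r * k →
    |C.wsum (r, x) n| ≤ B
  tot : ∀ r, IsV r → C.core r.facet →
    C.wsum (r, 0) (Function.minimalPeriod pE r * k) = 2 * C.sg r.facet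

/-- The bands with `sg ≠ 0` connect all junctions. -/
def Tree : Prop := ∀ Q : P.FSt → Prop,
  (∀ s, ¬ C.core s.facet → (Q s ↔ Q (C.can s.facet))) →
  (∀ s, ¬ C.core s.facet → ¬ C.core s.stE.facet → (Q s ↔ Q s.stE)) →
  (∀ r, IsV r → C.core r.facet → (Q r ↔ Q r.stE)) →
  (∀ r, IsV r → C.core r.facet → (Q r ↔ Q r.r2.stN)) →
  (∀ r, IsV r → C.core r.facet → C.sg r.facet ≠ 0 → (Q r ↔ Q r.r2)) →
  ∀ s t : P.FSt, (C.core s.facet → IsV s) → (C.core t.facet → IsV t) → (Q s ↔ Q t)

end JCertE

end Pool.Agent.MP42E
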