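import Pool.Agent.MP42.E.Track
import Pool.Agent.MP42.Counter

/-!
# Signed reduction theorem: through strands, all strands of the core walls, in the S-reading

Text of `G/Track2.lean` (helper53), adapted.
-/

set_option autoImplicit false
set_option linter.unusedSectionVars false

namespace Pool.Agent.MP42E

open Pool.Agent.Helper55.UNF Pool.Agent.Helper55.UNF.GridSolid Pool.Agent.MP42G
open Pool.Agent.MP42G.JCert (shc shc_true shc_r2 shc_free vl_z vl_n vl_s vl_cases c0)

namespace JCertE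

variable {P : GridSolid} {k : ℕ} {C : JCertE P k} {D : ℕ} {R : C.Rims D}
  {ψ χ : P.Facet → ℕ → ℕ → Prop}

lemma c0_lt (R : C.Rims D) (a : P.FSt) : c0 k a + 2 ≤ k := by
  have := R.hk4
  unfold c0
  split_ifs <;> omega

lemma c0_r2 {a : P.FSt} (h : IsV a) (hk : 2 ≤ k) : k - 1 - c0 k a.r2 = c0 k a + 1 ∧
    c0 k a.r2 + c0 k a + 2 = k := by
  have h1 := IsU_r2 h
  unfold c0
  by_cases hu : IsU a
  · rw [if_pos hu, if_neg (by rw [h1]; exact not_not.2 hu)]
    omega
  · rw [if_neg hu, if_pos (h1.2 hu)]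
    omega

lemma port_eq (a : P.FSt) (j : ℕ) : R.port χ a j ↔ C.hS χ a (c0 k a + j) (R.base a) := by
  unfold Rims.port c0
  split_ifs
  · exact Iff.rfl
  · rw [Nat.zero_add]

lemma port_r2 {a : P.FSt} (h : IsV a ∧ C.core a.facet) {j : ℕ} (hj : j < 2) :
    R.port χ a.r2 j ↔ C.hS χ a (c0 k a + 1 - j) (R.base a + R.tc a) := by
  have h1 := R.base_add h.1
  have h2 := c0_r2 (k := k) h.1 (by have := R.hk4; omega)
  have h3 := c0_lt R a.r2
  rw [port_eq, C.hS_r2 h (by omega) (by omega)]
  rw [show k - 1 - (c0 k a.r2 + j) = c0 k a + 1 - j by omega,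
    show k - R.base a.r2 = R.base a + R.tc a by omega]

/-! ## Core rows -/

section Core

variable (I : RInv R ψ χ)
include I

lemma core_col {r : P.FSt} (h : IsV r ∧ C.core r.facet) {x y : ℕ} (hx : x < k)
    (hs : shc k R.sp r x = false) (h1 : R.base r ≤ y) (h2 : y < R.base r + R.tc r) :
    C.vS ψ r x y ↔ C.vS ψ r (x + 1) y :=
  col_straight I h hx hs (by omega) (by omega) h2

lemma core_cols {r : P.FSt} (h : IsV r ∧ C.core r.facet) {x x' y : ℕ} (hxx : x ≤ x') (hx : x' ≤ k)
    (hs : ∀ i, x ≤ i → i < x' → shc k R.sp r i = false) (h1 : R.base r ≤ y)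
    (h2 : y < R.base r + R.tc r) : C.vS ψ r x y ↔ C.vS ψ r x' y := by
  induction x', hxx using Nat.le_induction with
  | base => exact Iff.rfl
  | succ n hn ih =>
    rw [ih (by omega) (fun i a b => hs i a (by omega))]
    exact core_col I h (by omega) (hs n hn (by omega)) h1 h2

lemma core_gl {r : P.FSt} (h : IsV r ∧ C.core r.facet) {y : ℕ} (h1 : R.base r ≤ y)
    (h2 : y < R.base r + R.tc r) : C.vS ψ r k y ↔ C.vS ψ (C.pS r) 0 y := by
  have h3 := R.base_add h.1
  have h4 := R.D_le_base r.r2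
  have h5 := R.hk
  refine I.gl r h y ?_ (R.core_row r h h1 h2 le_rfl)
  have := (R.win r h).lt k le_rfl
  have := core_le_hi I h k
  omega

lemma core_facet {r : P.FSt} (h : IsV r ∧ C.core r.facet) (hn : ¬ R.sp r.facet) {y : ℕ}
    (h1 : R.base r ≤ y) (h2 : y < R.base r + R.tc r) : C.vS ψ r 0 y ↔ C.vS ψ (C.pS r) 0 y := by
  rw [core_cols I h (Nat.zero_le k) le_rfl ?_ h1 h2]
  · exact core_gl I h h1 h2
  · intro i _ _
    cases hs : shc k R.sp r i
    · rfl
    · exact absurd (shc_true.1 hs).1 hn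

lemma ok_pow {a : P.FSt} (h : IsV a ∧ C.core a.facet) (i : ℕ) :
    IsV ((C.pS ^ i) a) ∧ C.core ((C.pS ^ i) a).facet := by
  induction i with
  | zero => exact h
  | succ i ih =>
    rw [pow_succ']
    exact Rims.vS' ih

omit I in
lemma base_pow (a : P.FSt) (i : ℕ) : R.base ((C.pS ^ i) a) = R.base a := by
  induction i with
  | zero => rfl
  | succ i ih =>
    rw [pow_succ']
    exact (R.base_S _).trans ih

omit I in
lemma tc_pow (a : P.FSt) (i : ℕ) : R.tc ((C.pS ^ i) a) = R.tc a := by
  induction i with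
  | zero => rfl
  | succ i ih =>
    rw [pow_succ']
    exact (R.tc_S _).trans ih

omit I in
lemma not_sp_pow {a : P.FSt} (h : IsV a ∧ C.core a.facet) (hsp : R.sp a.facet) {i : ℕ}
    (h0 : 0 < i) (h1 : i < Function.minimalPeriod C.pS a) : ¬ R.sp ((C.pS ^ i) a).facet := by
  intro h2
  obtain ⟨b, -, hb⟩ := spS_ex R h.1 h.2 (R.sp_sg _ h.2 hsp)
  have e1 := hb a ⟨Equiv.Perm.SameCycle.refl _ _, hsp⟩
  have e2 := hb ((C.pS ^ i) a) ⟨⟨i, by rw [zpow_natCast]⟩, h2⟩
  have e3 : (C.pS ^ i) a = (C.pS ^ (Function.minimalPeriod C.pS a)) a := by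
    rw [Pool.Agent.MP42.pow_minimalPeriod, e2, e1]
  have := Pool.Agent.MP42.pos_unique C.pS h0 h1.le (by omega) le_rfl e3
  omega

/-- a core row from the facet after the special facet to the special facet -/
lemma core_turn {a : P.FSt} (h : IsV a ∧ C.core a.facet) (hsp : R.sp a.facet) {y : ℕ}
    (h1 : R.base a ≤ y) (h2 : y < R.base a + R.tc a) : C.vS ψ (C.pS a) 0 y ↔ C.vS ψ a 0 y := by
  have key : ∀ i, i + 1 ≤ Function.minimalPeriod C.pS a →
      (C.vS ψ (C.pS a) 0 y ↔ C.vS ψ ((C.pS ^ (i + 1)) a) 0 y) := by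
    intro i
    induction i with
    | zero => intro _; exact Iff.rfl
    | succ i ih =>
      intro hi
      rw [ih (by omega), pow_succ' C.pS (i + 1)]
      apply core_facet I (ok_pow I h (i + 1)) (not_sp_pow h hsp (by omega) (by omega))
      · rw [base_pow]; exact h1
      · rw [base_pow, tc_pow]; exact h2
  have hp := Pool.Agent.MP42.minimalPeriod_pos' C.pS a
  have h3 := key (Function.minimalPeriod C.pS a - 1) (by omega)
  rw [Nat.sub_add_cancel hp, Pool.Agent.MP42.pow_minimalPeriod] at h3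
  exact h3

lemma core_turn' {a : P.FSt} (h : IsV a ∧ C.core a.facet) (hsp : R.sp a.facet) {y : ℕ}
    (h1 : R.base a ≤ y) (h2 : y < R.base a + R.tc a) :
    C.vS ψ a (c0 k a + 2) y ↔ C.vS ψ a (c0 k a) y := by
  have hc := c0_lt R a
  have hs : ∀ i, i < k → ¬ (i = c0 k a ∨ i = c0 k a + 1) → shc k R.sp a i = false := by
    intro i hi hne
    cases hs : shc k R.sp a i
    · rfl
    · exact absurd ((shc_c0 R hsp hi).1 hs) hne
  rw [← core_cols I h (Nat.zero_le (c0 k a)) (by omega) (fun i _ hi => hs i (by omega) (by omega))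
    h1 h2]
  rw [core_cols I h hc le_rfl (fun i hi hi' => hs i hi' (by omega)) h1 h2]
  rw [core_gl I h h1 h2]
  exact core_turn I h hsp h1 h2

omit I in
lemma one_le_H {a : P.FSt} (h : IsV a ∧ C.core a.facet) (hsp : R.sp a.facet) {j : ℕ}
    (hj : j < 2) : 1 ≤ R.H a (c0 k a + j) := by
  have hc := c0_lt R a
  have := R.H_sh h (x := c0 k a + j) (by omega) ((shc_c0 R hsp (by omega)).2 (by omega))
  omega

/-- **T2 (c)**: the strands that go through the band -/
theorem through {a : P.FSt} (h : IsV a ∧ C.core a.facet) (hsp : R.sp a.facet) {j : ℕ}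
    (hj : j < 2) : R.port χ a j ↔ R.port χ a.r2 (if R.t a then 1 - j else j) := by
  have hc := c0_lt R a
  have hp0 := port_eq (R := R) (χ := χ) a
  have hb := R.H_le_base h (x := c0 k a) (by omega)
  have hb1 := R.H_le_base h (x := c0 k a + 1) (by omega)
  have hH0 := one_le_H h hsp (j := 0) (by omega)
  have hH1 := one_le_H h hsp (j := 1) (by omega)
  rw [Nat.add_zero] at hH0
  have hcut := R.sp_cut h hsp
  have htc := R.tc_pos hcut
  have htc' := R.tc_le a
  have s0 : shc k R.sp a (c0 k a) = true := (shc_c0 R hsp (by omega)).2 (Or.inl rfl)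
  have s1 : shc k R.sp a (c0 k a + 1) = true := (shc_c0 R hsp (by omega)).2 (Or.inr rfl)
  -- the ports
  have e0 : C.hS χ a (c0 k a) (R.base a) ↔ C.vS ψ a (c0 k a + 1) (R.base a) := by
    have := (col_shift I h (x := c0 k a) (y := R.base a - 1) (by omega) s0 (by omega)
      (by omega)).2
    rwa [show R.base a - 1 + 1 = R.base a by omega] at this
  have e1 : C.hS χ a (c0 k a + 1) (R.base a) ↔ C.vS ψ a (c0 k a + 2) (R.base a) := by
    have := (col_shift I h (x := c0 k a + 1) (y := R.base a - 1) (by omega) s1 (by omega)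
      (by omega)).2
    rwa [show R.base a - 1 + 1 = R.base a by omega] at this
  have f0 : ∀ y, R.base a ≤ y → y < R.base a + R.tc a →
      (C.vS ψ a (c0 k a) y ↔ C.hS χ a (c0 k a) (y + 1)) ∧
      (C.hS χ a (c0 k a) (y + 1) ↔ C.vS ψ a (c0 k a + 1) (y + 1)) := fun y h1 h2 =>
    col_shift I h (x := c0 k a) (by omega) s0 (by omega) h2
  have f1 : ∀ y, R.base a ≤ y → y < R.base a + R.tc a →
      (C.vS ψ a (c0 k a + 1) y ↔ C.hS χ a (c0 k a + 1) (y + 1)) ∧
      (C.hS χ a (c0 k a + 1) (y + 1) ↔ C.vS ψ a (c0 k a + 2) (y + 1)) := fun y h1 h2 =>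
    col_shift I h (x := c0 k a + 1) (by omega) s1 (by omega) h2
  cases ht : R.t a
  · have htc1 : R.tc a = 1 := by rw [R.tc_not hcut, ht]; rfl
    rw [if_neg (by decide), port_eq, port_r2 h hj, htc1]
    have hj' : j = 0 ∨ j = 1 := by omega
    rcases hj' with rfl | rfl
    · rw [Nat.add_zero, Nat.sub_zero, e0]
      exact (f1 _ le_rfl (by omega)).1
    · rw [Nat.add_sub_cancel, e1, core_turn' I h hsp le_rfl (by omega)]
      exact (f0 _ le_rfl (by omega)).1
  · have htc1 : R.tc a = 2 := by rw [R.tc_not hcut, ht]; rfl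
    rw [if_pos rfl, port_eq, port_r2 h (by omega), htc1]
    have hj' : j = 0 ∨ j = 1 := by omega
    rcases hj' with rfl | rfl
    · rw [Nat.add_zero, e0, show c0 k a + 1 - (1 - 0) = c0 k a by omega]
      rw [(f1 _ le_rfl (by omega)).1, (f1 _ le_rfl (by omega)).2,
        core_turn' I h hsp (by omega) (by omega)]
      exact (f0 _ (by omega) (by omega)).1
    · rw [e1, show c0 k a + 1 - (1 - 1) = c0 k a + 1 by omega]
      rw [core_turn' I h hsp le_rfl (by omega), (f0 _ le_rfl (by omega)).1,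
        (f0 _ le_rfl (by omega)).2]
      exact (f1 _ (by omega) (by omega)).1

end Core

/-! ## All strands -/

/-- `Q` is constant along the rims, the same for the two rims of a band, and the value of all
feet -/
structure QInv (C : JCertE P k) (χ : P.Facet → ℕ → ℕ → Prop) (Q : P.FSt → Prop) : Prop where
  rim : ∀ r, IsV r → C.core r.facet → (Q r ↔ Q (C.pS r))
  two : ∀ r, IsV r → C.core r.facet → (Q r ↔ Q r.r2)
  feet : ∀ r x, IsV r → C.core r.facet → x < k → C.wdS r x ≠ Ln.z → (C.fvS χ r x ↔ Q r)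

section All

variable {Q : P.FSt → Prop} (I : RInv R ψ χ) (J : QInv C χ Q)
include I J

/-- the strand of level `l` at the line `x` has the value `Q` -/
def Good (R : C.Rims D) (ψ : P.Facet → ℕ → ℕ → Prop) (Q : P.FSt → Prop) (l : ℕ) (r : P.FSt)
    (x : ℕ) : Prop := l ≤ R.H r x → (C.vS ψ r x (R.base r - l) ↔ Q r)

lemma good_col {l : ℕ} (hl : 1 ≤ l) {r : P.FSt} (h : IsV r ∧ C.core r.facet) {x : ℕ} (hx : x < k)
    (h1 : Good R ψ Q (l + 1) r x) (h2 : shc k R.sp r x = false → Good R ψ Q l r x) :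
    Good R ψ Q l r (x + 1) := by
  intro hle
  have hb := R.H_le_base h (x := x) hx.le
  have hb' := R.H_le_base h (x := x + 1) hx
  cases hs : shc k R.sp r x
  · have h3 := R.H_not h hx hs
    rcases vl_cases (C.wdS r x) with h4 | h4 | h4
    · rw [h4] at h3
      rw [← col_straight I h hx hs (y := R.base r - l) (by omega) (by omega) (by omega)]
      exact h2 hs (by omega)
    · have hn := vl_n.1 h4
      obtain ⟨-, h5, h6⟩ := col_open I h hx hn
      by_cases h7 : l = R.H r (x + 1)
      · rw [h7, ← h6]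
        exact J.feet r x h.1 h.2 hx (by rw [hn]; decide)
      · rw [← col_straight I h hx hs (y := R.base r - l) (by omega) (by omega) (by omega)]
        exact h2 hs (by omega)
    · rw [h4] at h3
      rw [← col_straight I h hx hs (y := R.base r - l) (by omega) (by omega) (by omega)]
      exact h2 hs (by omega)
  · have h3 := R.H_sh h hx hs
    have h4 := col_shift I h hx hs (y := R.base r - (l + 1)) (by omega) (by omega)
    rw [show R.base r - (l + 1) + 1 = R.base r - l by omega] at h4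
    rw [← h4.2, ← h4.1]
    exact h1 (by omega)

lemma good_cols {l : ℕ} (hl : 1 ≤ l) {r : P.FSt} (h : IsV r ∧ C.core r.facet)
    (h1 : ∀ x ≤ k, Good R ψ Q (l + 1) r x) {x0 x : ℕ} (hxx : x0 ≤ x) (hx : x ≤ k)
    (h2 : Good R ψ Q l r x0) : Good R ψ Q l r x := by
  induction x, hxx using Nat.le_induction with
  | base => exact h2
  | succ n hn ih =>
    exact good_col I J hl h (by omega) (h1 n (by omega)) (fun _ => ih (by omega))

lemma good_E {l : ℕ} (hl : 1 ≤ l) {r : P.FSt} (h : IsV r ∧ C.core r.facet)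
    (h1 : Good R ψ Q l r k) : Good R ψ Q l (C.pS r) 0 := by
  intro hle
  rw [R.H_E r h.1 h.2] at hle
  rw [R.base_S, ← J.rim r h.1 h.2, ← h1 hle]
  have hb := R.H_le_base h (x := k) le_rfl
  have a1 := lo_x I h (x := k) le_rfl
  have a2 := core_le_hi I h k
  have a3 := (R.win r h).lt k le_rfl
  exact (I.gl r h _ (by omega) ((R.win r h).pr_true.2 ⟨by omega, by omega⟩)).symm

lemma good_all (m : ℕ) : ∀ l, 1 ≤ l → D < l + m → ∀ r, IsV r ∧ C.core r.facet → ∀ x ≤ k,
    Good R ψ Q l r x := by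
  induction m with
  | zero =>
    intro l hl hD r h x hx hle
    have := R.H_le r x h.1 h.2 hx
    omega
  | succ m ih =>
    intro l hl hD
    have ih' := ih (l + 1) (by omega) (by omega)
    intro r h
    obtain ⟨a, ha, hV, h2⟩ : ∃ a, C.pS.SameCycle r a ∧ (IsV a ∧ C.core a.facet) ∧
        Good R ψ Q l a k := by
      by_cases hs0 : C.sg r.facet = 0
      · obtain ⟨a, x0, ha, hx0, hH⟩ := R.H_0 r h.1 h.2 hs0
        have ha' := C.sameCycle_S.2 ha
        obtain ⟨n, hn⟩ := ha'.exists_nat_pow_eq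
        have hV : IsV a ∧ C.core a.facet := by rw [← hn]; exact ok_pow I h n
        have h1 : Good R ψ Q l a x0 := fun hle => by omega
        exact ⟨a, ha', hV, good_cols I J hl hV (ih' a hV) hx0 le_rfl h1⟩
      · obtain ⟨a, ⟨ha, hsp⟩, -⟩ := spS_ex R h.1 h.2 hs0
        obtain ⟨n, hn⟩ := ha.exists_nat_pow_eq
        have hV : IsV a ∧ C.core a.facet := by rw [← hn]; exact ok_pow I h n
        have hc := c0_lt R a
        -- after the shift columns
        have h1 : Good R ψ Q l a (c0 k a + 1 + 1) :=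
          good_col I J hl hV (by omega) (ih' a hV _ (by omega)) (fun hs => by
            have := (shc_c0 R hsp (x := c0 k a + 1) (by omega)).2 (Or.inr rfl)
            rw [this] at hs
            exact absurd hs (by decide))
        exact ⟨a, ha, hV, good_cols I J hl hV (ih' a hV) (by omega) le_rfl h1⟩
    have h3 : ∀ i, Good R ψ Q l ((C.pS ^ i) (C.pS a)) 0 := by
      intro i
      induction i with
      | zero => exact good_E I J hl hV h2
      | succ i ih2 =>
        rw [pow_succ']
        have hVi := ok_pow I (Rims.vS' hV) i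
        exact good_E I J hl hVi (good_cols I J hl hVi (ih' _ hVi) (Nat.zero_le k) le_rfl ih2)
    have h4 : C.pS.SameCycle (C.pS a) r :=
      Equiv.Perm.sameCycle_apply_left.2 ha.symm
    obtain ⟨i, hi⟩ := h4.exists_nat_pow_eq
    intro x hx
    have h5 := h3 i
    rw [hi] at h5
    exact good_cols I J hl h (ih' r h) (Nat.zero_le x) hx h5

/-- all levels -/
lemma low_row {r : P.FSt} (h : IsV r ∧ C.core r.facet) {x y : ℕ} (hx : x ≤ k)
    (h1 : (R.win r h).lo x ≤ y) (h2 : y < R.base r) : C.vS ψ r x y ↔ Q r := by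
  have a1 := lo_x I h hx
  have := good_all I J D (R.base r - y) (by omega) (by omega) r h x hx (by omega)
  rwa [show R.base r - (R.base r - y) = y by omega] at this

lemma high_row {r : P.FSt} (h : IsV r ∧ C.core r.facet) {x y : ℕ} (hx : x ≤ k)
    (h1 : y ≤ (R.win r h).hi x) (h2 : R.base r + R.tc r ≤ y) : C.vS ψ r x y ↔ Q r := by
  have hlt := (R.win r h).lt x hx
  have h3 := R.base_add h.1
  have h4 : C.vS ψ r.r2 (k - x) (k - 1 - y) ↔ C.vS ψ r x y := by
    rw [C.vS_r2 h (by omega) (by omega), show k - (k - x) = x by omega,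
      show k - 1 - (k - 1 - y) = y by omega]
  rw [← h4, J.two r h.1 h.2]
  apply low_row I J (Rims.vr2 h) (by omega)
  · have h5 := R.win_hi r h x
    have h7 := R.H_le_base (Rims.vr2 h) (x := k - x) (by omega)
    rw [R.win_lo r.r2 (Rims.vr2 h) (k - x)]
    have h8 := R.tc_le r
    have h9 := R.base_lt (Rims.vr2 h).1
    omega
  · omega

lemma core_sp {a : P.FSt} (h : IsV a ∧ C.core a.facet) (hsp : R.sp a.facet) {y : ℕ}
    (h1 : R.base a ≤ y) (h2 : y < R.base a + R.tc a) :
    (C.vS ψ a (c0 k a) y ↔ Q a) ∧ (C.vS ψ a (c0 k a + 1) y ↔ Q a) ∧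
    (C.vS ψ a (c0 k a + 2) y ↔ Q a) := by
  have hc := c0_lt R a
  have hcut := R.sp_cut h hsp
  have htc := R.tc_pos hcut
  have htc' := R.tc_le a
  have s : ∀ j < 2, shc k R.sp a (c0 k a + j) = true := fun j hj =>
    (shc_c0 R hsp (by omega)).2 (by omega)
  have f : ∀ j < 2, ∀ y, R.base a ≤ y → y < R.base a + R.tc a →
      (C.vS ψ a (c0 k a + j) y ↔ C.vS ψ a (c0 k a + j + 1) (y + 1)) := fun j hj y h1 h2 =>
    (col_shift I h (x := c0 k a + j) (by omega) (s j hj) (by omega) h2).1.trans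
      (col_shift I h (x := c0 k a + j) (by omega) (s j hj) (by omega) h2).2
  -- the row above the core rows
  have top : ∀ j < 2, (C.vS ψ a (c0 k a + j + 1) (R.base a + R.tc a) ↔ Q a) := by
    intro j hj
    apply high_row I J h (by omega) _ le_rfl
    have h3 := (R.win a h).s0 (c0 k a + j) (by omega) (s j hj)
    have h4 := core_le_hi I h (c0 k a + j)
    omega
  have g1 : ∀ j < 2, (C.vS ψ a (c0 k a + j) (R.base a + R.tc a - 1) ↔ Q a) := by
    intro j hj
    rw [f j hj _ (by omega) (by omega), show R.base a + R.tc a - 1 + 1 = R.base a + R.tc a by omega]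
    exact top j hj
  have t1 : ∀ y, R.base a ≤ y → y < R.base a + R.tc a → (C.vS ψ a (c0 k a) y ↔ Q a) →
      (C.vS ψ a (c0 k a + 2) y ↔ Q a) := fun y h1 h2 h3 => (core_turn' I h hsp h1 h2).trans h3
  by_cases hy : y = R.base a + R.tc a - 1
  · rw [hy]
    exact ⟨g1 0 (by omega), g1 1 (by omega), t1 _ (by omega) (by omega) (g1 0 (by omega))⟩
  · have hy2 : y + 1 = R.base a + R.tc a - 1 := by omega
    have k0 : C.vS ψ a (c0 k a) y ↔ Q a := by
      have := f 0 (by omega) y h1 h2
      rw [Nat.add_zero, hy2] at this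
      rw [this]
      exact g1 1 (by omega)
    refine ⟨k0, ?_, t1 _ h1 h2 k0⟩
    rw [f 1 (by omega) y h1 h2, hy2]
    exact t1 _ (by omega) (by omega) (g1 0 (by omega))

lemma core_sp_all {a : P.FSt} (h : IsV a ∧ C.core a.facet) (hsp : R.sp a.facet) {y : ℕ}
    (h1 : R.base a ≤ y) (h2 : y < R.base a + R.tc a) {x : ℕ} (hx : x ≤ k) :
    C.vS ψ a x y ↔ Q a := by
  have hc := c0_lt R a
  obtain ⟨g0, g1, g2⟩ := core_sp I J h hsp h1 h2
  have hs : ∀ i, i < k → ¬ (i = c0 k a ∨ i = c0 k a + 1) → shc k R.sp a i = false := by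
    intro i hi hne
    cases hs : shc k R.sp a i
    · rfl
    · exact absurd ((shc_c0 R hsp hi).1 hs) hne
  rcases Nat.lt_or_ge (c0 k a) x with h3 | h3
  · rcases Nat.lt_or_ge (c0 k a + 1) x with h4 | h4
    · rw [← core_cols I h (x := c0 k a + 2) (x' := x) (by omega) hx
        (fun i hi hi' => hs i (by omega) (by omega)) h1 h2]
      exact g2
    · rw [show x = c0 k a + 1 by omega]
      exact g1
  · rw [core_cols I h (x := x) (x' := c0 k a) h3 (by omega)
      (fun i hi hi' => hs i (by omega) (by omega)) h1 h2]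
    exact g0

lemma core_all {r : P.FSt} (h : IsV r ∧ C.core r.facet) {y : ℕ} (h1 : R.base r ≤ y)
    (h2 : y < R.base r + R.tc r) {x : ℕ} (hx : x ≤ k) : C.vS ψ r x y ↔ Q r := by
  have hs0 : C.sg r.facet ≠ 0 := by
    intro h0
    have := R.tc_cut ⟨h.1, h.2, h0⟩
    omega
  obtain ⟨a, ⟨ha, hsp⟩, hau⟩ := spS_ex R h.1 h.2 hs0
  have h4 : C.pS.SameCycle a r := ha.symm
  obtain ⟨i, hi⟩ := h4.exists_nat_pow_eq
  have hV : IsV a ∧ C.core a.facet := by
    obtain ⟨n, hn⟩ := ha.exists_nat_pow_eq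
    rw [← hn]; exact ok_pow I h n
  have hb : R.base r = R.base a := by rw [← hi, base_pow]
  have ht : R.tc r = R.tc a := by rw [← hi, tc_pow]
  have key : ∀ i, ∀ x ≤ k, (C.vS ψ ((C.pS ^ i) a) x y ↔ Q ((C.pS ^ i) a)) := by
    intro i
    induction i with
    | zero => exact fun x hx => core_sp_all I J hV hsp (by omega) (by omega) hx
    | succ i ih =>
      intro x hx
      have hVi := ok_pow I hV i
      have hVs := ok_pow I hV (i + 1)
      by_cases hspi : R.sp ((C.pS ^ (i + 1)) a).facet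
      · exact core_sp_all I J hVs hspi (by rw [base_pow]; omega) (by rw [base_pow, tc_pow]; omega) hx
      · rw [← core_cols I hVs (x := 0) (x' := x) (Nat.zero_le x) hx (fun j _ _ => by
          cases hs : shc k R.sp ((C.pS ^ (i + 1)) a) j
          · rfl
          · exact absurd (shc_true.1 hs).1 hspi) (by rw [base_pow]; omega)
          (by rw [base_pow, tc_pow]; omega)]
        rw [pow_succ']
        show C.vS ψ (C.pS ((C.pS ^ i) a)) 0 y ↔ Q (C.pS ((C.pS ^ i) a))
        rw [← core_gl I hVi (by rw [base_pow]; omega) (by rw [base_pow, tc_pow]; omega),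
          ih k le_rfl]
        exact J.rim _ hVi.1 hVi.2
  have := key i x hx
  rwa [hi] at this

/-- **T2 (d)**: all strands of the core walls have the value `Q` -/
theorem all_pr {r : P.FSt} (h : IsV r ∧ C.core r.facet) {x y : ℕ} (hx : x ≤ k)
    (hp : (R.win r h).pr x y = true) : C.vS ψ r x y ↔ Q r := by
  rw [Wn.pr_true] at hp
  rcases Nat.lt_or_ge y (R.base r) with h1 | h1
  · exact low_row I J h hx hp.1 h1
  · rcases Nat.lt_or_ge y (R.base r + R.tc r) with h2 | h2
    · exact core_all I J h h1 h2 hx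
    · exact high_row I J h hx hp.2 h2

/-- **T2 (d)**: all lanes of the core walls have the value `Q` -/
theorem all_la {r : P.FSt} (h : IsV r ∧ C.core r.facet) {x y : ℕ} (hx : x < k) (hy : y ≤ k)
    (hp : (R.win r h).la x y ≠ Ln.z) : C.hS χ r x y ↔ Q r := by
  cases hs : shc k R.sp r x
  · have hn2 := (R.win r h).n2 x hx hs
    by_cases h1 : ¬ (y ≤ (R.win r h).lo x ∧ y ≤ (R.win r h).lo (x + 1))
    · -- upper lane
      have h3 : (R.win r h).hi x < y ∧ (R.win r h).hi (x + 1) < y := by
        by_contra hcon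
        apply hp
        unfold Wn.la
        rw [if_neg (by rw [Rims.win_sh, hs]; decide), if_neg h1, if_neg hcon]
      have h4 : (R.win r h).top x ≠ Ln.z := by
        intro h0
        apply hp
        unfold Wn.la
        rw [if_neg (by rw [Rims.win_sh, hs]; decide), if_neg h1, if_pos h3]
        unfold Wn.top at h0
        rwa [if_neg (by rw [Rims.win_sh, hs]; decide)] at h0
      rw [(R.win r h).lane_high (I.rel r h) hx hs h4 y h3.1 h3.2 hy]
      have h5 : C.hS χ r x k ↔ C.fvS χ r.r2 (k - 1 - x) := by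
        rw [C.fvS_eq, C.hS_r2 h (by omega) (Nat.zero_le k), show k - 1 - (k - 1 - x) = x by omega,
          Nat.sub_zero]
      rw [h5, J.two r h.1 h.2]
      apply J.feet _ _ (Rims.vr2 h).1 (Rims.vr2 h).2 (by omega)
      rw [← R.win_top r h hx]
      exact h4
    · have h3 : y ≤ (R.win r h).lo x ∧ y ≤ (R.win r h).lo (x + 1) := not_not.1 h1
      have h4 : (R.win r h).bot x ≠ Ln.z := by
        intro h0
        apply hp
        unfold Wn.la
        rw [if_neg (by rw [Rims.win_sh, hs]; decide), if_pos h3]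
        unfold Wn.bot at h0
        rwa [if_neg (by rw [Rims.win_sh, hs]; decide)] at h0
      rw [← (R.win r h).lane_low (I.rel r h) hx hs h4 y h3.1 h3.2, ← C.fvS_eq]
      apply J.feet r x h.1 h.2 hx
      rw [← R.win_bot r h hx]
      exact h4
  · have h1 : (R.win r h).lo x < y ∧ y ≤ (R.win r h).hi x + 1 := by
      by_contra hcon
      apply hp
      unfold Wn.la
      rw [if_pos (by rw [Rims.win_sh, hs]), if_neg hcon]
    have h2 := ((R.win r h).shift (I.rel r h) hx hs (y := y - 1) (by omega) (by omega)).1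
    rw [show y - 1 + 1 = y by omega] at h2
    rw [← h2]
    exact all_pr I J h hx.le ((R.win r h).pr_true.2 ⟨by omega, by omega⟩)

end All

end JCertE

end Pool.Agent.MP42E
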