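import Pool.Agent.MP42.E.Track
import Pool.Agent.Helper55.UNF.LTab

/-!
# Signed reduction theorem: the table of a junction certificate (owner helper73)

Adapted from `G/Glue.lean` (helper55).  `wpr`, `wla`: the windows in the frame of the state (going
east, also for negative rings).
-/

set_option autoImplicit false
set_option linter.unusedSectionVars false

namespace Pool.Agent.MP42E

open Pool.Agent.Helper55.UNF Pool.Agent.Helper55.UNF.GridSolid Pool.Agent.MP42G
open Pool.Agent.MP42G.JCert (shc shc_true shc_r2 shc_free vl_z vl_n vl_s vl_cases c0)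
open Function

variable {P : GridSolid}

namespace JCertE

variable {k : ℕ} (C : JCertE P k)

lemma hcan {f : P.Facet} (h : C.core f) : IsV (C.can f) ∧ C.core (C.can f).facet :=
  ⟨C.can_core f h, by rw [C.can_facet]; exact h⟩

lemma can_ne_r2 (f g : P.Facet) : C.can f ≠ (C.can g).r2 := by
  intro h
  have h1 : f = g := by
    have := congrArg FSt.facet h
    rwa [FSt.facet_r2, C.can_facet, C.can_facet] at this
  subst h1
  have h2 := C.can_r2_ne (r := C.can f) (C.can_can f)
  rw [FSt.facet_r2, C.can_facet] at h2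
  exact h2 h

/-- the core facets are glued to the core facets over the sides that are parallel to `z` -/
lemma core_step {s : P.FSt} (h1 : s = C.can s.facet ∨ s = (C.can s.facet).r2)
    (h2 : s.stE = C.can s.stE.facet ∨ s.stE = (C.can s.stE.facet).r2) :
    C.core s.stE.facet ↔ C.core s.facet := by
  have v1 : C.core s.facet → IsV s := by
    intro h
    rcases h1 with h1 | h1
    · rw [h1]; exact C.can_core _ h
    · rw [h1, IsV_r2]; exact C.can_core _ h
  have v2 : C.core s.stE.facet → IsV s := by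
    intro h
    rw [← IsV_stE]
    rcases h2 with h2 | h2
    · rw [h2]; exact C.can_core _ h
    · rw [h2, IsV_r2]; exact C.can_core _ h
  constructor
  · intro h
    exact (C.core_E s (v2 h)).1 h
  · intro h
    exact (C.core_E s (v1 h)).2 h

lemma core_gE {f g : P.Facet} (h : (C.can f).stE = C.can g ∨ (C.can f).stE = (C.can g).r2) :
    C.core g ↔ C.core f := by
  have hg : (C.can f).stE.facet = g := by
    rcases h with h | h
    · rw [h, C.can_facet]
    · rw [h, FSt.facet_r2, C.can_facet]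
  have h1 := C.core_step (s := C.can f) (Or.inl (C.can_can f).symm) (by rw [hg]; exact h)
  rwa [hg, C.can_facet] at h1

lemma core_gW {f g : P.Facet}
    (h : (C.can f).r2.stE = C.can g ∨ (C.can f).r2.stE = (C.can g).r2) :
    C.core g ↔ C.core f := by
  have hg : (C.can f).r2.stE.facet = g := by
    rcases h with h | h
    · rw [h, C.can_facet]
    · rw [h, FSt.facet_r2, C.can_facet]
  have h1 := C.core_step (s := (C.can f).r2) (Or.inr (by rw [FSt.facet_r2, C.can_can]))
    (by rw [hg]; exact h)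
  rwa [hg, FSt.facet_r2, C.can_facet] at h1

namespace Rims

variable {C} {D : ℕ} (R : C.Rims D)

/-! ## The windows in the frame of the state -/

open Classical in
/-- strands in the frame of the state -/
noncomputable def wpr (r : P.FSt) (h : IsV r ∧ C.core r.facet) : ℕ → ℕ → Bool :=
  if C.Neg r then mV k (R.win r h).pr else (R.win r h).pr

open Classical in
/-- lanes in the frame of the state -/
noncomputable def wla (r : P.FSt) (h : IsV r ∧ C.core r.facet) : ℕ → ℕ → Ln :=
  if C.Neg r then mLa k (R.win r h).la else (R.win r h).la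

lemma wpr_neg {r : P.FSt} (h : IsV r ∧ C.core r.facet) (hn : C.Neg r) :
    R.wpr r h = mV k (R.win r h).pr := by unfold wpr; rw [if_pos hn]

lemma wpr_pos {r : P.FSt} (h : IsV r ∧ C.core r.facet) (hn : ¬ C.Neg r) :
    R.wpr r h = (R.win r h).pr := by unfold wpr; rw [if_neg hn]

lemma wla_neg {r : P.FSt} (h : IsV r ∧ C.core r.facet) (hn : C.Neg r) :
    R.wla r h = mLa k (R.win r h).la := by unfold wla; rw [if_pos hn]

lemma wla_pos {r : P.FSt} (h : IsV r ∧ C.core r.facet) (hn : ¬ C.Neg r) :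
    R.wla r h = (R.win r h).la := by unfold wla; rw [if_neg hn]

lemma wok (r : P.FSt) (h : IsV r ∧ C.core r.facet) : CellOk k (R.wpr r h) (R.wla r h) := by
  by_cases hn : C.Neg r
  · rw [R.wpr_neg h hn, R.wla_neg h hn]
    exact CellOk.mir (Wn.ok _)
  · rw [R.wpr_pos h hn, R.wla_pos h hn]
    exact Wn.ok _

/-- equal states have equal windows -/
lemma win_congr {r s : P.FSt} (h : r = s) (hr : IsV r ∧ C.core r.facet)
    (hs : IsV s ∧ C.core s.facet) : R.win r hr = R.win s hs := by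
  subst h; rfl

lemma wpr_congr {r s : P.FSt} (h : r = s) (hr : IsV r ∧ C.core r.facet)
    (hs : IsV s ∧ C.core s.facet) : R.wpr r hr = R.wpr s hs := by
  subst h; rfl

lemma wla_congr {r s : P.FSt} (h : r = s) (hr : IsV r ∧ C.core r.facet)
    (hs : IsV s ∧ C.core s.facet) : R.wla r hr = R.wla s hs := by
  subst h; rfl

lemma wpr_rot (r : P.FSt) (h : IsV r ∧ C.core r.facet) {x y : ℕ} (hx : x ≤ k) (hy : y < k) :
    R.wpr r.r2 (vr2 h) x y = R.wpr r h (k - x) (k - 1 - y) := by
  by_cases hn : C.Neg r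
  · rw [R.wpr_neg h hn, R.wpr_neg (vr2 h) ((C.Neg_r2 r).2 hn)]
    unfold mV
    rw [R.win_rot_pr r h (by omega) hy]
  · rw [R.wpr_pos h hn, R.wpr_pos (vr2 h) (fun h' => hn ((C.Neg_r2 r).1 h'))]
    exact R.win_rot_pr r h hx hy

lemma wla_rot (r : P.FSt) (h : IsV r ∧ C.core r.facet) {x y : ℕ} (hx : x < k) (hy : y ≤ k) :
    R.wla r.r2 (vr2 h) x y = R.wla r h (k - 1 - x) (k - y) := by
  by_cases hn : C.Neg r
  · rw [R.wla_neg h hn, R.wla_neg (vr2 h) ((C.Neg_r2 r).2 hn)]
    unfold mLa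
    rw [R.win_rot_la r h (by omega) hy]
  · rw [R.wla_pos h hn, R.wla_pos (vr2 h) (fun h' => hn ((C.Neg_r2 r).1 h'))]
    exact R.win_rot_la r h hx hy

lemma wpr_E (r : P.FSt) (h : IsV r ∧ C.core r.facet) (y : ℕ) :
    R.wpr r.stE (vE h) 0 y = R.wpr r h k y := by
  by_cases hn : C.Neg r
  · have hn' : C.Neg r.stE := (C.Neg_E r).2 hn
    rw [R.wpr_neg h hn, R.wpr_neg (vE h) hn']
    unfold mV
    rw [Nat.sub_zero, Nat.sub_self, ← R.win_S_pr r.stE (vE h) y]
    have e : C.pS r.stE = r := by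
      rw [C.pS_neg hn', Equiv.symm_apply_eq]; rfl
    rw [R.win_congr e (vS' (vE h)) h]
  · rw [R.wpr_pos h hn, R.wpr_pos (vE h) (fun h' => hn ((C.Neg_E r).1 h')),
      ← R.win_S_pr r h y, R.win_congr (C.pS_pos hn) (vS' h) (vE h)]

lemma wla_bot (r : P.FSt) (h : IsV r ∧ C.core r.facet) {x : ℕ} (hx : x < k) :
    R.wla r h x 0 = C.wd r x := by
  by_cases hn : C.Neg r
  · rw [R.wla_neg h hn]
    unfold mLa
    rw [Wn.la_bot, R.win_bot r h (by omega)]
    unfold wdS
    rw [if_pos hn, swL_swL, show k - 1 - (k - 1 - x) = x by omega]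
  · rw [R.wla_pos h hn, Wn.la_bot, R.win_bot r h hx]
    unfold wdS
    rw [if_neg hn]

lemma wla_top (r : P.FSt) (h : IsV r ∧ C.core r.facet) {x : ℕ} (hx : x < k) :
    R.wla r h x k = C.wd r.r2 (k - 1 - x) := by
  have h1 := R.wla_bot r.r2 (vr2 h) (x := k - 1 - x) (by omega)
  rw [R.wla_rot r h (by omega) (Nat.zero_le k)] at h1
  rw [show k - 1 - (k - 1 - x) = x by omega, Nat.sub_zero] at h1
  exact h1

/-! ## The table -/

open Classical in
/-- strands of all facets -/
noncomputable def prF (f : P.Facet) : ℕ → ℕ → Bool :=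
  if h : C.core f then R.wpr (C.can f) (C.hcan h) else C.pr f

open Classical in
/-- lanes of all facets -/
noncomputable def laF (f : P.Facet) : ℕ → ℕ → Ln :=
  if h : C.core f then R.wla (C.can f) (C.hcan h) else C.la f

lemma prF_core {f : P.Facet} (h : C.core f) : R.prF f = R.wpr (C.can f) (C.hcan h) :=
  dif_pos h

lemma prF_not {f : P.Facet} (h : ¬ C.core f) : R.prF f = C.pr f := dif_neg h

lemma laF_core {f : P.Facet} (h : C.core f) : R.laF f = R.wla (C.can f) (C.hcan h) :=
  dif_pos h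

lemma laF_not {f : P.Facet} (h : ¬ C.core f) : R.laF f = C.la f := dif_neg h

lemma cellOkF (f : P.Facet) : CellOk k (R.prF f) (R.laF f) := by
  by_cases h : C.core f
  · rw [R.prF_core h, R.laF_core h]; exact R.wok _ _
  · rw [R.prF_not h, R.laF_not h]; exact C.ok f h

lemma laF_bot (f : P.Facet) {x : ℕ} (hx : x < k) : R.laF f x 0 = C.la f x 0 := by
  by_cases h : C.core f
  · rw [R.laF_core h, R.wla_bot _ _ hx]
    unfold wd wdF
    rw [if_pos (C.can_can f), C.can_facet]
  · rw [R.laF_not h]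

lemma laF_top (f : P.Facet) {x : ℕ} (hx : x < k) : R.laF f x k = C.la f x k := by
  by_cases h : C.core f
  · rw [R.laF_core h, R.wla_top _ _ hx]
    unfold wd wdF
    rw [if_neg (C.can_r2_ne (C.can_can f)), FSt.facet_r2, C.can_facet]
    congr 1
    omega
  · rw [R.laF_not h]

lemma gE_F (f g : P.Facet) (h : (C.can f).stE = C.can g) (y : ℕ) (hy : y < k) :
    R.prF f k y = R.prF g 0 y := by
  by_cases hf : C.core f
  · have hg : C.core g := (C.core_gE (Or.inl h)).2 hf
    rw [R.prF_core hf, R.prF_core hg, ← R.wpr_E (C.can f) (C.hcan hf) y]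
    rw [R.wpr_congr h (vE (C.hcan hf)) (C.hcan hg)]
  · have hg : ¬ C.core g := fun hg => hf ((C.core_gE (Or.inl h)).1 hg)
    rw [R.prF_not hf, R.prF_not hg]
    exact C.gE f g hf h y hy

lemma gEr_F (f g : P.Facet) (h : (C.can f).stE = (C.can g).r2) (y : ℕ) (hy : y < k) :
    R.prF f k y = R.prF g k (k - 1 - y) := by
  by_cases hf : C.core f
  · have hg : C.core g := (C.core_gE (Or.inr h)).2 hf
    rw [R.prF_core hf, R.prF_core hg, ← R.wpr_E (C.can f) (C.hcan hf) y]
    rw [R.wpr_congr h (vE (C.hcan hf)) (vr2 (C.hcan hg)),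
      R.wpr_rot (C.can g) (C.hcan hg) (Nat.zero_le _) hy, Nat.sub_zero]
  · have hg : ¬ C.core g := fun hg => hf ((C.core_gE (Or.inr h)).1 hg)
    rw [R.prF_not hf, R.prF_not hg]
    exact C.gEr f g hf h y hy

lemma gWr_F (f g : P.Facet) (h : (C.can f).r2.stE = C.can g) (y : ℕ) (hy : y < k) :
    R.prF f 0 y = R.prF g 0 (k - 1 - y) := by
  by_cases hf : C.core f
  · have hg : C.core g := (C.core_gW (Or.inl h)).2 hf
    rw [R.prF_core hf, R.prF_core hg]
    have h1 := R.wpr_E (C.can f).r2 (vr2 (C.hcan hf)) (k - 1 - y)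
    rw [R.wpr_congr h (vE (vr2 (C.hcan hf))) (C.hcan hg)] at h1
    rw [h1, R.wpr_rot (C.can f) (C.hcan hf) le_rfl (by omega), Nat.sub_self]
    congr 1
    omega
  · have hg : ¬ C.core g := fun hg => hf ((C.core_gW (Or.inl h)).1 hg)
    rw [R.prF_not hf, R.prF_not hg]
    exact C.gWr f g hf h y hy

lemma gE'_F (f : P.Facet) (h : ∀ g, (C.can f).stE ≠ C.can g ∧ (C.can f).stE ≠ (C.can g).r2)
    (y : ℕ) (hy : y < k) : R.prF f k y = false := by
  by_cases hf : C.core f
  · exfalso
    rcases C.can_or (vE (C.hcan hf)) with h1 | h1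
    · exact (h _).1 h1.symm
    · apply (h (C.can f).stE.r2.facet).2
      rw [h1, FSt.r2_r2]
  · rw [R.prF_not hf]
    exact C.gE' f hf h y hy

lemma gW'_F (f : P.Facet)
    (h : ∀ g, (C.can f).r2.stE ≠ C.can g ∧ (C.can f).r2.stE ≠ (C.can g).r2)
    (y : ℕ) (hy : y < k) : R.prF f 0 y = false := by
  by_cases hf : C.core f
  · exfalso
    rcases C.can_or (vE (vr2 (C.hcan hf))) with h1 | h1
    · exact (h _).1 h1.symm
    · apply (h (C.can f).r2.stE.r2.facet).2
      rw [h1, FSt.r2_r2]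
  · rw [R.prF_not hf]
    exact C.gW' f hf h y hy

/-! ## Coverage -/

lemma core_pt {r : P.FSt} (h : IsV r ∧ C.core r.facet) (hs : C.sg r.facet ≠ 0) {x : ℕ}
    (hx : x ≤ k) : ∃ y < k, R.wpr r h x y = true := by
  have h0 : ¬ C.Cut r := fun h' => hs h'.2.2
  have h1 := R.base_add h.1
  have h2 := R.tc_pos h0
  refine ⟨R.base r, by omega, ?_⟩
  by_cases hn : C.Neg r
  · rw [R.wpr_neg h hn]
    unfold mV
    exact R.core_row r h le_rfl (by omega) (by omega)
  · rw [R.wpr_pos h hn]
    exact R.core_row r h le_rfl (by omega) hx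

/-- the height of a cut ring -/
lemma H_cut {q : P.FSt × ℕ} (hok : Ok C q) (hc : C.Cut q.1) (n : ℕ) :
    (R.Hq ((C.nxS)^[n] q) : ℤ) = R.Hq q + C.wsumS q n ∧ C.Cut ((C.nxS)^[n] q).1 := by
  induction n with
  | zero => exact ⟨by unfold wsumS; simp, hc⟩
  | succ n ih =>
    have h1 := Hq_step (R := R) (hok.iter n)
    have h2 : C.Cut ((C.nxS)^[n + 1] q).1 := by
      rw [iterate_succ_apply']
      unfold nxS
      split_ifs
      · exact ih.2
      · exact (C.Cut_S _).2 ih.2
    refine ⟨?_, h2⟩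
    have h3 : shq R ((C.nxS)^[n] q) = 0 := by
      unfold shq
      rw [if_neg]
      intro h4
      exact R.shc_cut (hok.iter n).1 h4 ih.2
    rw [h3] at h1
    rw [wsumS_succ, iterate_succ_apply']
    push_cast at h1
    linarith [ih.1]

lemma opn_H {r : P.FSt} (hc : C.Cut r) {x : ℕ} (hx : x ≤ k)
    (ho : Opn k C.can C.la r x) : 1 ≤ R.H r x := by
  obtain ⟨n, hn⟩ := ho
  have hk4 := R.hk4
  have hV : IsV r ∧ C.core r.facet := ⟨hc.1, hc.2.1⟩
  have hn' : C.wsum (if x < k then (r, x) else (r.stE, 0)) n < 0 := hn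
  by_cases h1 : x < k
  · rw [if_pos h1] at hn'
    have h2 := (R.H_cut (q := (r, x)) ⟨hV, h1⟩ hc n).1
    rw [C.wsumS_pos (q := (r, x)) hc.not_neg] at h2
    have h3 : (R.Hq (r, x) : ℤ) = R.H r x := rfl
    have h4 : (0 : ℤ) ≤ (R.Hq ((C.nxS)^[n] (r, x)) : ℤ) := Int.natCast_nonneg _
    omega
  · rw [if_neg h1] at hn'
    have hc' : C.Cut r.stE := (C.Cut_E r).2 hc
    have h2 := (R.H_cut (q := (r.stE, 0)) ⟨vE hV, by show 0 < k; omega⟩ hc' n).1
    rw [C.wsumS_pos (q := (r.stE, 0)) hc'.not_neg] at h2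
    have h3 : (R.Hq (r.stE, 0) : ℤ) = R.H r.stE 0 := rfl
    have h4 : (0 : ℤ) ≤ (R.Hq ((C.nxS)^[n] (r.stE, 0)) : ℤ) := Int.natCast_nonneg _
    have h5 := R.H_E r hV.1 hV.2
    rw [C.pS_pos hc.not_neg] at h5
    have h6 : x = k := by omega
    rw [h6, ← h5]
    omega

lemma cov_F (f : P.Facet) (hL : ¬ C.L f) (x : ℕ) (hx : x < k) (w : Bool) :
    ∃ z : ℤ, (∀ y ∈ Set.uIcc 0 z, ∃ g, ¬ C.L g ∧ (pN ^ y) (C.can f) = C.can g) ∧
    ∃ g, (pN ^ z) (C.can f) = C.can g ∧
      ∃ y < k, R.prF g (if w then x else x + 1) y = true := by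
  have hX : (if w then x else x + 1) ≤ k := by split_ifs <;> omega
  set X := if w then x else x + 1 with hXd
  have hcore : ∀ g, C.core g → C.sg g ≠ 0 → ∃ y < k, R.prF g X y = true := by
    intro g hg hs
    obtain ⟨y, hy, h1⟩ := R.core_pt (C.hcan hg) (by rw [C.can_facet]; exact hs) hX
    refine ⟨y, hy, ?_⟩
    rw [R.prF_core hg]
    exact h1
  by_cases hf : C.core f ∧ C.sg f ≠ 0
  · refine ⟨0, ?_, f, by simp, hcore f hf.1 hf.2⟩
    intro y hy
    have : y = 0 := by simpa using hy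
    subst this
    exact ⟨f, hL, by simp⟩
  · have hf' : C.core f → C.sg f = 0 := fun h => by
      by_contra h1
      exact hf ⟨h, h1⟩
    obtain ⟨z, h1, g, h2, h3⟩ := C.cov f hL hf' x hx w
    refine ⟨z, h1, g, h2, ?_⟩
    by_cases hg : C.core g
    · by_cases hs : C.sg g ≠ 0
      · exact hcore g hg hs
      · have hs0 : C.sg g = 0 := not_not.1 hs
        have hV := C.hcan hg
        have hc : C.Cut (C.can g) := ⟨hV.1, hV.2, by rw [C.can_facet]; exact hs0⟩
        have hb := R.base_add hV.1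
        have hb1 := R.base_lt hV.1
        have hb2 := R.base_lt (vr2 hV).1
        rw [R.tc_cut hc] at hb
        rcases h3 with ⟨-, h3 | h3 | h3⟩ | ⟨h3, -⟩
        · exact absurd hs0 h3
        · have h4 := R.opn_H hc hX h3
          have h5 := R.H_le_base hV hX
          refine ⟨R.base (C.can g) - 1, by omega, ?_⟩
          rw [R.prF_core hg, R.wpr_pos hV hc.not_neg, Wn.pr_true, win_lo, win_hi]
          omega
        · have h4 := R.opn_H ((C.Cut_r2 _).2 hc) (x := k - X) (by omega) h3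
          have h5 := R.H_le_base (vr2 hV) (x := k - X) (by omega)
          refine ⟨R.base (C.can g), by omega, ?_⟩
          rw [R.prF_core hg, R.wpr_pos hV hc.not_neg, Wn.pr_true, win_lo, win_hi]
          omega
        · exact absurd hg h3
    · rw [R.prF_not hg]
      rcases h3 with ⟨h3, -⟩ | ⟨-, h3⟩
      · exact absurd h3 hg
      · exact h3

/-! ## Lean facets -/

/-- constant windows over core facets without letters that are not special -/
lemma win_const {r : P.FSt} (h : IsV r ∧ C.core r.facet) (hsp : ¬ R.sp r.facet)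
    (hl : ∀ x < k, C.la r.facet x 0 = Ln.z ∧ C.la r.facet x k = Ln.z) :
    (∀ x ≤ k, (R.win r h).lo x = (R.win r h).lo 0 ∧ (R.win r h).hi x = (R.win r h).hi 0) ∧
      (∀ x < k, (R.win r h).sh x = false) := by
  have hsh : ∀ (s : P.FSt), s.facet = r.facet → ∀ x, shc k R.sp s x = false := by
    intro s hs x
    rw [Bool.eq_false_iff]
    intro h1
    rw [shc_true, hs] at h1
    exact hsp h1.1
  have hwd0 : ∀ (s : P.FSt), s.facet = r.facet → ∀ x < k, C.wd s x = Ln.z := by
    intro s hs x hx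
    unfold wd wdF
    rw [hs]
    split_ifs
    · exact (hl x hx).1
    · exact (hl (k - 1 - x) (by omega)).2
  have hwd : ∀ (s : P.FSt), s.facet = r.facet → ∀ x < k, C.wdS s x = Ln.z := by
    intro s hs x hx
    unfold wdS
    split_ifs
    · rw [hwd0 s hs (k - 1 - x) (by omega)]; rfl
    · exact hwd0 s hs x hx
  have hH : ∀ (s : P.FSt), s.facet = r.facet → IsV s ∧ C.core s.facet → ∀ x ≤ k,
      R.H s x = R.H s 0 := by
    intro s hs hv x
    induction x with
    | zero => intro _; rfl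
    | succ x ih =>
      intro hx
      have h1 := R.H_not hv (x := x) (by omega) (hsh s hs x)
      rw [hwd s hs x (by omega)] at h1
      have h2 := ih (by omega)
      simp only [vl] at h1
      omega
  refine ⟨fun x hx => ⟨?_, ?_⟩, fun x hx => ?_⟩
  · rw [win_lo, win_lo, hH r rfl h x hx]
  · rw [win_hi, win_hi, hH r.r2 rfl (vr2 h) (k - x) (by omega),
      hH r.r2 rfl (vr2 h) (k - 0) (by omega)]
  · rw [win_sh]; exact hsh r rfl x

lemma win_const_la {r : P.FSt} (h : IsV r ∧ C.core r.facet) (hsp : ¬ R.sp r.facet)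
    (hl : ∀ x < k, C.la r.facet x 0 = Ln.z ∧ C.la r.facet x k = Ln.z) {x y : ℕ} (hx : x < k) :
    (R.win r h).la x y = Ln.z := by
  obtain ⟨h1, h2⟩ := R.win_const h hsp hl
  unfold Wn.la
  rw [if_neg (by rw [h2 x hx]; decide), (h1 x hx.le).1, (h1 x hx.le).2, (h1 (x + 1) hx).1,
    (h1 (x + 1) hx).2]
  unfold lnd
  split_ifs <;> first | rfl | (exfalso; omega)

lemma wpr_const {r : P.FSt} (h : IsV r ∧ C.core r.facet) (hsp : ¬ R.sp r.facet)
    (hl : ∀ x < k, C.la r.facet x 0 = Ln.z ∧ C.la r.facet x k = Ln.z) {x y : ℕ} (hx : x ≤ k) :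
    R.wpr r h x y = true ↔ (R.win r h).lo 0 ≤ y ∧ y ≤ (R.win r h).hi 0 := by
  obtain ⟨h1, h2⟩ := R.win_const h hsp hl
  by_cases hn : C.Neg r
  · rw [R.wpr_neg h hn]
    unfold mV
    rw [Wn.pr_true, (h1 (k - x) (by omega)).1, (h1 (k - x) (by omega)).2]
  · rw [R.wpr_pos h hn, Wn.pr_true, (h1 x hx).1, (h1 x hx).2]

lemma wla_const {r : P.FSt} (h : IsV r ∧ C.core r.facet) (hsp : ¬ R.sp r.facet)
    (hl : ∀ x < k, C.la r.facet x 0 = Ln.z ∧ C.la r.facet x k = Ln.z) {x y : ℕ} (hx : x < k) :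
    R.wla r h x y = Ln.z := by
  by_cases hn : C.Neg r
  · rw [R.wla_neg h hn]
    unfold mLa
    rw [R.win_const_la h hsp hl (by omega)]; rfl
  · rw [R.wla_pos h hn]
    exact R.win_const_la h hsp hl hx

/-- neighbours with constant windows -/
lemma const_E {r : P.FSt} (h : IsV r ∧ C.core r.facet) (hsp : ¬ R.sp r.facet)
    (hl : ∀ x < k, C.la r.facet x 0 = Ln.z ∧ C.la r.facet x k = Ln.z)
    (hsp' : ¬ R.sp r.stE.facet)
    (hl' : ∀ x < k, C.la r.stE.facet x 0 = Ln.z ∧ C.la r.stE.facet x k = Ln.z) :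
    (R.win r.stE (vE h)).hi 0 = (R.win r h).hi 0 ∧
      (R.win r.stE (vE h)).lo 0 = (R.win r h).lo 0 := by
  have f1 := (R.win_const h hsp hl).1
  have g1 := (R.win_const (vE h) hsp' hl').1
  by_cases hn : C.Neg r
  · have hn' : C.Neg r.stE := (C.Neg_E r).2 hn
    have e : C.pS r.stE = r := by
      rw [C.pS_neg hn', Equiv.symm_apply_eq]; rfl
    have h1 := R.win_S_hi r.stE (vE h)
    have h2 := R.win_S_lo r.stE (vE h)
    rw [R.win_congr e (vS' (vE h)) h] at h1 h2
    rw [(g1 k le_rfl).2] at h1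
    rw [(g1 k le_rfl).1] at h2
    exact ⟨h1.symm, h2.symm⟩
  · have h1 := R.win_S_hi r h
    have h2 := R.win_S_lo r h
    rw [R.win_congr (C.pS_pos hn) (vS' h) (vE h)] at h1 h2
    rw [(f1 k le_rfl).2] at h1
    rw [(f1 k le_rfl).1] at h2
    exact ⟨h1, h2⟩

lemma lo_le_hi {r : P.FSt} (h : IsV r ∧ C.core r.facet) (hs : C.sg r.facet ≠ 0) :
    (R.win r h).lo 0 ≤ (R.win r h).hi 0 := by
  have h0 : ¬ C.Cut r := fun h' => hs h'.2.2
  have h1 := R.tc_pos h0
  have h2 := (Wn.pr_true _).1 (R.core_row r h (y := R.base r) le_rfl (by omega) (Nat.zero_le k))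
  omega

/-- the support of a lean facet -/
lemma tlean {f : P.Facet}
    (D' : JLean P k C.core C.nsp C.L C.can C.pr C.la f)
    (hs0 : C.core D'.f0 → C.sg D'.f0 ≠ 0) :
    Nonempty (P.TLean k C.can C.L R.prF R.laF f) := by
  have hk : 0 < k := by have := R.hk4; omega
  have hs2 : ∀ i : ℕ, 1 ≤ i → i ≤ D'.n → ∃ h, ¬ C.L h ∧ (pN ^ (i : ℤ)) (C.can D'.g0) = C.can h ∧
      ∀ y < k, R.prF h (if D'.E then 0 else k) y = false := by
    intro i h1 h2
    obtain ⟨h, a1, a2, a3, a4⟩ := D'.s2 i h1 h2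
    exact ⟨h, a1, a3, by rw [R.prF_not a2]; exact a4⟩
  rcases D'.base with ⟨c1, c2, c3, c4, c5⟩ | ⟨c1, c2, y0, hy0, c3, c4, c5, c6⟩
  · -- core support
    have hf := C.hcan c1
    have hg := C.hcan c2
    have sf : ¬ R.sp (C.can D'.f0).facet := by
      rw [C.can_facet]; exact fun h => R.sp_nsp _ c1 h c3
    have sg : ¬ R.sp (C.can D'.g0).facet := by
      rw [C.can_facet]; exact fun h => R.sp_nsp _ c2 h c4
    have lf : ∀ x < k, C.la (C.can D'.f0).facet x 0 = Ln.z ∧
        C.la (C.can D'.f0).facet x k = Ln.z := by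
      intro x hx
      rw [C.can_facet]; exact ⟨(c5 x hx).1, (c5 x hx).2.1⟩
    have lg : ∀ x < k, C.la (C.can D'.g0).facet x 0 = Ln.z ∧
        C.la (C.can D'.g0).facet x k = Ln.z := by
      intro x hx
      rw [C.can_facet]; exact ⟨(c5 x hx).2.2.1, (c5 x hx).2.2.2⟩
    set y0 := (R.win (C.can D'.f0) hf).hi 0 with hy0
    have hlt := (R.win (C.can D'.f0) hf).lt 0 (Nat.zero_le _)
    have hle : (R.win (C.can D'.f0) hf).lo 0 ≤ y0 :=
      R.lo_le_hi hf (by rw [C.can_facet]; exact hs0 c1)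
    -- the windows of the two facets agree
    have hag : (R.win (C.can D'.g0) hg).hi 0 = y0 ∧
        (R.win (C.can D'.g0) hg).lo 0 = (R.win (C.can D'.f0) hf).lo 0 := by
      have hp := D'.par 0 (Nat.zero_le _)
      by_cases hE : D'.E = true
      · rw [if_pos hE] at hp
        have hp' : (C.can D'.f0).stE = C.can D'.g0 := by simpa using hp
        have e1 := R.win_congr hp' (vE hf) hg
        rw [← e1]
        exact R.const_E hf sf lf (by rw [hp']; exact sg) (by rw [hp']; exact lg)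
      · rw [if_neg hE] at hp
        have hp' : (C.can D'.g0).stE = C.can D'.f0 := by simpa using hp
        have e1 := R.win_congr hp' (vE hg) hf
        have e2 := R.const_E hg sg lg (by rw [hp']; exact sf) (by rw [hp']; exact lf)
        rw [e1] at e2
        exact ⟨e2.1.symm, e2.2.symm⟩
    refine ⟨{ f0 := D'.f0, g0 := D'.g0, n := D'.n, y0 := y0, E := D'.E, hn := D'.hn, hy := hlt,
              row := ?_, rla := ?_, top := D'.top, par := D'.par, s0 := ?_, s1 := ?_, s2 := hs2 }⟩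
    · intro x hx
      rw [R.prF_core c1, R.wpr_const hf sf lf hx]
      exact ⟨hle, le_rfl⟩
    · intro x hx
      rw [R.laF_core c1]
      exact ⟨R.wla_const hf sf lf hx, R.wla_const hf sf lf hx⟩
    · have hsx : (if D'.E then 0 else k - 1) < k := by split_ifs <;> omega
      rw [R.prF_core c2, R.laF_core c2, R.wpr_const hg sg lg hsx.le, R.wpr_const hg sg lg hsx,
        hag.1, hag.2]
      exact ⟨⟨hle, le_rfl⟩, ⟨hle, le_rfl⟩, R.wla_const hg sg lg hsx,
        R.wla_const hg sg lg hsx⟩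
    · intro y h1 h2
      have hsx : (if D'.E then 0 else k) ≤ k := by split_ifs <;> omega
      rw [R.prF_core c2, Bool.eq_false_iff]
      intro h3
      rw [R.wpr_const hg sg lg hsx, hag.1] at h3
      omega
  · refine ⟨{ f0 := D'.f0, g0 := D'.g0, n := D'.n, y0 := y0, E := D'.E, hn := D'.hn, hy := hy0,
              row := ?_, rla := ?_, top := D'.top, par := D'.par, s0 := ?_, s1 := ?_, s2 := hs2 }⟩
    · rw [R.prF_not c1]; exact c3
    · rw [R.laF_not c1]; exact c4
    · rw [R.prF_not c2, R.laF_not c2]; exact c5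
    · rw [R.prF_not c2]; exact c6

/-- there is a letter -/
lemma exists_letter {B : ℕ} (hW : C.Words B) (f : P.Facet) (hf : C.L f) :
    ∃ g x y, x < k ∧ y ≤ k ∧ R.laF g x y ≠ Ln.z := by
  obtain ⟨g, hg, hs⟩ := C.lcut f hf
  have hv := C.hcan hg
  have h1 := hW.tot (C.can g) hv.1 hv.2
  have hk : 0 < k := by have := R.hk4; omega
  have hex : ∃ j, C.wd ((nx k)^[j] (C.can g, 0)).1 ((nx k)^[j] (C.can g, 0)).2 ≠ Ln.z := by
    by_contra hcon
    push Not at hcon
    have h2 : C.wsum (C.can g, 0) (minimalPeriod pE (C.can g) * k) = 0 := by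
      unfold wsum
      apply Finset.sum_eq_zero
      intro j _
      rw [hcon j]
      rfl
    rw [h2, C.can_facet] at h1
    exact hs (by linarith)
  obtain ⟨j, h2⟩ := hex
  have hx := nx_iter_lt (k := k) (q := (C.can g, 0)) hk j
  set s := ((nx k)^[j] (C.can g, 0)).1 with hs'
  set x := ((nx k)^[j] (C.can g, 0)).2 with hx'
  unfold wd wdF at h2
  by_cases hc : C.can s.facet = s
  · rw [if_pos hc] at h2
    exact ⟨s.facet, x, 0, hx, Nat.zero_le _, by rw [R.laF_bot _ hx]; exact h2⟩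
  · rw [if_neg hc] at h2
    exact ⟨s.facet, k - 1 - x, k, by omega, le_rfl, by rw [R.laF_top _ (by omega)]; exact h2⟩

/-- the relations given by the table -/
structure InvF (ψ χ : P.Facet → ℕ → ℕ → Prop) : Prop where
  cell : ∀ f, CellRel k (R.prF f) (R.laF f) (ψ f) (χ f)
  gN : ∀ f g, (C.can f).stN = C.can g → ∀ x < k, R.laF f x k ≠ Ln.z → (χ f x k ↔ χ g x 0)
  gE : ∀ f g, (C.can f).stE = C.can g → ∀ y < k, R.prF f k y = true → (ψ f k y ↔ ψ g 0 y)
  gEr : ∀ f g, (C.can f).stE = (C.can g).r2 → ∀ y < k, R.prF f k y = true →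
    (ψ f k y ↔ ψ g k (k - 1 - y))
  gWr : ∀ f g, (C.can f).r2.stE = C.can g → ∀ y < k, R.prF f 0 y = true →
    (ψ f 0 y ↔ ψ g 0 (k - 1 - y))

/-- the table of a junction certificate -/
noncomputable def tab {B : ℕ} (hW : C.Words B) (hne : Nonempty P.Facet)
    (hc : ∀ ψ χ, R.InvF ψ χ → ∃ c : Prop,
      (∀ f x y, x ≤ k → y < k → R.prF f x y = true → (ψ f x y ↔ c)) ∧
      (∀ f x y, x < k → y ≤ k → R.laF f x y ≠ Ln.z → (χ f x y ↔ c))) : P.LTab k where
  hk := by have := R.hk4; omega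
  can := C.can
  can_facet := C.can_facet
  pr := R.prF
  la := R.laF
  ok := R.cellOkF
  gN := fun f g h x hx => by
    rw [R.laF_top f hx, R.laF_bot g hx]; exact C.gN f g h x hx
  gN' := fun f h x hx => by
    rw [R.laF_top f hx]; exact C.gN' f h x hx
  gS' := fun g h x hx => by
    rw [R.laF_bot g hx]; exact C.gS' g h x hx
  gE := R.gE_F
  gEr := R.gEr_F
  gWr := R.gWr_F
  gE' := R.gE'_F
  gW' := R.gW'_F
  L := C.L
  Lpr := fun f hf x y hx hy => by rw [R.prF_not (C.L_core f hf)]; exact C.Lpr f hf x y hx hy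
  Lla := fun f hf x y hx hy => by rw [R.laF_not (C.L_core f hf)]; exact C.Lla f hf x y hx hy
  cov := R.cov_F
  lean := fun f hf => by
    obtain ⟨J, hJ⟩ := C.lean f hf
    exact R.tlean J hJ
  cut := fun f hf => R.exists_letter hW f hf
  conn := fun ψ χ h1 h2 h3 h4 h5 => hc ψ χ ⟨h1, h2, h3, h4, h5⟩
  ne := hne

variable {R}

/-- the relation in the frame of a state -/
lemma InvF.relF {ψ χ : P.Facet → ℕ → ℕ → Prop} (I : R.InvF ψ χ) (r : P.FSt)
    (h : IsV r ∧ C.core r.facet) :
    CellRel k (R.wpr r h) (R.wla r h) (C.vF ψ r) (C.hF χ r) := by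
  have hk : 0 < k := by have := R.hk4; omega
  have h1 := I.cell r.facet
  rw [R.prF_core h.2, R.laF_core h.2] at h1
  rcases C.can_or h with h2 | h2
  · rw [R.wpr_congr h2 (C.hcan h.2) h, R.wla_congr h2 (C.hcan h.2) h] at h1
    unfold vF hF
    rw [if_pos h2, if_pos h2]
    exact h1
  · have h3 : C.can r.facet ≠ r := by
      have := C.can_r2_ne h2
      rwa [FSt.r2_r2] at this
    have h4 : C.can r.facet = r.r2 := h2
    rw [R.wpr_congr h4 (C.hcan h.2) (vr2 h), R.wla_congr h4 (C.hcan h.2) (vr2 h)] at h1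
    unfold vF hF
    rw [if_neg h3, if_neg h3]
    apply CellRel.unrot (R.wok r h)
    intro x y hx hy p
    have e1 : ∀ x y, x ≤ k → y < k → rV k (R.wpr r h) x y = R.wpr r.r2 (vr2 h) x y := by
      intro x y hx hy
      rw [R.wpr_rot r h hx hy]
      rfl
    have e2 : ∀ x y, x < k → y ≤ k → rH k (R.wla r h) x y = R.wla r.r2 (vr2 h) x y := by
      intro x y hx hy
      rw [R.wla_rot r h hx hy]
      rfl
    rw [e1 x y hx.le hy, e1 (x + 1) y hx hy, e2 x (y + 1) hx hy, e2 x y hx hy.le]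
    exact h1 x y hx hy p

lemma InvF.glF {ψ χ : P.Facet → ℕ → ℕ → Prop} (I : R.InvF ψ χ) (r : P.FSt)
    (h : IsV r ∧ C.core r.facet) (y : ℕ) (hy : y < k) (hp : R.wpr r h k y = true) :
    C.vF ψ r k y ↔ C.vF ψ r.stE 0 y := by
  have hE := vE h
  rcases C.can_or h with h2 | h2 <;> rcases C.can_or hE with h3 | h3
  · -- both canonical
    have e1 : (C.can r.facet).stE = C.can r.stE.facet := by rw [h2, h3]
    have e2 : R.prF r.facet k y = true := by
      rw [R.prF_core h.2, R.wpr_congr h2 (C.hcan h.2) h]; exact hp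
    have := I.gE _ _ e1 y hy e2
    unfold vF
    rw [if_pos h2, if_pos h3]
    exact this
  · have h3' : C.can r.stE.facet = r.stE.r2 := h3
    have h5 : C.can r.stE.facet ≠ r.stE := by
      have := C.can_r2_ne h3
      rwa [FSt.r2_r2] at this
    have e1 : (C.can r.facet).stE = (C.can r.stE.facet).r2 := by rw [h2, h3', FSt.r2_r2]
    have e2 : R.prF r.facet k y = true := by
      rw [R.prF_core h.2, R.wpr_congr h2 (C.hcan h.2) h]; exact hp
    have := I.gEr _ _ e1 y hy e2
    unfold vF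
    rw [if_pos h2, if_neg h5]
    exact this
  · have h2' : C.can r.facet = r.r2 := h2
    have h5 : C.can r.facet ≠ r := by
      have := C.can_r2_ne h2
      rwa [FSt.r2_r2] at this
    have e1 : (C.can r.facet).r2.stE = C.can r.stE.facet := by rw [h3, h2', FSt.r2_r2]
    have e2 : R.prF r.facet 0 (k - 1 - y) = true := by
      rw [R.prF_core h.2, R.wpr_congr h2' (C.hcan h.2) (vr2 h),
        R.wpr_rot r h (Nat.zero_le _) (by omega), Nat.sub_zero,
        show k - 1 - (k - 1 - y) = y by omega]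
      exact hp
    have := I.gWr _ _ e1 (k - 1 - y) (by omega) e2
    rw [show k - 1 - (k - 1 - y) = y by omega] at this
    unfold vF
    rw [if_neg h5, if_pos h3, rV_apply (ψ r.facet) (x' := 0) (y' := k - 1 - y) (by omega) rfl]
    exact this
  · have h2' : C.can r.facet = r.r2 := h2
    have h3' : C.can r.stE.facet = r.stE.r2 := h3
    have h5 : C.can r.facet ≠ r := by
      have := C.can_r2_ne h2
      rwa [FSt.r2_r2] at this
    have h6 : C.can r.stE.facet ≠ r.stE := by
      have := C.can_r2_ne h3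
      rwa [FSt.r2_r2] at this
    have e1 : (C.can r.stE.facet).stE = C.can r.facet := by rw [h3', h2', FSt.stE_inv]
    have e2 : R.prF r.stE.facet k (k - 1 - y) = true := by
      rw [R.prF_core hE.2, R.wpr_congr h3' (C.hcan hE.2) (vr2 hE),
        R.wpr_rot r.stE hE le_rfl (by omega), Nat.sub_self,
        show k - 1 - (k - 1 - y) = y by omega, R.wpr_E r h]
      exact hp
    have := I.gE _ _ e1 (k - 1 - y) (by omega) e2
    unfold vF
    rw [if_neg h5, if_neg h6, rV_apply (ψ r.facet) (x' := 0) (y' := k - 1 - y) (by omega) rfl,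
      rV_apply (ψ r.stE.facet) (x' := k) (y' := k - 1 - y) (by omega) rfl]
    exact this.symm

lemma InvF.rinv {ψ χ : P.Facet → ℕ → ℕ → Prop} (I : R.InvF ψ χ) : RInv R ψ χ := by
  refine ⟨fun r h => ?_, fun r h y hy hp => ?_⟩
  · have h1 := I.relF r h
    unfold vS hS
    by_cases hn : C.Neg r
    · rw [R.wpr_neg h hn, R.wla_neg h hn] at h1
      rw [if_pos hn, if_pos hn]
      exact CellRel.unmir (Wn.ok _) h1
    · rw [R.wpr_pos h hn, R.wla_pos h hn] at h1
      rw [if_neg hn, if_neg hn]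
      exact h1
  · unfold vS
    by_cases hn : C.Neg r
    · have hn' : C.Neg (C.pS r) := (C.Neg_S r).2 hn
      rw [if_pos hn, if_pos hn']
      have e := C.pS_neg_stE hn
      have h1 := I.glF (C.pS r) (vS' h) y hy (by
        rw [R.wpr_neg (vS' h) hn']
        unfold mV
        rw [Nat.sub_self, R.win_S_pr r h]
        exact hp)
      rw [e] at h1
      unfold mV
      rw [Nat.sub_self, Nat.sub_zero]
      exact h1.symm
    · have hn' : ¬ C.Neg (C.pS r) := fun h' => hn ((C.Neg_S r).1 h')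
      rw [if_neg hn, if_neg hn', C.pS_pos hn]
      exact I.glF r h y hy (by rw [R.wpr_pos h hn]; exact hp)

/-- the relations outside of the core -/
lemma InvF.inv {ψ χ : P.Facet → ℕ → ℕ → Prop} (I : R.InvF ψ χ)
    (hm : ∀ r x q', IsV r → C.core r.facet → x < k → C.Matched (r, x) q' →
      (C.fv χ r x ↔ C.fv χ q'.1 q'.2)) : C.Inv ψ χ where
  cell := fun f hf => by
    have := I.cell f
    rwa [R.prF_not hf, R.laF_not hf] at this
  gN := fun f g h x hx hl => I.gN f g h x hx (by rw [R.laF_top f hx]; exact hl)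
  gE := fun f g hf h y hy hp => I.gE f g h y hy (by rw [R.prF_not hf]; exact hp)
  gEr := fun f g hf h y hy hp => I.gEr f g h y hy (by rw [R.prF_not hf]; exact hp)
  gWr := fun f g hf h y hy hp => I.gWr f g h y hy (by rw [R.prF_not hf]; exact hp)
  matched := hm

end Rims

end JCertE

end Pool.Agent.MP42E
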