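import Pool.Agent.MP42.E.Conv

/-!
# Signed reduction theorem: special facets and heights (owner helper73)
-/

set_option autoImplicit false
set_option linter.unusedSectionVars false

namespace Pool.Agent.MP42E

open Pool.Agent.Helper55.UNF Pool.Agent.Helper55.UNF.GridSolid Pool.Agent.MP42G
open Pool.Agent.MP42 (minimalPeriod_pos' exists_pos)
open Pool.Agent.MP42G.JCert (shc shc_true)
open Function

variable {P : GridSolid}

namespace JCertE

variable {k : ℕ} (C : JCertE P k)

/-- heights on the rims and special facets, in the S-reading -/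
structure Hts (D : ℕ) where
  /-- the special facets: one in every ring with `sg ≠ 0` -/
  sp : P.Facet → Prop
  sp_ex : ∀ r : P.FSt, IsV r → C.core r.facet → C.sg r.facet ≠ 0 →
    ∃! a, pE.SameCycle r a ∧ sp a.facet
  sp_sg : ∀ f, C.core f → sp f → C.sg f ≠ 0
  sp_nsp : ∀ f, C.core f → sp f → ¬ C.nsp f
  /-- the height on the line `x` of the rim state `r` -/
  H : P.FSt → ℕ → ℕ
  H_le : ∀ r x, IsV r → C.core r.facet → x ≤ k → H r x ≤ D
  H_x : ∀ r x, IsV r → C.core r.facet → x < k →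
    (H r (x + 1) : ℤ) + (if shc k sp r x then 1 else 0) = H r x + vl (C.wdS r x)
  H_E : ∀ r, IsV r → C.core r.facet → H (C.pS r) 0 = H r k
  /-- in a cut ring the height is `0` somewhere -/
  H_0 : ∀ r, IsV r → C.core r.facet → C.sg r.facet = 0 →
    ∃ a x, pE.SameCycle r a ∧ x ≤ k ∧ H a x = 0

/-! ## the word of a rim -/

lemma nxS_col (r : P.FSt) {x n : ℕ} (h : x + n < k) : (C.nxS)^[n] (r, x) = (r, x + n) := by
  induction n with
  | zero => rfl
  | succ n ih =>
    rw [iterate_succ_apply', ih (by omega)]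
    unfold nxS
    rw [if_pos (by show x + n + 1 < k; omega)]
    rfl

lemma nxS_facet (r : P.FSt) {x : ℕ} (h : x < k) : (C.nxS)^[k - x] (r, x) = (C.pS r, 0) := by
  obtain ⟨n, hn⟩ : ∃ n, k - x = n + 1 := ⟨k - x - 1, by omega⟩
  rw [hn, iterate_succ_apply', C.nxS_col r (by omega)]
  unfold nxS
  rw [if_neg (by show ¬ (x + n + 1 < k); omega)]

lemma nxS_mul (r : P.FSt) (hk : 0 < k) (i : ℕ) :
    (C.nxS)^[i * k] (r, 0) = ((C.pS)^[i] r, 0) := by
  induction i with
  | zero => simp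
  | succ i ih =>
    rw [Nat.succ_mul, add_comm, iterate_add_apply, ih, iterate_succ_apply']
    have := C.nxS_facet ((C.pS)^[i] r) hk
    rwa [Nat.sub_zero] at this

lemma nxS_gen (r : P.FSt) (i : ℕ) {x : ℕ} (hx : x < k) :
    (C.nxS)^[i * k + x] (r, 0) = ((C.pS)^[i] r, x) := by
  rw [add_comm, iterate_add_apply, C.nxS_mul r (by omega), C.nxS_col _ (by omega), zero_add]

lemma wsumS_gen (r : P.FSt) (i : ℕ) {x : ℕ} (hx : x ≤ k) :
    C.wsumS (r, 0) (i * k + x) =
      ∑ j ∈ Finset.range i, ∑ y ∈ Finset.range k, vl (C.wdS ((C.pS)^[j] r) y) +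
        ∑ y ∈ Finset.range x, vl (C.wdS ((C.pS)^[i] r) y) := by
  have key : ∀ i x, x ≤ k → C.wsumS (r, 0) (i * k + x) = C.wsumS (r, 0) (i * k) +
      ∑ y ∈ Finset.range x, vl (C.wdS ((C.pS)^[i] r) y) := by
    intro i x hx
    unfold wsumS
    rw [Finset.sum_range_add]
    congr 1
    apply Finset.sum_congr rfl
    intro y hy
    rw [Finset.mem_range] at hy
    rw [C.nxS_gen r i (by omega)]
  rw [key i x hx]
  congr 1
  clear hx x
  induction i with
  | zero => simp [wsumS]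
  | succ i ih =>
    rw [Nat.succ_mul, key i k le_rfl, ih, Finset.sum_range_succ]

theorem exists_hts {P : GridSolid} {k B : ℕ} (C : JCertE P k) (hW : C.Words B)
    (hk4 : 4 ≤ k) : Nonempty (C.Hts (2 * B + 4)) := by
  classical
  obtain ⟨sp0, hspn, hsp0⟩ := MP42G.JCert.exists_sp P
    (fun f => ¬ (C.core f ∧ C.sg f ≠ 0 ∧ C.nsp f)) (fun r hr => by
    by_cases hc : C.core r.facet ∧ C.sg r.facet ≠ 0
    · obtain ⟨a, ha1, ha2⟩ := C.nsp_ex r hr hc.1 hc.2
      exact ⟨a, ha1, fun h => ha2 h.2.2⟩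
    · exact ⟨r, Equiv.Perm.SameCycle.refl _ _, fun h => hc ⟨h.1, h.2.1⟩⟩)
  -- states of a rim
  have hring : ∀ r a : P.FSt, IsV r → C.core r.facet → pE.SameCycle r a →
      IsV a ∧ C.core a.facet ∧ C.sg a.facet = C.sg r.facet := by
    intro r a hV hC hs
    obtain ⟨n, rfl⟩ := hs.exists_nat_pow_eq
    clear hs
    induction n with
    | zero => exact ⟨hV, hC, rfl⟩
    | succ n ih =>
      rw [pow_succ']
      exact ⟨(IsV_stE _).2 ih.1, (C.core_E _ ih.1).2 ih.2.1, (C.sg_E _ ih.1 ih.2.1).trans ih.2.2⟩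
  let sp : P.Facet → Prop := fun f => sp0 f ∧ (C.core f → C.sg f ≠ 0)
  have hsp : ∀ r : P.FSt, IsV r → C.core r.facet → C.sg r.facet ≠ 0 →
      ∃! a, pE.SameCycle r a ∧ sp a.facet := by
    intro r hV hC hs
    obtain ⟨a, ⟨ha1, ha2⟩, ha3⟩ := hsp0 r hV
    refine ⟨a, ⟨ha1, ha2, fun _ => ?_⟩, ?_⟩
    · rw [(hring r a hV hC ha1).2.2]; exact hs
    · rintro b ⟨hb1, hb2, -⟩
      exact ha3 b ⟨hb1, hb2⟩
  have hnsp : ∀ r : P.FSt, C.core r.facet → C.sg r.facet = 0 → ¬ sp r.facet :=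
    fun r hC hs h => h.2 hC hs
  obtain ⟨b, i, hi1, hi2, hi3⟩ := MP42G.exists_start (C.pS : Equiv.Perm P.FSt)
  -- the columns
  let g : P.FSt → ℕ → ℤ := fun r x => vl (C.wdS r x) - (if shc k sp r x then 1 else 0)
  let f : P.FSt → ℤ := fun r => ∑ x ∈ Finset.range k, g r x
  let G : P.FSt → ℤ := fun r => ∑ j ∈ Finset.range (i r), f ((C.pS)^[j] (b r))
  have hbs : ∀ r, pE.SameCycle (b r) r := by
    intro r
    rw [← C.sameCycle_S]
    exact ⟨i r, by rw [zpow_natCast, Equiv.Perm.coe_pow]; exact hi2 r⟩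
  have hb : ∀ r, IsV r ∧ C.core r.facet →
      IsV (b r) ∧ C.core (b r).facet ∧ C.sg (b r).facet = C.sg r.facet := by
    intro r hr
    exact hring r (b r) hr.1 hr.2 (hbs r).symm
  have hsgor : ∀ r : P.FSt, C.core r.facet → C.sg r.facet ≠ 0 → |C.sg r.facet| = 1 := by
    intro r hC hs
    rcases C.sg_or _ hC with h | h | h
    · rw [h]; rfl
    · rw [h]; rfl
    · exact absurd h hs
  -- shift columns on a cycle
  have hshift : ∀ r, IsV r → C.core r.facet → C.sg r.facet ≠ 0 →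
      ∑ j ∈ Finset.range (minimalPeriod C.pS r),
        ∑ x ∈ Finset.range k, (if shc k sp ((C.pS)^[j] r) x then (1 : ℤ) else 0) = 2 := by
    intro r hr hC hs
    obtain ⟨a, ⟨ha1, ha2⟩, ha3⟩ := hsp r hr hC hs
    obtain ⟨n, h0, h1, h2⟩ := exists_pos C.pS (C.sameCycle_S.2 ha1)
    have hrep : ∃ m, m < minimalPeriod C.pS r ∧ (C.pS)^[m] r = a := by
      rw [Equiv.Perm.coe_pow] at h2
      rcases Nat.lt_or_ge n (minimalPeriod C.pS r) with h3 | h3
      · exact ⟨n, h3, h2⟩
      · refine ⟨0, minimalPeriod_pos' C.pS r, ?_⟩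
        have h4 : n = minimalPeriod C.pS r := le_antisymm h1 h3
        rw [h4, iterate_minimalPeriod] at h2
        exact h2
    obtain ⟨m, hm1, hm2⟩ := hrep
    rw [Finset.sum_eq_single_of_mem m (Finset.mem_range.2 hm1)]
    · rw [hm2]
      exact (MP42G.JCert.shc_sum_facet hk4 sp a).1 ha2
    · intro j hj hjm
      apply Finset.sum_eq_zero
      intro x _
      apply (MP42G.JCert.shc_sum_facet hk4 sp _).2
      intro h5
      apply hjm
      have h6 : (C.pS)^[j] r = a := by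
        apply ha3
        refine ⟨C.sameCycle_S.1 ⟨j, ?_⟩, h5⟩
        rw [zpow_natCast, Equiv.Perm.coe_pow]
      exact iterate_injOn_Iio_minimalPeriod (Set.mem_Iio.2 (Finset.mem_range.1 hj))
        (Set.mem_Iio.2 hm1) (h6.trans hm2.symm)
  have hshift0 : ∀ r, IsV r → C.core r.facet → C.sg r.facet = 0 →
      ∀ j x, (if shc k sp ((C.pS)^[j] r) x then (1 : ℤ) else 0) = 0 := by
    intro r hr hC hs j x
    apply (MP42G.JCert.shc_sum_facet hk4 sp _).2
    have h1 : pE.SameCycle r ((C.pS)^[j] r) :=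
      C.sameCycle_S.1 ⟨j, by rw [zpow_natCast, Equiv.Perm.coe_pow]⟩
    obtain ⟨h2, h3, h4⟩ := hring r _ hr hC h1
    exact hnsp _ h3 (h4.trans hs)
  have hq2 : ∀ r, IsV r → C.core r.facet → ∑ j ∈ Finset.range (minimalPeriod C.pS r),
      ∑ x ∈ Finset.range k, (if shc k sp ((C.pS)^[j] r) x then (1 : ℤ) else 0) =
        2 * |C.sg r.facet| := by
    intro r hr hC
    by_cases hs : C.sg r.facet = 0
    · rw [hs]
      simp only [abs_zero, mul_zero]
      apply Finset.sum_eq_zero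
      intro j _
      apply Finset.sum_eq_zero
      intro x _
      exact hshift0 r hr hC hs j x
    · rw [hshift r hr hC hs, hsgor r hC hs]
      rfl
  have hzero : ∀ r, IsV r ∧ C.core r.facet →
      ∑ j ∈ Finset.range (minimalPeriod C.pS r), f ((C.pS)^[j] r) = 0 := by
    intro r hr
    have h1 := hW.totS (show 0 < k by omega) hr.1 hr.2
    have h2 := C.wsumS_gen r (minimalPeriod C.pS r) (x := 0) (Nat.zero_le k)
    rw [Finset.sum_range_zero, add_zero, add_zero, h1] at h2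
    have h3 := hq2 r hr.1 hr.2
    show ∑ j ∈ Finset.range (minimalPeriod C.pS r), ∑ x ∈ Finset.range k,
      (vl (C.wdS ((C.pS)^[j] r) x) - (if shc k sp ((C.pS)^[j] r) x then 1 else 0)) = 0
    simp only [Finset.sum_sub_distrib]
    rw [← h2, h3]
    ring
  -- the value before the base is added
  let V : P.FSt → ℕ → ℤ := fun r x => G r + ∑ y ∈ Finset.range x, g r y
  have hVx : ∀ r x, V r (x + 1) = V r x + g r x := by
    intro r x
    show G r + ∑ y ∈ Finset.range (x + 1), g r y = G r + ∑ y ∈ Finset.range x, g r y + g r x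
    rw [Finset.sum_range_succ, add_assoc]
  have hVE : ∀ r, IsV r ∧ C.core r.facet → V (C.pS r) 0 = V r k := by
    intro r hr
    have hbr := hb r hr
    have h1 := MP42G.pot_step hi2 hi3 f r (hzero _ ⟨hbr.1, hbr.2.1⟩)
    show G (C.pS r) + ∑ y ∈ Finset.range 0, g (C.pS r) y = G r + f r
    rw [Finset.sum_range_zero, add_zero]
    exact h1
  have hVle : ∀ r x, IsV r ∧ C.core r.facet → x ≤ k → -((B : ℤ) + 2) ≤ V r x ∧ V r x ≤ B := by
    intro r x hr hx
    have hbr := hb r hr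
    have h1 := hi1 r
    have hle : i r * k + x ≤ minimalPeriod C.pS (b r) * k := by
      have : (i r + 1) * k ≤ minimalPeriod C.pS (b r) * k := Nat.mul_le_mul_right k h1
      rw [Nat.succ_mul] at this
      omega
    have h2 := hW.bdS (x := 0) (n := i r * k + x) hbr.1 hbr.2.1 (by omega) hle
    have h3 := C.wsumS_gen (b r) (i r) hx
    rw [hi2 r] at h3
    -- the shift columns before
    let q : ℕ → ℤ := fun j => ∑ x ∈ Finset.range k,
      (if shc k sp ((C.pS)^[j] (b r)) x then (1 : ℤ) else 0)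
    have hnn : ∀ (s : P.FSt) y, (0 : ℤ) ≤ if shc k sp s y then (1 : ℤ) else 0 := by
      intro s y; split_ifs <;> norm_num
    have hq : ∀ j, 0 ≤ q j := fun j => Finset.sum_nonneg fun y _ => hnn _ y
    have h4 := MP42G.JCert.sum_nonneg_le (n := i r + 1) (m := minimalPeriod C.pS (b r)) h1 q hq
    have h5 := hq2 (b r) hbr.1 hbr.2.1
    have h6 := MP42G.JCert.sum_nonneg_le hx
      (fun y => if shc k sp r y then (1 : ℤ) else 0) (hnn r)
    have h7 := MP42G.JCert.sum_nonneg_le (n := i r) (m := i r) le_rfl q hq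
    have h8 : ∑ j ∈ Finset.range (i r + 1), q j = ∑ j ∈ Finset.range (i r), q j +
        ∑ y ∈ Finset.range k, (if shc k sp r y then (1 : ℤ) else 0) := by
      rw [Finset.sum_range_succ]
      congr 1
      show ∑ x ∈ Finset.range k, (if shc k sp ((C.pS)^[i r] (b r)) x then (1 : ℤ) else 0) = _
      rw [hi2]
    have h9 : V r x = C.wsumS (b r, 0) (i r * k + x) - ∑ j ∈ Finset.range (i r), q j -
        ∑ y ∈ Finset.range x, (if shc k sp r y then (1 : ℤ) else 0) := by
      rw [h3]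
      show ∑ j ∈ Finset.range (i r), ∑ y ∈ Finset.range k,
        (vl (C.wdS ((C.pS)^[j] (b r)) y) - (if shc k sp ((C.pS)^[j] (b r)) y then 1 else 0)) +
        ∑ y ∈ Finset.range x, (vl (C.wdS r y) - (if shc k sp r y then 1 else 0)) = _
      simp only [Finset.sum_sub_distrib]
      show _ = _ - ∑ j ∈ Finset.range (i r), ∑ x ∈ Finset.range k,
        (if shc k sp ((C.pS)^[j] (b r)) x then (1 : ℤ) else 0) - _
      ring
    have h10 := abs_le.1 h2
    have h5' : ∑ j ∈ Finset.range (minimalPeriod C.pS (b r)), q j ≤ 2 := by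
      have h5'' : ∑ j ∈ Finset.range (minimalPeriod C.pS (b r)), q j =
        2 * |C.sg (b r).facet| := h5
      rw [h5'']
      rcases C.sg_or _ hbr.2.1 with h | h | h <;> rw [h] <;> norm_num
    constructor
    · rw [h9]; linarith [h10.1, h4.2, h6.2]
    · rw [h9]; linarith [h10.2, h7.1, h6.1]
  -- the minimum on a cycle
  have hmin : ∀ c : P.FSt, ∃ m : ℤ, (∀ r x, b r = c → IsV r → C.core r.facet → x ≤ k →
      m ≤ V r x) ∧ ((∃ r, b r = c ∧ IsV r ∧ C.core r.facet) →
      ∃ r x, b r = c ∧ IsV r ∧ C.core r.facet ∧ x ≤ k ∧ V r x = m) := by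
    intro c
    by_cases hne : ∃ r, b r = c ∧ IsV r ∧ C.core r.facet
    · obtain ⟨r0, hr0, hV0, hC0⟩ := hne
      let p : ℕ → Prop := fun n => ∃ r x, b r = c ∧ IsV r ∧ C.core r.facet ∧ x ≤ k ∧
        V r x + (B + 2) = n
      have hp : ∃ n, p n := by
        have h1 := hVle r0 0 ⟨hV0, hC0⟩ (Nat.zero_le k)
        exact ⟨(V r0 0 + (B + 2)).toNat, r0, 0, hr0, hV0, hC0, Nat.zero_le k, by
          rw [Int.toNat_of_nonneg (by linarith)]⟩
      obtain ⟨r1, x1, h1, h2, h3, h4, h5⟩ := Nat.find_spec hp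
      refine ⟨V r1 x1, ?_, fun _ => ⟨r1, x1, h1, h2, h3, h4, rfl⟩⟩
      intro r x hr hV hC hx
      have h6 := hVle r x ⟨hV, hC⟩ hx
      have h7 := Nat.find_min' hp (m := (V r x + (B + 2)).toNat) ⟨r, x, hr, hV, hC, hx, by
        rw [Int.toNat_of_nonneg (by linarith)]⟩
      have h8 : (Nat.find hp : ℤ) ≤ ((V r x + (B + 2)).toNat : ℤ) := by exact_mod_cast h7
      rw [Int.toNat_of_nonneg (by linarith)] at h8
      linarith
    · refine ⟨0, ?_, fun h => absurd h hne⟩
      intro r x hr hV hC _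
      exact absurd ⟨r, hr, hV, hC⟩ hne
  choose mn hmn1 hmn2 using hmin
  let off : P.FSt → ℤ := fun c => if C.sg c.facet = 0 then - mn c else (B : ℤ) + 2
  have hoff : ∀ r x, IsV r → C.core r.facet → x ≤ k → 0 ≤ V r x + off (b r) ∧
      V r x + off (b r) ≤ 2 * B + 2 := by
    intro r x hV hC hx
    have h1 := hVle r x ⟨hV, hC⟩ hx
    by_cases hs : C.sg (b r).facet = 0
    · have e : off (b r) = - mn (b r) := by show (if _ then _ else _) = _; rw [if_pos hs]
      have h2 := hmn1 (b r) r x rfl hV hC hx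
      obtain ⟨r', x', h3, h4, h5, h6, h7⟩ := hmn2 (b r) ⟨r, rfl, hV, hC⟩
      have h8 := hVle r' x' ⟨h4, h5⟩ h6
      rw [e]
      constructor <;> linarith
    · have e : off (b r) = (B : ℤ) + 2 := by show (if _ then _ else _) = _; rw [if_neg hs]
      rw [e]
      constructor <;> linarith
  refine ⟨{ sp := sp, sp_ex := hsp, sp_sg := fun f h1 h2 => h2.2 h1,
            sp_nsp := fun f h1 h2 h3 => hspn f h2.1 ⟨h1, h2.2 h1, h3⟩,
            H := fun r x => (V r x + off (b r)).toNat, H_le := ?_, H_x := ?_, H_E := ?_,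
            H_0 := ?_ }⟩
  · intro r x h1 h2 hx
    have := hoff r x h1 h2 hx
    omega
  · intro r x h1 h2 hx
    have h3 := hoff r x h1 h2 hx.le
    have h4 := hoff r (x + 1) h1 h2 hx
    have h5 := hVx r x
    rw [Int.toNat_of_nonneg h3.1, Int.toNat_of_nonneg h4.1, h5]
    show V r x + (vl (C.wdS r x) - (if shc k sp r x then 1 else 0)) + off (b r) + _ = _
    ring
  · intro r h1 h2
    show (V (C.pS r) 0 + off (b (C.pS r))).toNat = (V r k + off (b r)).toNat
    rw [hVE r ⟨h1, h2⟩, (hi3 r).1]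
  · intro r h1 h2 h3
    obtain ⟨r', x', h4, h5, h6, h7, h8⟩ := hmn2 (b r) ⟨r, rfl, h1, h2⟩
    refine ⟨r', x', ?_, h7, ?_⟩
    · have h9 := hbs r
      have h10 := hbs r'
      rw [h4] at h10
      exact h9.symm.trans h10
    · have hs : C.sg (b r).facet = 0 := by rw [(hb r ⟨h1, h2⟩).2.2]; exact h3
      have e : off (b r') = - mn (b r) := by
        show (if C.sg (b r').facet = 0 then - mn (b r') else (B : ℤ) + 2) = _
        rw [h4, if_pos hs]
      show (V r' x' + off (b r')).toNat = 0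
      rw [e, h8]
      simp

end JCertE

end Pool.Agent.MP42E
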