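import Pool.Agent.MP42.E.Rg
import Pool.Agent.MP42.G.Height

/-!
# Signed reduction theorem: special states and heights of abstract rings (owner helper74)
-/

set_option autoImplicit false
set_option linter.unusedSectionVars false

namespace Pool.Agent.MP42E

open Pool.Agent.Helper55.UNF Pool.Agent.MP42G
open Pool.Agent.MP42 (minimalPeriod_pos' pos_unique exists_pos pow_minimalPeriod)
open Function

namespace Rg0

variable {k : ℕ} (A : Rg0 k)

instance : Finite A.W := A.fin

/-! ## the cycles -/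

lemma same_E (r : A.W) : A.E.SameCycle r (A.E r) :=
  Equiv.Perm.sameCycle_apply_right.2 (Equiv.Perm.SameCycle.refl _ _)

lemma same_T {r a : A.W} (h : A.E.SameCycle r a) : A.E.SameCycle (A.T r) (A.T a) := by
  obtain ⟨n, rfl⟩ := h.exists_nat_pow_eq
  clear h
  induction n with
  | zero => exact Equiv.Perm.SameCycle.refl _ _
  | succ n ih =>
    refine ih.trans ?_
    rw [pow_succ', Equiv.Perm.mul_apply]
    apply Equiv.Perm.SameCycle.symm
    refine ⟨1, ?_⟩
    rw [zpow_one]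
    exact A.ET _

lemma inv_same {p : A.W → Prop} (hp : ∀ r, p (A.E r) ↔ p r) {r a : A.W}
    (h : A.E.SameCycle r a) : p r ↔ p a := by
  obtain ⟨n, rfl⟩ := h.exists_nat_pow_eq
  clear h
  induction n with
  | zero => exact Iff.rfl
  | succ n ih =>
    rw [ih, pow_succ', Equiv.Perm.mul_apply]
    exact (hp _).symm

lemma U_same {r a : A.W} (h : A.E.SameCycle r a) : A.U r ↔ A.U a := A.inv_same A.U_E h

lemma tr_same {r a : A.W} (h : A.E.SameCycle r a) : A.tr r ↔ A.tr a := A.inv_same A.tr_E h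

/-! ## the word of a rim -/

lemma nx_iter (r : A.W) {x n : ℕ} (h : x + n < k) : A.nx^[n] (r, x) = (r, x + n) := by
  induction n with
  | zero => rfl
  | succ n ih =>
    rw [iterate_succ_apply', ih (by omega)]
    unfold nx
    rw [if_pos (by show x + n + 1 < k; omega)]
    rfl

lemma nx_turn (r : A.W) (hk : 0 < k) : A.nx^[k] (r, 0) = (A.E r, 0) := by
  have key : ∀ m, m + 1 = k → A.nx^[m + 1] (r, 0) = (A.E r, 0) := by
    intro m hm
    rw [iterate_succ_apply', A.nx_iter r (by omega)]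
    unfold nx
    rw [if_neg (by show ¬ (0 + m + 1 < k); omega)]
  have := key (k - 1) (by omega)
  rwa [Nat.sub_add_cancel hk] at this

lemma nx_mul (r : A.W) (hk : 0 < k) (i : ℕ) :
    A.nx^[i * k] (r, 0) = ((A.E^[i]) r, 0) := by
  induction i with
  | zero => simp
  | succ i ih =>
    rw [Nat.succ_mul, add_comm, iterate_add_apply, ih, A.nx_turn _ hk, iterate_succ_apply']

lemma nx_gen (r : A.W) (i : ℕ) {x : ℕ} (hx : x < k) :
    A.nx^[i * k + x] (r, 0) = ((A.E^[i]) r, x) := by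
  rw [add_comm, iterate_add_apply, A.nx_mul r (by omega), A.nx_iter _ (by omega), zero_add]

lemma wsum_gen (r : A.W) (i : ℕ) {x : ℕ} (hx : x ≤ k) :
    A.wsum (r, 0) (i * k + x) =
      ∑ j ∈ Finset.range i, ∑ y ∈ Finset.range k, vl (A.wd ((A.E^[j]) r) y) +
        ∑ y ∈ Finset.range x, vl (A.wd ((A.E^[i]) r) y) := by
  have key : ∀ i x, x ≤ k → A.wsum (r, 0) (i * k + x) = A.wsum (r, 0) (i * k) +
      ∑ y ∈ Finset.range x, vl (A.wd ((A.E^[i]) r) y) := by
    intro i x hx
    unfold wsum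
    rw [Finset.sum_range_add]
    congr 1
    apply Finset.sum_congr rfl
    intro y hy
    rw [Finset.mem_range] at hy
    rw [A.nx_gen r i (by omega)]
  rw [key i x hx]
  congr 1
  clear hx x
  induction i with
  | zero => simp [wsum]
  | succ i ih =>
    rw [Nat.succ_mul, key i k le_rfl, ih, Finset.sum_range_succ]

/-! ## special states -/

/-- one special state in every ring that is not cut -/
theorem exists_sp (nsp : A.W → Prop) (nsp_T : ∀ r, nsp (A.T r) ↔ nsp r)
    (nsp_ex : ∀ r, A.tr r → ∃ a, A.E.SameCycle r a ∧ ¬ nsp a) :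
    ∃ sp : A.W → Prop, (∀ r, sp r → ¬ nsp r) ∧ (∀ r, sp r → A.tr r) ∧
      (∀ r, sp (A.T r) ↔ sp r) ∧ ∀ r, A.tr r → ∃! a, A.E.SameCycle r a ∧ sp a := by
  classical
  let S := Equiv.Perm.SameCycle.setoid A.E
  let rep : Quotient S → A.W := fun c =>
    if h : ∃ a, Quotient.mk S a = c ∧ ¬ nsp a then h.choose else c.out
  have hrep : ∀ r, A.tr r → A.E.SameCycle (rep (Quotient.mk S r)) r ∧
      ¬ nsp (rep (Quotient.mk S r)) := by
    intro r hr
    obtain ⟨a, ha1, ha2⟩ := nsp_ex r hr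
    have h : ∃ b, Quotient.mk S b = Quotient.mk S r ∧ ¬ nsp b :=
      ⟨a, (Quotient.sound (s := S) ha1).symm, ha2⟩
    have e : rep (Quotient.mk S r) = h.choose := dif_pos h
    rw [e]
    exact ⟨Quotient.exact (s := S) h.choose_spec.1, h.choose_spec.2⟩
  have hmk : ∀ r a, A.E.SameCycle r a → Quotient.mk S r = Quotient.mk S a := fun r a h =>
    Quotient.sound (s := S) h
  refine ⟨fun a => A.tr a ∧ ((A.U a ∧ a = rep (Quotient.mk S a)) ∨
    (¬ A.U a ∧ A.T a = rep (Quotient.mk S (A.T a)))), ?_, fun r h => h.1, ?_, ?_⟩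
  · rintro r ⟨h1, ⟨-, h3⟩ | ⟨-, h3⟩⟩
    · rw [h3]
      exact (hrep r h1).2
    · rw [← nsp_T, h3]
      exact (hrep (A.T r) ((A.tr_T r).2 h1)).2
  · intro r
    show A.tr (A.T r) ∧ ((A.U (A.T r) ∧ A.T r = rep (Quotient.mk S (A.T r))) ∨
      (¬ A.U (A.T r) ∧ A.T (A.T r) = rep (Quotient.mk S (A.T (A.T r))))) ↔
      A.tr r ∧ ((A.U r ∧ r = rep (Quotient.mk S r)) ∨
        (¬ A.U r ∧ A.T r = rep (Quotient.mk S (A.T r))))
    rw [A.tr_T, A.U_T, A.TT]
    constructor
    · rintro ⟨h1, ⟨h2, h3⟩ | ⟨h2, h3⟩⟩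
      · exact ⟨h1, Or.inr ⟨h2, h3⟩⟩
      · exact ⟨h1, Or.inl ⟨not_not.1 h2, h3⟩⟩
    · rintro ⟨h1, ⟨h2, h3⟩ | ⟨h2, h3⟩⟩
      · exact ⟨h1, Or.inr ⟨not_not.2 h2, h3⟩⟩
      · exact ⟨h1, Or.inl ⟨h2, h3⟩⟩
  · intro r hr
    by_cases hu : A.U r
    · obtain ⟨h1, h2⟩ := hrep r hr
      refine ⟨rep (Quotient.mk S r), ⟨h1.symm, (A.tr_same h1).2 hr, Or.inl ⟨(A.U_same h1).2 hu, ?_⟩⟩,
        ?_⟩
      · rw [hmk _ _ h1]
      · rintro b ⟨hb1, -, ⟨hb2, hb3⟩ | ⟨hb2, hb3⟩⟩
        · rw [hb3, hmk _ _ hb1]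
        · exact absurd ((A.U_same hb1).1 hu) hb2
    · have hTr := (A.tr_T r).2 hr
      obtain ⟨h1, h2⟩ := hrep (A.T r) hTr
      have h1' : A.E.SameCycle (A.T (rep (Quotient.mk S (A.T r)))) r := by
        have := A.same_T h1
        rwa [A.TT] at this
      refine ⟨A.T (rep (Quotient.mk S (A.T r))), ⟨h1'.symm, (A.tr_same h1').2 hr, Or.inr ⟨?_, ?_⟩⟩,
        ?_⟩
      · intro h3
        exact hu ((A.U_same h1').1 h3)
      · rw [A.TT, hmk _ _ h1]
      · rintro b ⟨hb1, -, ⟨hb2, hb3⟩ | ⟨hb2, hb3⟩⟩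
        · exact absurd ((A.U_same hb1).2 hb2) hu
        · have : A.T b = rep (Quotient.mk S (A.T r)) := by
            rw [hb3, hmk _ _ (A.same_T hb1)]
          rw [← this, A.TT]

/-! ## heights -/

lemma shc_sum (hk : 4 ≤ k) (sp : A.W → Prop) (r : A.W) :
    (sp r → ∑ x ∈ Finset.range k, (if A.shc sp r x then (1 : ℤ) else 0) = 2) ∧
      (¬ sp r → ∀ x, (if A.shc sp r x then (1 : ℤ) else 0) = 0) := by
  constructor
  · intro h
    by_cases hu : A.U r
    · have e : ∀ x, A.shc sp r x = true ↔ k ≤ x + 2 := by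
        intro x
        rw [shc_true]
        exact ⟨fun h1 => h1.2.1 hu, fun h1 => ⟨h, fun _ => h1, fun h2 => absurd hu h2⟩⟩
      obtain ⟨m, hm⟩ : ∃ m, k = m + 1 + 1 := ⟨k - 2, by omega⟩
      have e2 : ∀ n, n ≤ m → ∑ x ∈ Finset.range n, (if A.shc sp r x then (1 : ℤ) else 0) = 0 := by
        intro n hn
        apply Finset.sum_eq_zero
        intro x hx
        rw [Finset.mem_range] at hx
        rw [if_neg]
        rw [e]
        omega
      have e3 : ∑ x ∈ Finset.range (m + 1 + 1), (if A.shc sp r x then (1 : ℤ) else 0) = 2 := by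
        rw [Finset.sum_range_succ, Finset.sum_range_succ, e2 m le_rfl, if_pos ((e _).2 (by omega)),
          if_pos ((e _).2 (by omega))]
        norm_num
      rw [← hm] at e3
      exact e3
    · have e : ∀ x, A.shc sp r x = true ↔ x < 2 := by
        intro x
        rw [shc_true]
        exact ⟨fun h1 => h1.2.2 hu, fun h1 => ⟨h, fun h2 => absurd h2 hu, fun _ => h1⟩⟩
      obtain ⟨m, hm⟩ : ∃ m, k = 2 + m := ⟨k - 2, by omega⟩
      have e3 : ∑ x ∈ Finset.range (2 + m), (if A.shc sp r x then (1 : ℤ) else 0) = 2 := by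
        rw [Finset.sum_range_add, Finset.sum_range_succ, Finset.sum_range_succ,
          Finset.sum_range_zero, if_pos ((e _).2 (by omega)), if_pos ((e _).2 (by omega)),
          Finset.sum_eq_zero (s := Finset.range m)]
        · norm_num
        · intro x _
          rw [if_neg]
          rw [e]
          omega
      rw [← hm] at e3
      exact e3
  · intro h x
    rw [if_neg]
    rw [shc_true]
    exact fun h1 => h h1.1

theorem exists_rg {B : ℕ} (hW : A.Words B) (hk : 2 * (2 * B + 4) + 2 ≤ k)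
    (nsp : A.W → Prop) (nsp_T : ∀ r, nsp (A.T r) ↔ nsp r)
    (nsp_ex : ∀ r, A.tr r → ∃ a, A.E.SameCycle r a ∧ ¬ nsp a) :
    ∃ R : Rg A (2 * B + 4), ∀ r, R.sp r → ¬ nsp r := by
  classical
  obtain ⟨sp, hspn, hsptr, hspT, hsp⟩ := A.exists_sp nsp nsp_T nsp_ex
  obtain ⟨b, i, hi1, hi2, hi3⟩ := exists_start A.E
  have hk4 : 4 ≤ k := by omega
  have hsb : ∀ r, A.E.SameCycle (b r) r := by
    intro r
    refine ⟨(i r : ℤ), ?_⟩
    rw [zpow_natCast, Equiv.Perm.coe_pow]
    exact hi2 r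
  -- the columns
  let g : A.W → ℕ → ℤ := fun r x => vl (A.wd r x) - (if A.shc sp r x then 1 else 0)
  let f : A.W → ℤ := fun r => ∑ x ∈ Finset.range k, g r x
  let G : A.W → ℤ := fun r => ∑ j ∈ Finset.range (i r), f ((A.E^[j]) (b r))
  -- shift columns on a cycle
  have hshift : ∀ r, A.tr r → ∑ j ∈ Finset.range (minimalPeriod A.E r),
      ∑ x ∈ Finset.range k, (if A.shc sp ((A.E^[j]) r) x then (1 : ℤ) else 0) = 2 := by
    intro r hr
    obtain ⟨a, ⟨ha1, ha2⟩, ha3⟩ := hsp r hr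
    obtain ⟨n, h0, h1, h2⟩ := exists_pos A.E ha1
    have hrep : ∃ m, m < minimalPeriod A.E r ∧ (A.E^[m]) r = a := by
      rw [Equiv.Perm.coe_pow] at h2
      rcases Nat.lt_or_ge n (minimalPeriod A.E r) with h3 | h3
      · exact ⟨n, h3, h2⟩
      · refine ⟨0, minimalPeriod_pos' A.E r, ?_⟩
        have h4 : n = minimalPeriod A.E r := le_antisymm h1 h3
        rw [h4, iterate_minimalPeriod] at h2
        exact h2
    obtain ⟨m, hm1, hm2⟩ := hrep
    rw [Finset.sum_eq_single_of_mem m (Finset.mem_range.2 hm1)]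
    · rw [hm2]
      exact (A.shc_sum hk4 sp a).1 ha2
    · intro j hj hjm
      apply Finset.sum_eq_zero
      intro x _
      apply (A.shc_sum hk4 sp _).2
      intro h5
      apply hjm
      have h6 : (A.E^[j]) r = a := by
        apply ha3
        refine ⟨⟨j, ?_⟩, h5⟩
        rw [zpow_natCast, Equiv.Perm.coe_pow]
      exact iterate_injOn_Iio_minimalPeriod (Set.mem_Iio.2 (Finset.mem_range.1 hj))
        (Set.mem_Iio.2 hm1) (h6.trans hm2.symm)
  have hshift0 : ∀ r, ¬ A.tr r → ∀ x, (if A.shc sp r x then (1 : ℤ) else 0) = 0 := by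
    intro r hr x
    apply (A.shc_sum hk4 sp r).2
    exact fun h => hr (hsptr r h)
  have htrj : ∀ (j : ℕ) r, A.tr ((A.E^[j]) r) ↔ A.tr r := by
    intro j r
    refine (A.tr_same ⟨(j : ℤ), ?_⟩).symm
    rw [zpow_natCast, Equiv.Perm.coe_pow]
  have hzero : ∀ r, ∑ j ∈ Finset.range (minimalPeriod A.E r), f ((A.E^[j]) r) = 0 := by
    intro r
    have h2 := A.wsum_gen r (minimalPeriod A.E r) (x := 0) (Nat.zero_le k)
    rw [Finset.sum_range_zero, add_zero, add_zero] at h2
    show ∑ j ∈ Finset.range (minimalPeriod A.E r), ∑ x ∈ Finset.range k,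
      (vl (A.wd ((A.E^[j]) r) x) - (if A.shc sp ((A.E^[j]) r) x then 1 else 0)) = 0
    simp only [Finset.sum_sub_distrib]
    rw [← h2]
    by_cases hr : A.tr r
    · rw [hW.tot r hr, hshift r hr]
      norm_num
    · rw [hW.tot0 r hr]
      have : ∑ j ∈ Finset.range (minimalPeriod A.E r),
          ∑ x ∈ Finset.range k, (if A.shc sp ((A.E^[j]) r) x then (1 : ℤ) else 0) = 0 := by
        apply Finset.sum_eq_zero
        intro j _
        apply Finset.sum_eq_zero
        intro x _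
        exact hshift0 _ (fun h => hr ((htrj j r).1 h)) x
      rw [this]
      norm_num
  -- the value before the base is added
  let V : A.W → ℕ → ℤ := fun r x => G r + ∑ y ∈ Finset.range x, g r y
  have hVx : ∀ r x, V r (x + 1) = V r x + g r x := by
    intro r x
    show G r + ∑ y ∈ Finset.range (x + 1), g r y = G r + ∑ y ∈ Finset.range x, g r y + g r x
    rw [Finset.sum_range_succ, add_assoc]
  have hVE : ∀ r, V (A.E r) 0 = V r k := by
    intro r
    have h1 := pot_step hi2 hi3 f r (hzero _)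
    show G (A.E r) + ∑ y ∈ Finset.range 0, g (A.E r) y = G r + f r
    rw [Finset.sum_range_zero, add_zero]
    exact h1
  have hVw : ∀ r x, x ≤ k → |A.wsum (b r, 0) (i r * k + x)| ≤ B ∧
      V r x = A.wsum (b r, 0) (i r * k + x) -
        ∑ j ∈ Finset.range (i r), (∑ x ∈ Finset.range k,
          (if A.shc sp ((A.E^[j]) (b r)) x then (1 : ℤ) else 0)) -
        ∑ y ∈ Finset.range x, (if A.shc sp r y then (1 : ℤ) else 0) := by
    intro r x hx
    have h1 := hi1 r
    have hle : i r * k + x ≤ minimalPeriod A.E (b r) * k := by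
      have : (i r + 1) * k ≤ minimalPeriod A.E (b r) * k := Nat.mul_le_mul_right k h1
      rw [Nat.succ_mul] at this
      omega
    have h2 := hW.bd (b r) 0 (i r * k + x) (by omega) hle
    have h3 := A.wsum_gen (b r) (i r) hx
    rw [hi2 r] at h3
    refine ⟨h2, ?_⟩
    rw [h3]
    show ∑ j ∈ Finset.range (i r), ∑ y ∈ Finset.range k,
      (vl (A.wd ((A.E^[j]) (b r)) y) - (if A.shc sp ((A.E^[j]) (b r)) y then 1 else 0)) +
      ∑ y ∈ Finset.range x, (vl (A.wd r y) - (if A.shc sp r y then 1 else 0)) = _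
    simp only [Finset.sum_sub_distrib]
    ring
  have hVle : ∀ r x, A.tr r → x ≤ k → -((B : ℤ) + 2) ≤ V r x ∧ V r x ≤ B := by
    intro r x hr hx
    have h1 := hi1 r
    obtain ⟨h2, h9⟩ := hVw r x hx
    -- the shift columns before
    let q : ℕ → ℤ := fun j => ∑ x ∈ Finset.range k,
      (if A.shc sp ((A.E^[j]) (b r)) x then (1 : ℤ) else 0)
    have hnn : ∀ (s : A.W) y, (0 : ℤ) ≤ if A.shc sp s y then (1 : ℤ) else 0 := by
      intro s y; split_ifs <;> norm_num
    have hq : ∀ j, 0 ≤ q j := fun j => Finset.sum_nonneg fun y _ => hnn _ y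
    have h4 := JCert.sum_nonneg_le (n := i r + 1) (m := minimalPeriod A.E (b r)) h1 q hq
    have h5 := hshift (b r) ((A.tr_same (hsb r)).2 hr)
    have h6 := JCert.sum_nonneg_le hx (fun y => if A.shc sp r y then (1 : ℤ) else 0) (hnn r)
    have h7 := JCert.sum_nonneg_le (n := i r) (m := i r) le_rfl q hq
    have h8 : ∑ j ∈ Finset.range (i r + 1), q j = ∑ j ∈ Finset.range (i r), q j +
        ∑ y ∈ Finset.range k, (if A.shc sp r y then (1 : ℤ) else 0) := by
      rw [Finset.sum_range_succ]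
      congr 1
      show ∑ x ∈ Finset.range k, (if A.shc sp ((A.E^[i r]) (b r)) x then (1 : ℤ) else 0) = _
      rw [hi2]
    have h9' : V r x = A.wsum (b r, 0) (i r * k + x) - ∑ j ∈ Finset.range (i r), q j -
        ∑ y ∈ Finset.range x, (if A.shc sp r y then (1 : ℤ) else 0) := h9
    have h10 := abs_le.1 h2
    have h5' : ∑ j ∈ Finset.range (minimalPeriod A.E (b r)), q j = 2 := h5
    constructor
    · rw [h9']; linarith [h10.1, h4.2, h6.2]
    · rw [h9']; linarith [h10.2, h7.1, h6.1]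
  have hVle0 : ∀ r x, ¬ A.tr r → x ≤ k → -(B : ℤ) ≤ V r x ∧ V r x ≤ B := by
    intro r x hr hx
    obtain ⟨h2, h9⟩ := hVw r x hx
    have hbr : ¬ A.tr (b r) := fun h => hr ((A.tr_same (hsb r)).1 h)
    have e1 : ∑ j ∈ Finset.range (i r), (∑ x ∈ Finset.range k,
        (if A.shc sp ((A.E^[j]) (b r)) x then (1 : ℤ) else 0)) = 0 := by
      apply Finset.sum_eq_zero
      intro j _
      apply Finset.sum_eq_zero
      intro y _
      exact hshift0 _ (fun h => hbr ((htrj j _).1 h)) y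
    have e2 : ∑ y ∈ Finset.range x, (if A.shc sp r y then (1 : ℤ) else 0) = 0 := by
      apply Finset.sum_eq_zero
      intro y _
      exact hshift0 _ hr y
    rw [e1, e2, sub_zero, sub_zero] at h9
    rw [h9]
    exact abs_le.1 h2
  -- the minimum on a cycle
  have hmin : ∀ r, ∃ p : A.W × ℕ, b p.1 = b r ∧ p.2 < k ∧
      ∀ s y, b s = b r → y < k → V p.1 p.2 ≤ V s y := by
    intro r
    have hfin : Set.Finite {p : A.W × Fin k | b p.1 = b r} := Set.toFinite _
    have hne : Set.Nonempty {p : A.W × Fin k | b p.1 = b r} := ⟨(r, ⟨0, by omega⟩), rfl⟩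
    obtain ⟨p, hp1, hp2⟩ := Set.exists_min_image _ (fun p : A.W × Fin k => V p.1 p.2) hfin hne
    exact ⟨(p.1, p.2), hp1, p.2.2, fun s y hs hy => hp2 (s, ⟨y, hy⟩) hs⟩
  choose p hp1 hp2 hp3 using hmin
  let mn : A.W → ℤ := fun r => V (p r).1 (p r).2
  have hmn : ∀ r s, b s = b r → mn s = mn r := by
    intro r s hs
    apply le_antisymm
    · exact hp3 s _ _ (by rw [hp1, hs]) (hp2 r)
    · exact hp3 r _ _ (by rw [hp1, hs]) (hp2 s)
  have hmnle : ∀ r x, x ≤ k → mn r ≤ V r x := by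
    intro r x hx
    rcases Nat.lt_or_ge x k with h | h
    · exact hp3 r r x rfl h
    · have hxk : x = k := by omega
      rw [hxk, ← hVE r]
      exact hp3 r _ 0 (hi3 r).1 (by omega)
  let H : A.W → ℕ → ℕ := fun r x =>
    if A.tr r then (V r x + (B + 2)).toNat else (V r x - mn r).toNat
  have hH1 : ∀ r x, A.tr r → H r x = (V r x + (B + 2)).toNat := fun r x h => if_pos h
  have hH2 : ∀ r x, ¬ A.tr r → H r x = (V r x - mn r).toNat := fun r x h => if_neg h
  have hcyc : ∀ r s, b s = b r → A.E.SameCycle r s := by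
    intro r s h
    have h1 := hsb r
    have h2 := hsb s
    rw [h] at h2
    exact h1.symm.trans h2
  refine ⟨{ hk := hk, hD := by omega, sp := sp, sp_tr := hsptr, sp_T := hspT, sp_ex := hsp,
            H := H, H_le := ?_, H_x := ?_, H_E := ?_, H_0 := ?_,
            t := fun _ => true, t_E := fun _ => rfl, t_T := fun _ => rfl }, hspn⟩
  · intro r x hx
    by_cases hr : A.tr r
    · rw [hH1 r x hr]
      have := hVle r x hr hx
      omega
    · rw [hH2 r x hr]
      have h1 := hVle0 r x hr hx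
      have hr' : ¬ A.tr (p r).1 := fun h => hr ((A.tr_same (hcyc r _ (hp1 r))).2 h)
      have h2 := hVle0 (p r).1 (p r).2 hr' (hp2 r).le
      have h3 : mn r = V (p r).1 (p r).2 := rfl
      omega
  · intro r x hx
    have h5 := hVx r x
    have h6 : g r x = vl (A.wd r x) - (if A.shc sp r x then 1 else 0) := rfl
    by_cases hr : A.tr r
    · rw [hH1 r _ hr, hH1 r _ hr]
      have h3 := hVle r x hr hx.le
      have h4 := hVle r (x + 1) hr hx
      rw [Int.toNat_of_nonneg (by omega), Int.toNat_of_nonneg (by omega)]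
      omega
    · rw [hH2 r _ hr, hH2 r _ hr]
      have h3 := hmnle r x hx.le
      have h4 := hmnle r (x + 1) hx
      rw [Int.toNat_of_nonneg (by omega), Int.toNat_of_nonneg (by omega)]
      omega
  · intro r
    by_cases hr : A.tr r
    · rw [hH1 _ _ hr, hH1 _ _ ((A.tr_E r).2 hr), hVE r]
    · rw [hH2 _ _ hr, hH2 _ _ (fun h => hr ((A.tr_E r).1 h)), hVE r, hmn r (A.E r) (hi3 r).1]
  · intro r hr
    have hc := hcyc r _ (hp1 r)
    have hr' : ¬ A.tr (p r).1 := fun h => hr ((A.tr_same hc).2 h)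
    refine ⟨(p r).1, (p r).2, hc, hp2 r, ?_⟩
    rw [hH2 _ _ hr', hmn r (p r).1 (hp1 r)]
    show (mn r - mn r).toNat = 0
    simp

end Rg0

/-- another choice of the parities -/
def Rg.withT {k D : ℕ} {A : Rg0 k} (R : Rg A D) (t : A.W → Bool)
    (h1 : ∀ s, t (A.E s) = t s) (h2 : ∀ s, t (A.T s) = t s) : Rg A D :=
  { R with t := t, t_E := h1, t_T := h2 }

end Pool.Agent.MP42E
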