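import Pool.Agent.MP42.E.Flags

/-!
# Signed reduction theorem: connectivity and assembly (owner helper73)
-/

set_option autoImplicit false
set_option linter.unusedSectionVars false

namespace Pool.Agent.MP42E

open Pool.Agent.Helper55.UNF Pool.Agent.Helper55.UNF.GridSolid Pool.Agent.MP42G
open Pool.Agent.MP42G.JCert (shc shc_true shc_r2 shc_free vl_z vl_n vl_s vl_cases c0)
open Function

variable {P : GridSolid}

namespace JCertE

variable {k : ℕ} {C : JCertE P k}

/-! ## Every rim of a ring with `sg ≠ 0` has a strand that is never closed -/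

lemma wsumS_add (q : P.FSt × ℕ) (m n : ℕ) :
    C.wsumS q (m + n) = C.wsumS q m + C.wsumS ((C.nxS)^[m] q) n := by
  unfold wsumS
  rw [Finset.sum_range_add]
  congr 1
  apply Finset.sum_congr rfl
  intro j _
  rw [Nat.add_comm m j, iterate_add_apply]

lemma same_iterS (q : P.FSt × ℕ) (n : ℕ) : C.pS.SameCycle q.1 ((C.nxS)^[n] q).1 := by
  induction n with
  | zero => exact Equiv.Perm.SameCycle.refl _ _
  | succ n ih =>
    rw [iterate_succ_apply']
    unfold nxS
    split_ifs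
    · exact ih
    · exact Equiv.Perm.sameCycle_apply_right.2 ih

theorem exists_unmatched (hk : 0 < k) {B : ℕ} (hW : C.Words B) {r : P.FSt} (hV : IsV r)
    (hC : C.core r.facet) (hs0 : C.sg r.facet ≠ 0) :
    ∃ q : P.FSt × ℕ, pE.SameCycle r q.1 ∧ IsV q.1 ∧ C.core q.1.facet ∧
      q.2 < k ∧ C.UnmatchedS q := by
  set L := minimalPeriod C.pS r * k with hL
  have hLp : 0 < L := Nat.mul_pos (Pool.Agent.MP42.minimalPeriod_pos' C.pS r) hk
  have hper : (C.nxS)^[L] (r, 0) = (r, 0) := by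
    rw [hL, C.nxS_mul r hk, iterate_minimalPeriod]
  have htot : C.wsumS (r, 0) L = 2 := by
    rw [hL, hW.totS hk hV hC]
    rcases C.sg_or _ hC with h | h | h
    · rw [h]; rfl
    · rw [h]; rfl
    · exact absurd h hs0
  have hm : ∀ m : ℕ, ∀ n, C.wsumS (r, 0) (m * L + n) = 2 * m + C.wsumS (r, 0) n := by
    intro m
    induction m with
    | zero => intro n; simp
    | succ m ih =>
      intro n
      rw [show (m + 1) * L + n = L + (m * L + n) by ring, wsumS_add, htot, hper, ih]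
      push_cast
      ring
  have hbig : ∀ n, (B + 1) * L ≤ n → 1 ≤ C.wsumS (r, 0) n := by
    intro n hn
    have e1 : n = n / L * L + n % L := by
      rw [Nat.mul_comm]; exact (Nat.div_add_mod n L).symm
    rw [e1, hm]
    have h1 := hW.bdS (x := 0) (n := n % L) hV hC hk (Nat.mod_lt _ hLp).le
    have h2 : B + 1 ≤ n / L := (Nat.le_div_iff_mul_le hLp).2 hn
    have h3 := (abs_le.1 h1).1
    have h4 : ((B + 1 : ℕ) : ℤ) ≤ ((n / L : ℕ) : ℤ) := by exact_mod_cast h2
    push_cast at h4 h3 ⊢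
    linarith
  classical
  set p : ℕ → Prop := fun n => C.wsumS (r, 0) n ≤ 0 with hp
  have h0 : p 0 := by
    show C.wsumS (r, 0) 0 ≤ 0
    unfold wsumS; simp
  set n0 := Nat.findGreatest p ((B + 1) * L) with hn0
  have hn1 : p n0 := Nat.findGreatest_spec (P := p) (Nat.zero_le _) h0
  have hgt : ∀ n, n0 < n → 1 ≤ C.wsumS (r, 0) n := by
    intro n hn
    rcases Nat.lt_or_ge n ((B + 1) * L) with h | h
    · have := Nat.findGreatest_is_greatest hn h.le
      have h' : ¬ (C.wsumS (r, 0) n ≤ 0) := this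
      omega
    · exact hbig n h
  have ok : Ok C (r, 0) := ⟨⟨hV, hC⟩, hk⟩
  have okn := ok.iter n0
  have hs := wsumS_succ (C := C) (r, 0) n0
  have h1 := hgt (n0 + 1) (by omega)
  have h2 : C.wsumS (r, 0) n0 ≤ 0 := hn1
  have hvl : vl (C.wdS ((C.nxS)^[n0] (r, 0)).1 ((C.nxS)^[n0] (r, 0)).2) = 1 ∧
      C.wsumS (r, 0) n0 = 0 := by
    rcases vl_cases (C.wdS ((C.nxS)^[n0] (r, 0)).1 ((C.nxS)^[n0] (r, 0)).2) with h | h | h <;>
      rw [h] at hs <;> constructor <;> omega
  refine ⟨(C.nxS)^[n0] (r, 0), C.sameCycle_S.1 (same_iterS (C := C) (r, 0) n0), okn.1.1,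
    okn.1.2, okn.2, vl_n.1 hvl.1, ?_⟩
  intro j hj
  have h3 := wsumS_add (C := C) (r, 0) n0 j
  have h4 := hgt (n0 + j) (by omega)
  rw [hvl.2] at h3
  linarith

/-! ## Assembly -/

section Assembly

variable {D : ℕ} {R : C.Rims D} {ψ χ : P.Facet → ℕ → ℕ → Prop}

/-- **matched feet** have the same value -/
theorem matched_eq (I : RInv R ψ χ) {r : P.FSt} {x : ℕ} {q' : P.FSt × ℕ} (hV : IsV r)
    (hC : C.core r.facet) (hx : x < k) (hm : C.Matched (r, x) q') :
    C.fv χ r x ↔ C.fv χ q'.1 q'.2 := by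
  have ok' : (IsV q'.1 ∧ C.core q'.1.facet) ∧ q'.2 < k := by
    obtain ⟨-, -, n, -, rfl, -, -⟩ := hm
    clear I
    refine ⟨?_, nx_iter_lt (k := k) (q := (r, x)) hx n⟩
    have hs := nx_same (k := k) (r, x) n
    obtain ⟨i, hi⟩ := hs.exists_nat_pow_eq
    have key : ∀ i : ℕ, IsV ((pE ^ i) r) ∧ C.core ((pE ^ i) r).facet := by
      intro i
      induction i with
      | zero => exact ⟨hV, hC⟩
      | succ i ih =>
        rw [pow_succ']
        exact Rims.vE ih
    have h1 := key i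
    have hi' : (pE ^ i) r = ((nx k)^[n] (r, x)).1 := hi
    rw [hi'] at h1
    exact h1
  have e1 := C.fvS_mu χ (q := (r, x)) hx
  have e2 := C.fvS_mu χ (q := q') ok'.2
  have hmu : ∀ q : P.FSt × ℕ, (C.mu q) = ((C.mu q).1, (C.mu q).2) := fun q => rfl
  rcases Matched.toS (q := (r, x)) hx hm with h | h
  · have hq := C.mu_1 (r, x)
    have hlt := C.mu_lt (q := (r, x)) hx
    rw [hmu (r, x)] at h
    have := matched_of_inv I (r := (C.mu (r, x)).1) (x := (C.mu (r, x)).2)
      (by rw [hq]; exact hV) (by rw [hq]; exact hC) hlt h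
    rw [e1, e2] at this
    exact this
  · have hq := C.mu_1 q'
    have hlt := C.mu_lt (q := q') ok'.2
    rw [hmu q'] at h
    have := matched_of_inv I (r := (C.mu q').1) (x := (C.mu q').2)
      (by rw [hq]; exact ok'.1.1) (by rw [hq]; exact ok'.1.2) hlt h
    rw [e1, e2] at this
    exact this.symm

/-- values in the frame of the rim state give values on the facet -/
lemma vF_can {f : P.Facet} (x y : ℕ) : C.vF ψ (C.can f) x y ↔ ψ f x y := by
  unfold vF
  rw [if_pos (C.can_can f), C.can_facet]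

lemma hF_can {f : P.Facet} (x y : ℕ) : C.hF χ (C.can f) x y ↔ χ f x y := by
  unfold hF
  rw [if_pos (C.can_can f), C.can_facet]

/-- all strands of the core walls have the value `Q` -/
lemma all_wpr {Q : P.FSt → Prop} (I : RInv R ψ χ) (J : QInv C χ Q) {r : P.FSt}
    (h : IsV r ∧ C.core r.facet) {x y : ℕ} (hx : x ≤ k)
    (hp : R.wpr r h x y = true) : C.vF ψ r x y ↔ Q r := by
  by_cases hn : C.Neg r
  · rw [R.wpr_neg h hn] at hp
    have h1 := all_pr I J h (x := k - x) (y := y) (by omega) hp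
    unfold vS at h1
    rw [if_pos hn] at h1
    unfold mV at h1
    rwa [show k - (k - x) = x by omega] at h1
  · rw [R.wpr_pos h hn] at hp
    have h1 := all_pr I J h hx hp
    unfold vS at h1
    rwa [if_neg hn] at h1

/-- all lanes of the core walls have the value `Q` -/
lemma all_wla {Q : P.FSt → Prop} (I : RInv R ψ χ) (J : QInv C χ Q) {r : P.FSt}
    (h : IsV r ∧ C.core r.facet) {x y : ℕ} (hx : x < k) (hy : y ≤ k)
    (hp : R.wla r h x y ≠ Ln.z) : C.hF χ r x y ↔ Q r := by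
  by_cases hn : C.Neg r
  · rw [R.wla_neg h hn] at hp
    have hp' : (R.win r h).la (k - 1 - x) y ≠ Ln.z := by
      intro h0
      apply hp
      unfold mLa
      rw [h0]; rfl
    have h1 := all_la I J h (x := k - 1 - x) (y := y) (by omega) hy hp'
    unfold hS at h1
    rw [if_pos hn] at h1
    unfold mH at h1
    rwa [show k - 1 - (k - 1 - x) = x by omega] at h1
  · rw [R.wla_pos h hn] at hp
    have h1 := all_la I J h hx hy hp
    unfold hS at h1
    rwa [if_neg hn] at h1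

/-- all values are equal -/
theorem const_of_port (hne : Nonempty P.Facet) {B : ℕ} (hW : C.Words B) (hC : C.Conn)
    (hT : C.Tree) (I : R.InvF ψ χ)
    (hport : ∀ a, IsV a → C.core a.facet → R.sp a.facet → (R.port χ a 0 ↔ R.port χ a 1)) :
    ∃ c : Prop, (∀ f x y, x ≤ k → y < k → R.prF f x y = true → (ψ f x y ↔ c)) ∧
      (∀ f x y, x < k → y ≤ k → R.laF f x y ≠ Ln.z → (χ f x y ↔ c)) := by
  have hk : 0 < k := by have := R.hk4; omega
  have RI := I.rinv
  have hport' : ∀ a j, IsV a → C.core a.facet → R.sp a.facet → j < 2 →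
      (R.port χ a j ↔ R.port χ a 0) := by
    intro a j h1 h2 h3 h4
    have h5 : j = 0 ∨ j = 1 := by omega
    rcases h5 with rfl | rfl
    · exact Iff.rfl
    · exact (hport a h1 h2 h3).symm
  have hring : ∀ r a : P.FSt, IsV r → C.core r.facet → pE.SameCycle r a →
      IsV a ∧ C.core a.facet := by
    intro r a hV hCo hs
    obtain ⟨n, hn⟩ := (C.sameCycle_S.2 hs).exists_nat_pow_eq
    rw [← hn]; exact ok_pow RI ⟨hV, hCo⟩ n
  -- the values of the feet that are never closed, in the S-reading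
  have hU : ∀ (r : P.FSt) (x : ℕ) (a : P.FSt), IsV r → C.core r.facet → C.sg r.facet ≠ 0 →
      x < k → C.UnmatchedS (r, x) → pE.SameCycle r a → R.sp a.facet →
      (C.fvS χ r x ↔ R.port χ a 0) := by
    intro r x a hV hCo hs0 hx hu ha hsp
    obtain ⟨b, j, hb1, hb2, hj, hb3⟩ := unmatched_port RI hV hCo hs0 hx hu
    obtain ⟨c, -, hc⟩ := R.sp_ex r hV hCo hs0
    have e1 : b = a := (hc b ⟨C.sameCycle_S.1 hb1, hb2⟩).trans (hc a ⟨ha, hsp⟩).symm
    subst e1
    have hVb := hring r b hV hCo ha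
    rw [hb3]
    exact hport' b j hVb.1 hVb.2 hb2 hj
  have hU' : ∀ (r : P.FSt) (x : ℕ) (a : P.FSt), IsV r → C.core r.facet →
      x < k → C.Unmatched (r, x) → pE.SameCycle r a → R.sp a.facet →
      (C.fv χ r x ↔ R.port χ a 0) := by
    intro r x a hV hCo hx hu ha hsp
    obtain ⟨hs0, hu2⟩ := Unmatched.toS hW hV hCo hx hu
    have hq := C.mu_1 (r, x)
    have hlt := C.mu_lt (q := (r, x)) hx
    have hu3 : C.UnmatchedS ((C.mu (r, x)).1, (C.mu (r, x)).2) := hu2
    have h1 := hU (C.mu (r, x)).1 (C.mu (r, x)).2 a (by rw [hq]; exact hV) (by rw [hq]; exact hCo)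
      (by rw [hq]; exact hs0) hlt hu3 (by rw [hq]; exact ha) hsp
    rw [C.fvS_mu χ (q := (r, x)) hx] at h1
    exact h1
  have hInv : C.Inv ψ χ := I.inv (fun r x q' h1 h2 h3 h4 => matched_eq RI h1 h2 h3 h4)
  have hEq2 : C.Eq2 χ := by
    intro r x r' x' hV hCo hs hx hx' hu hu'
    have hs0 := (Unmatched.toS hW hV hCo hx hu).1
    obtain ⟨a, ⟨ha1, ha2⟩, -⟩ := R.sp_ex r hV hCo hs0
    have hV' := hring r r' hV hCo hs
    rw [hU' r x a hV hCo hx hu ha1 ha2, hU' r' x' a hV'.1 hV'.2 hx' hu' (hs.symm.trans ha1) ha2]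
  obtain ⟨Q, hQ⟩ := hC ψ χ hInv hEq2
  have hfeet : ∀ r x, IsV r → C.core r.facet → x < k → C.wdS r x ≠ Ln.z →
      (C.fvS χ r x ↔ Q r) := by
    classical
    intro r x hV hCo hx hw
    have hq := C.mu_1 (r, x)
    have h1 := C.wdS_mu (q := C.mu (r, x)) (C.mu_lt (q := (r, x)) hx)
    rw [C.mu_mu (q := (r, x)) hx] at h1
    have hw' : C.wdS r x ≠ Ln.z := hw
    have h2 : C.wd (C.mu (r, x)).1 (C.mu (r, x)).2 ≠ Ln.z := by
      intro h0
      apply hw'
      have h3 : C.wdS r x = if C.Neg (C.mu (r, x)).1 then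
        swL (C.wd (C.mu (r, x)).1 (C.mu (r, x)).2) else
        C.wd (C.mu (r, x)).1 (C.mu (r, x)).2 := h1
      rw [h3, h0]
      split_ifs <;> rfl
    have h3 := hQ.feet (C.mu (r, x)).1 (C.mu (r, x)).2 (by rw [hq]; exact hV)
      (by rw [hq]; exact hCo) (C.mu_lt (q := (r, x)) hx) h2
    have h4 := C.fvS_mu χ (q := C.mu (r, x)) (C.mu_lt (q := (r, x)) hx)
    rw [C.mu_mu (q := (r, x)) hx] at h4
    have h5 : C.fvS χ r x ↔ C.fv χ (C.mu (r, x)).1 (C.mu (r, x)).2 := h4
    rw [h5, h3, hq]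
  have hQs : ∀ r a, IsV r → C.core r.facet → pE.SameCycle r a → (Q r ↔ Q a) := by
    intro r a hV hCo hs
    obtain ⟨n, rfl⟩ := hs.exists_nat_pow_eq
    induction n with
    | zero => exact Iff.rfl
    | succ n ih =>
      have hs' : pE.SameCycle r ((pE ^ n) r) := ⟨n, by rw [zpow_natCast]⟩
      rw [ih hs', pow_succ', Equiv.Perm.mul_apply]
      have := hring r _ hV hCo hs'
      exact hQ.rim _ this.1 this.2
  have hQp : ∀ r a, IsV r → C.core r.facet → C.sg r.facet ≠ 0 → pE.SameCycle r a →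
      R.sp a.facet → (Q r ↔ R.port χ a 0) := by
    intro r a hV hCo hs0 hs hsp
    obtain ⟨q, h1, h2, h3, h4, h5⟩ := exists_unmatched hk hW hV hCo hs0
    have hsq : C.sg q.1.facet ≠ 0 := by
      obtain ⟨n, hn⟩ := h1.exists_nat_pow_eq
      have key : ∀ n : ℕ, (IsV ((pE ^ n) r) ∧ C.core ((pE ^ n) r).facet) ∧
          C.sg ((pE ^ n) r).facet = C.sg r.facet := by
        intro n
        induction n with
        | zero => exact ⟨⟨hV, hCo⟩, rfl⟩
        | succ n ih =>
          rw [pow_succ']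
          exact ⟨Rims.vE ih.1, (C.sg_E _ ih.1.1 ih.1.2).trans ih.2⟩
      rw [← hn, (key n).2]; exact hs0
    rw [hQs r q.1 hV hCo h1, ← hfeet q.1 q.2 h2 h3 h4 (by rw [h5.1]; decide)]
    exact hU q.1 q.2 a h2 h3 hsq h4 h5 (h1.symm.trans hs) hsp
  have hQ2 : ∀ r, IsV r → C.core r.facet → C.sg r.facet ≠ 0 → (Q r ↔ Q r.r2) := by
    intro r hV hCo hs0
    obtain ⟨a, ⟨ha1, ha2⟩, -⟩ := R.sp_ex r hV hCo hs0
    have hVa := hring r a hV hCo ha1
    have hr2 := Rims.vr2 ⟨hV, hCo⟩
    have ha2' := Rims.vr2 hVa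
    rw [hQp r a hV hCo hs0 ha1 ha2,
      hQp r.r2 a.r2 hr2.1 hr2.2 hs0 (sameCycle_r2 ha1) ha2]
    rw [through RI hVa ha2 (j := 0) (by omega)]
    exact hport' a.r2 _ ha2'.1 ha2'.2 ha2 (by split_ifs <;> omega)
  have hall : ∀ s t : P.FSt, (C.core s.facet → IsV s) → (C.core t.facet → IsV t) →
      (Q s ↔ Q t) := hT Q hQ.fac hQ.adj hQ.rim hQ.link hQ2
  have hcanV : ∀ f : P.Facet, C.core (C.can f).facet → IsV (C.can f) := by
    intro f h
    rw [C.can_facet] at h
    exact C.can_core f h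
  have J : QInv C χ Q := ⟨fun r h1 h2 => by
      have := Rims.vS' (C := C) ⟨h1, h2⟩
      exact hall _ _ (fun _ => h1) (fun _ => this.1),
    fun r h1 h2 => hall _ _ (fun _ => h1) (fun _ => (IsV_r2 r).2 h1), hfeet⟩
  refine ⟨Q (C.can (Classical.choice hne)), ?_, ?_⟩
  · intro f x y hx hy hp
    rw [← hall (C.can f) (C.can (Classical.choice hne)) (hcanV f) (hcanV _)]
    by_cases hf : C.core f
    · rw [R.prF_core hf] at hp
      rw [← vF_can (C := C) (ψ := ψ) x y]
      exact all_wpr RI J (C.hcan hf) hx hp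
    · rw [R.prF_not hf] at hp
      exact hQ.ver f x y hf hx hy hp
  · intro f x y hx hy hp
    rw [← hall (C.can f) (C.can (Classical.choice hne)) (hcanV f) (hcanV _)]
    by_cases hf : C.core f
    · rw [R.laF_core hf] at hp
      rw [← hF_can (C := C) (χ := χ) x y]
      exact all_wla RI J (C.hcan hf) hx hy hp
    · rw [R.laF_not hf] at hp
      exact hQ.hor f x y hf hx hy hp

end Assembly

/-- **Signed reduction theorem.** -/
theorem hasEdgeUnfolding (hne : Nonempty P.Facet) {k B : ℕ} (C : JCertE P k) (hW : C.Words B)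
    (hC : C.Conn) (hT : C.Tree) (hk : 4 * B + 10 ≤ k) :
    (P.refine (5 * k) (by omega)).HasEdgeUnfolding := by
  obtain ⟨R0⟩ := exists_hts C hW (by omega)
  let R : C.Rims (2 * B + 4) :=
    { R0 with hk := by omega, hk4 := by omega, hD := by omega, t := fun _ => true,
              t_S := fun _ => rfl, t_r := fun _ => rfl }
  obtain ⟨t, h1, h2, ht⟩ := exists_t C R
  exact ((R.withT t h1 h2).tab hW hne (fun ψ χ I => const_of_port hne hW hC hT I
    (fun a h3 h4 h5 => ht ψ χ (I.inv (fun r x q' h1 h2 h3 h4 =>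
      matched_eq I.rinv h1 h2 h3 h4)) I.rinv a h3 h4 h5))).hasEdgeUnfolding

end JCertE

end Pool.Agent.MP42E
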