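import Pool.Agent.MP42.E.Track2R
import Pool.Agent.MP42.E.Defs

/-!
# Signed reduction theorem: the rings of a certificate (owner helper74)
-/

set_option autoImplicit false
set_option linter.unusedSectionVars false

namespace Pool.Agent.MP42E

open Pool.Agent.Helper55.UNF Pool.Agent.Helper55.UNF.GridSolid Pool.Agent.MP42G

variable {P : GridSolid}

namespace JCertE

variable {k : ℕ} (C : JCertE P k)

/-! ## Predicates in the frame of a state -/

/-- value on vertical unit edges in the frame of `r` -/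
noncomputable def vS (ψ : P.Facet → ℕ → ℕ → Prop) (r : P.FSt) : ℕ → ℕ → Prop := by
  classical
  exact if C.can r.facet = r then ψ r.facet else rV k (ψ r.facet)

/-- value on horizontal unit edges in the frame of `r` -/
noncomputable def hS (χ : P.Facet → ℕ → ℕ → Prop) (r : P.FSt) : ℕ → ℕ → Prop := by
  classical
  exact if C.can r.facet = r then χ r.facet else rH k (χ r.facet)

lemma vS_pos {ψ : P.Facet → ℕ → ℕ → Prop} {r : P.FSt} (h : C.can r.facet = r) :
    C.vS ψ r = ψ r.facet := if_pos h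

lemma vS_neg {ψ : P.Facet → ℕ → ℕ → Prop} {r : P.FSt} (h : C.can r.facet ≠ r) :
    C.vS ψ r = rV k (ψ r.facet) := if_neg h

lemma hS_pos {χ : P.Facet → ℕ → ℕ → Prop} {r : P.FSt} (h : C.can r.facet = r) :
    C.hS χ r = χ r.facet := if_pos h

lemma hS_neg {χ : P.Facet → ℕ → ℕ → Prop} {r : P.FSt} (h : C.can r.facet ≠ r) :
    C.hS χ r = rH k (χ r.facet) := if_neg h

lemma can_r2_ne {r : P.FSt} (h : C.can r.facet = r) : C.can r.r2.facet ≠ r.r2 := by
  rw [FSt.facet_r2, h]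
  intro h1
  have h2 : r.1.e = opp r.1.e := congrArg (fun s : P.FSt => s.1.e) h1
  have h3 : r.1.e.2 = !r.1.e.2 := congrArg Prod.snd h2
  revert h3
  cases r.1.e.2 <;> simp

lemma can_ne_of_r2 {r : P.FSt} (h : C.can r.r2.facet = r.r2) : C.can r.facet ≠ r := by
  have := C.can_r2_ne h
  rwa [FSt.r2_r2] at this

/-- a state with vertical north over a core facet is the canonical one or its half turn -/
lemma can_or {r : P.FSt} (h : IsV r ∧ C.core r.facet) :
    C.can r.facet = r ∨ C.can r.r2.facet = r.r2 := by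
  have h1 := C.can_core _ h.2
  have h2 := C.can_facet r.facet
  generalize hg : C.can r.facet = g at *
  rw [FSt.facet_r2, hg]
  have hd : g.1.d = r.1.d := congrArg (fun f : P.Facet => f.1.2) h2
  have hr := h.1
  unfold IsV at hr h1
  have key : g.1.e = r.1.e ∨ g.1.e = opp r.1.e := by
    have e1 : (cross g.1.d g.1.e).1 = 2 := h1
    have e2 : (cross r.1.d r.1.e).1 = 2 := hr
    have g2 := g.2.2
    have r2 := r.2.2
    rw [hd] at e1 g2
    generalize g.1.e = a at *
    generalize r.1.e = b at *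
    generalize r.1.d = d at *
    clear hr h1 hd h2 hg h
    revert a b d
    decide
  have hc : g.1.c = r.1.c := congrArg (fun f : P.Facet => f.1.1) h2
  rcases key with h3 | h3
  · left
    apply FSt.ext'
    apply St.ext hc hd h3
  · right
    apply FSt.ext'
    exact St.ext hc hd h3

lemma vS_r2 {ψ : P.Facet → ℕ → ℕ → Prop} {r : P.FSt} (h : IsV r ∧ C.core r.facet) {x y : ℕ}
    (hx : x ≤ k) (hy : y < k) : C.vS ψ r.r2 x y ↔ C.vS ψ r (k - x) (k - 1 - y) := by
  rcases C.can_or h with h1 | h1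
  · rw [C.vS_pos h1, C.vS_neg (C.can_r2_ne h1)]
    exact Iff.rfl
  · rw [C.vS_pos h1, C.vS_neg (C.can_ne_of_r2 h1),
      rV_apply (ψ r.facet) (x' := x) (y' := y) (by omega) (by omega)]
    exact Iff.rfl

lemma hS_r2 {χ : P.Facet → ℕ → ℕ → Prop} {r : P.FSt} (h : IsV r ∧ C.core r.facet) {x y : ℕ}
    (hx : x < k) (hy : y ≤ k) : C.hS χ r.r2 x y ↔ C.hS χ r (k - 1 - x) (k - y) := by
  rcases C.can_or h with h1 | h1
  · rw [C.hS_pos h1, C.hS_neg (C.can_r2_ne h1)]
    exact Iff.rfl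
  · rw [C.hS_pos h1, C.hS_neg (C.can_ne_of_r2 h1),
      rH_apply (χ r.facet) (x' := x) (y' := y) (by omega) (by omega)]
    exact Iff.rfl

lemma fv_eq (χ : P.Facet → ℕ → ℕ → Prop) (r : P.FSt) (x : ℕ) :
    C.fv χ r x ↔ C.hS χ r x 0 := by
  unfold fv
  by_cases h : C.can r.facet = r
  · rw [if_pos h, C.hS_pos h]
  · rw [if_neg h, C.hS_neg h]
    show χ r.facet (k - 1 - x) k ↔ χ r.facet (k - 1 - x) (k - 0)
    rw [Nat.sub_zero]

lemma wd_pos {r : P.FSt} (h : C.can r.facet = r) (x : ℕ) : C.wd r x = C.la r.facet x 0 := by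
  unfold wd wdF
  exact if_pos h

lemma wd_neg {r : P.FSt} (h : C.can r.facet ≠ r) (x : ℕ) :
    C.wd r x = C.la r.facet (k - 1 - x) k := by
  unfold wd wdF
  exact if_neg h

lemma wd_free {r : P.FSt} (hc : C.core r.facet) (hs : C.sg r.facet ≠ 0) {x : ℕ} (hx : x < k)
    (h : x < 2 ∨ k ≤ x + 2) : C.wd r x = Ln.z := by
  by_cases h1 : C.can r.facet = r
  · rw [C.wd_pos h1]
    exact (C.free _ hc hs x hx h).1
  · rw [C.wd_neg h1]
    exact (C.free _ hc hs (k - 1 - x) (by omega) (by omega)).2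

/-! ## Valid states -/

/-- valid rim states -/
def VR (r : P.FSt) : Prop := IsV r ∧ C.core r.facet

variable {C}

lemma VR.r2 {r : P.FSt} (h : C.VR r) : C.VR r.r2 := ⟨(IsV_r2 r).2 h.1, h.2⟩

lemma VR.stE {r : P.FSt} (h : C.VR r) : C.VR r.stE :=
  ⟨(IsV_stE r).2 h.1, (C.core_E r h.1).2 h.2⟩

lemma VR.stW {r : P.FSt} (h : C.VR r) : C.VR (pE.symm r) := h.r2.stE.r2

lemma VR.sgE {r : P.FSt} (h : C.VR r) : C.sg r.stE.facet = C.sg r.facet := C.sg_E r h.1 h.2

lemma VR.sgW {r : P.FSt} (h : C.VR r) : C.sg (pE.symm r).facet = C.sg r.facet := by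
  have := h.r2.sgE
  rwa [FSt.facet_r2] at this

variable (C)

open Classical in
/-- the walk: to the west if the sign is `-1` -/
noncomputable def eF (r : P.FSt) : P.FSt := if C.sg r.facet = -1 then pE.symm r else r.stE

open Classical in
/-- its inverse -/
noncomputable def eB (r : P.FSt) : P.FSt := if C.sg r.facet = -1 then r.stE else pE.symm r

lemma eF_neg {r : P.FSt} (h : C.sg r.facet = -1) : C.eF r = pE.symm r := if_pos h
lemma eF_pos {r : P.FSt} (h : C.sg r.facet ≠ -1) : C.eF r = r.stE := if_neg h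
lemma eB_neg {r : P.FSt} (h : C.sg r.facet = -1) : C.eB r = r.stE := if_pos h
lemma eB_pos {r : P.FSt} (h : C.sg r.facet ≠ -1) : C.eB r = pE.symm r := if_neg h

variable {C}

lemma VR.eF {r : P.FSt} (h : C.VR r) : C.VR (C.eF r) ∧ C.sg (C.eF r).facet = C.sg r.facet := by
  by_cases hs : C.sg r.facet = -1
  · rw [C.eF_neg hs]; exact ⟨h.stW, h.sgW⟩
  · rw [C.eF_pos hs]; exact ⟨h.stE, h.sgE⟩

lemma VR.eB {r : P.FSt} (h : C.VR r) : C.VR (C.eB r) ∧ C.sg (C.eB r).facet = C.sg r.facet := by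
  by_cases hs : C.sg r.facet = -1
  · rw [C.eB_neg hs]; exact ⟨h.stE, h.sgE⟩
  · rw [C.eB_pos hs]; exact ⟨h.stW, h.sgW⟩

lemma VR.eB_eF {r : P.FSt} (h : C.VR r) : C.eB (C.eF r) = r := by
  by_cases hs : C.sg r.facet = -1
  · rw [C.eB_neg (by rw [h.eF.2]; exact hs), C.eF_neg hs]
    exact pE.apply_symm_apply r
  · rw [C.eB_pos (by rw [h.eF.2]; exact hs), C.eF_pos hs]
    exact pE.symm_apply_apply r

lemma VR.eF_eB {r : P.FSt} (h : C.VR r) : C.eF (C.eB r) = r := by
  by_cases hs : C.sg r.facet = -1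
  · rw [C.eF_neg (by rw [h.eB.2]; exact hs), C.eB_neg hs]
    exact pE.symm_apply_apply r
  · rw [C.eF_pos (by rw [h.eB.2]; exact hs), C.eB_pos hs]
    exact pE.apply_symm_apply r

variable (C)

/-- the walk as a permutation -/
noncomputable def pF : Equiv.Perm {r : P.FSt // C.VR r} where
  toFun := fun r => ⟨C.eF r.1, r.2.eF.1⟩
  invFun := fun r => ⟨C.eB r.1, r.2.eB.1⟩
  left_inv := fun r => Subtype.ext r.2.eB_eF
  right_inv := fun r => Subtype.ext r.2.eF_eB

lemma pF_val (r : {r : P.FSt // C.VR r}) : (C.pF r).1 = C.eF r.1 := rfl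

open Classical in
/-- column in the frame of the ring -/
noncomputable def aC (r : P.FSt) (x : ℕ) : ℕ := if C.sg r.facet = -1 then k - 1 - x else x

open Classical in
/-- word in the frame of the ring -/
noncomputable def aW (r : P.FSt) (x : ℕ) : Ln :=
  if C.sg r.facet = -1 then swL (C.wd r (k - 1 - x)) else C.wd r x

lemma aC_neg {r : P.FSt} (h : C.sg r.facet = -1) (x : ℕ) : C.aC r x = k - 1 - x := if_pos h
lemma aC_pos {r : P.FSt} (h : C.sg r.facet ≠ -1) (x : ℕ) : C.aC r x = x := if_neg h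
lemma aW_neg {r : P.FSt} (h : C.sg r.facet = -1) (x : ℕ) :
    C.aW r x = swL (C.wd r (k - 1 - x)) := if_pos h
lemma aW_pos {r : P.FSt} (h : C.sg r.facet ≠ -1) (x : ℕ) : C.aW r x = C.wd r x := if_neg h

lemma aC_lt {r : P.FSt} {x : ℕ} (hx : x < k) : C.aC r x < k := by
  unfold aC
  split_ifs <;> omega

lemma aC_aC {r : P.FSt} {x : ℕ} (hx : x < k) : C.aC r (C.aC r x) = x := by
  by_cases h : C.sg r.facet = -1
  · rw [C.aC_neg h, C.aC_neg h]; omega
  · rw [C.aC_pos h, C.aC_pos h]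

lemma aW_z {r : P.FSt} {x : ℕ} : C.aW r x = Ln.z ↔ C.wd r (C.aC r x) = Ln.z := by
  by_cases h : C.sg r.facet = -1
  · rw [C.aC_neg h, C.aW_neg h, swL_z]
  · rw [C.aC_pos h, C.aW_pos h]

/-- the rings of the certificate -/
noncomputable def rg : Rg0 k where
  W := {r : P.FSt // C.VR r}
  fin := inferInstance
  E := C.pF
  T := fun r => ⟨r.1.r2, r.2.r2⟩
  TT := fun r => Subtype.ext (FSt.r2_r2 r.1)
  ET := fun r => by
    apply Subtype.ext
    show C.eF (C.eF r.1).r2 = r.1.r2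
    by_cases hs : C.sg r.1.facet = -1
    · have h1 : C.sg (C.eF r.1).r2.facet = -1 := by
        rw [FSt.facet_r2, r.2.eF.2]; exact hs
      rw [C.eF_neg h1, C.eF_neg hs]
      show (r.1.r2.stE.r2).r2.r2.stE.r2 = r.1.r2
      rw [FSt.r2_r2, FSt.stE_inv, FSt.r2_r2]
    · have h1 : C.sg (C.eF r.1).r2.facet ≠ -1 := by
        rw [FSt.facet_r2, r.2.eF.2]; exact hs
      rw [C.eF_pos h1, C.eF_pos hs]
      exact FSt.stE_inv r.1
  U := fun r => IsU r.1
  U_E := fun r => by
    show IsU (C.eF r.1) ↔ IsU r.1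
    by_cases hs : C.sg r.1.facet = -1
    · rw [C.eF_neg hs, ← IsU_stE (pE.symm r.1)]
      have : (pE.symm r.1).stE = r.1 := pE.apply_symm_apply r.1
      rw [this]
    · rw [C.eF_pos hs]
      exact IsU_stE r.1
  U_T := fun r => IsU_r2 r.2.1
  wd := fun r x => C.aW r.1 x
  tr := fun r => C.sg r.1.facet ≠ 0
  tr_E := fun r => by
    show C.sg (C.eF r.1).facet ≠ 0 ↔ C.sg r.1.facet ≠ 0
    rw [r.2.eF.2]
  tr_T := fun r => by
    show C.sg r.1.r2.facet ≠ 0 ↔ C.sg r.1.facet ≠ 0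
    rw [FSt.facet_r2]
  free := fun r hr x hx h => by
    rw [C.aW_z]
    apply C.wd_free r.2.2 hr (C.aC_lt hx)
    by_cases hs : C.sg r.1.facet = -1
    · rw [C.aC_neg hs]; omega
    · rw [C.aC_pos hs]; exact h

end JCertE

end Pool.Agent.MP42E
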