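import Pool.Agent.MP42.E.Real

/-!
# Signed reduction theorem: the words of the rings of a certificate (owner helper74)
-/

set_option autoImplicit false
set_option linter.unusedSectionVars false

namespace Pool.Agent.MP42E

open Pool.Agent.Helper55.UNF Pool.Agent.Helper55.UNF.GridSolid Pool.Agent.MP42G
open Function

variable {P : GridSolid}

lemma vl_swL (l : Ln) : vl (swL l) = - vl l := by cases l <;> rfl

/-! ## walking along a rim -/

section Walk

variable {k : ℕ}

lemma nx_lt' {q : P.FSt × ℕ} (h : q.2 < k) : (nx k q).2 < k := by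
  unfold nx
  split_ifs with h1
  · exact h1
  · show 0 < k
    omega

lemma px_lt' {q : P.FSt × ℕ} (h : q.2 < k) : (px k q).2 < k := by
  unfold px
  split_ifs with h1
  · show q.2 - 1 < k
    omega
  · show k - 1 < k
    omega

lemma nx_px {q : P.FSt × ℕ} (h : q.2 < k) : nx k (px k q) = q := by
  unfold px
  split_ifs with h1
  · unfold nx
    rw [if_pos (by show q.2 - 1 + 1 < k; omega)]
    exact Prod.ext rfl (by show q.2 - 1 + 1 = q.2; omega)
  · unfold nx
    rw [if_neg (by show ¬ (k - 1 + 1 < k); omega)]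
    exact Prod.ext (pE.apply_symm_apply q.1) (by show 0 = q.2; omega)

lemma px_nx {q : P.FSt × ℕ} (h : q.2 < k) : px k (nx k q) = q := by
  unfold nx
  split_ifs with h1
  · unfold px
    rw [if_pos (by show 0 < q.2 + 1; omega)]
    exact Prod.ext rfl (by show q.2 + 1 - 1 = q.2; omega)
  · unfold px
    rw [if_neg (by show ¬ (0 < 0); omega)]
    exact Prod.ext (pE.symm_apply_apply q.1) (by show k - 1 = q.2; omega)

lemma nxi_lt {q : P.FSt × ℕ} (h : q.2 < k) (n : ℕ) : ((nx k)^[n] q).2 < k := by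
  induction n with
  | zero => exact h
  | succ n ih => rw [iterate_succ_apply']; exact nx_lt' ih

lemma pxi_lt {q : P.FSt × ℕ} (h : q.2 < k) (n : ℕ) : ((px k)^[n] q).2 < k := by
  induction n with
  | zero => exact h
  | succ n ih => rw [iterate_succ_apply']; exact px_lt' ih

lemma nx_pxi {q : P.FSt × ℕ} (h : q.2 < k) (n : ℕ) : (nx k)^[n] ((px k)^[n] q) = q := by
  induction n with
  | zero => rfl
  | succ n ih => rw [iterate_succ_apply' (px k), iterate_succ_apply, nx_px (pxi_lt h n), ih]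

lemma px_nxi {q : P.FSt × ℕ} (h : q.2 < k) (n : ℕ) : (px k)^[n] ((nx k)^[n] q) = q := by
  induction n with
  | zero => rfl
  | succ n ih => rw [iterate_succ_apply' (nx k), iterate_succ_apply, px_nx (nxi_lt h n), ih]

lemma px_sub {q : P.FSt × ℕ} (h : q.2 < k) {n j : ℕ} (hj : j ≤ n) :
    (nx k)^[j] ((px k)^[n] q) = (px k)^[n - j] q := by
  obtain ⟨m, rfl⟩ : ∃ m, n = j + m := ⟨n - j, by omega⟩
  rw [iterate_add_apply, nx_pxi (pxi_lt h m), Nat.add_sub_cancel_left]

lemma nx_sub {q : P.FSt × ℕ} (h : q.2 < k) {n j : ℕ} (hj : j ≤ n) :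
    (px k)^[j] ((nx k)^[n] q) = (nx k)^[n - j] q := by
  obtain ⟨m, rfl⟩ : ∃ m, n = j + m := ⟨n - j, by omega⟩
  rw [iterate_add_apply, px_nxi (nxi_lt h m), Nat.add_sub_cancel_left]

lemma nxi_col (r : P.FSt) {x n : ℕ} (h : x + n < k) : (nx k)^[n] (r, x) = (r, x + n) := by
  induction n with
  | zero => rfl
  | succ n ih =>
    rw [iterate_succ_apply', ih (by omega)]
    unfold nx
    rw [if_pos (by show x + n + 1 < k; omega)]
    rfl

lemma nxi_facet (r : P.FSt) (hk : 0 < k) : (nx k)^[k] (r, 0) = (r.stE, 0) := by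
  obtain ⟨n, rfl⟩ : ∃ n, k = n + 1 := ⟨k - 1, by omega⟩
  rw [iterate_succ_apply', nxi_col r (by omega)]
  unfold nx
  rw [if_neg (by show ¬ (0 + n + 1 < n + 1); omega)]

lemma nxi_mul (hk : 0 < k) (r : P.FSt) (m : ℕ) : (nx k)^[m * k] (r, 0) = ((pE^[m]) r, 0) := by
  induction m with
  | zero => simp
  | succ m ih =>
    rw [Nat.succ_mul, Nat.add_comm, iterate_add_apply, ih, nxi_facet _ hk, iterate_succ_apply']
    rfl

/-- once around the rim -/
lemma nxi_per (r : P.FSt) {x : ℕ} (hx : x < k) :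
    (nx k)^[minimalPeriod pE r * k] (r, x) = (r, x) := by
  have h1 : (nx k)^[x] (r, 0) = (r, x) := by rw [nxi_col r (by omega), Nat.zero_add]
  rw [← h1, ← iterate_add_apply, Nat.add_comm, iterate_add_apply, nxi_mul (by omega),
    iterate_minimalPeriod]

lemma same_nxi (q : P.FSt × ℕ) (n : ℕ) : pE.SameCycle q.1 ((nx k)^[n] q).1 := by
  induction n with
  | zero => exact Equiv.Perm.SameCycle.refl _ _
  | succ n ih =>
    rw [iterate_succ_apply']
    unfold nx
    split_ifs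
    · exact ih
    · exact Equiv.Perm.sameCycle_apply_right.2 ih

lemma same_pxi {q : P.FSt × ℕ} (h : q.2 < k) (n : ℕ) : pE.SameCycle q.1 ((px k)^[n] q).1 := by
  have h1 := same_nxi (k := k) ((px k)^[n] q) n
  rw [nx_pxi h n] at h1
  exact h1.symm

lemma per_same {r a : P.FSt} (h : pE.SameCycle r a) :
    minimalPeriod pE a = minimalPeriod pE r := by
  obtain ⟨n, rfl⟩ := h.exists_nat_pow_eq
  clear h
  induction n with
  | zero => rfl
  | succ n ih =>
    rw [pow_succ', Equiv.Perm.mul_apply, minimalPeriod_apply, ih]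
    exact minimalPeriod_pos_iff_mem_periodicPts.1 (Pool.Agent.MP42.minimalPeriod_pos' pE _)

end Walk

namespace JCertE

variable {k : ℕ} {C : JCertE P k}

lemma VR_same {r a : P.FSt} (hr : C.VR r) (h : pE.SameCycle r a) :
    C.VR a ∧ C.sg a.facet = C.sg r.facet := by
  obtain ⟨n, rfl⟩ := h.exists_nat_pow_eq
  clear h
  induction n with
  | zero => exact ⟨hr, rfl⟩
  | succ n ih =>
    rw [pow_succ', Equiv.Perm.mul_apply]
    exact ⟨ih.1.stE, ih.1.sgE.trans ih.2⟩

lemma wsum_add (q : P.FSt × ℕ) (m n : ℕ) :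
    C.wsum q (m + n) = C.wsum q m + C.wsum ((nx k)^[m] q) n := by
  unfold wsum
  rw [Finset.sum_range_add]
  congr 1
  apply Finset.sum_congr rfl
  intro j _
  rw [Nat.add_comm m j, iterate_add_apply]

lemma wsum_succ (q : P.FSt × ℕ) (n : ℕ) : C.wsum q (n + 1) =
    C.wsum q n + vl (C.wd ((nx k)^[n] q).1 ((nx k)^[n] q).2) := by
  unfold wsum
  rw [Finset.sum_range_succ]

lemma wsum_one (q : P.FSt × ℕ) : C.wsum q 1 = vl (C.wd q.1 q.2) := by
  unfold wsum
  simp

/-- sums to the west are sums to the east -/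
lemma wsumW_eq {q : P.FSt × ℕ} (h : q.2 < k) (n : ℕ) :
    C.wsumW q (n + 1) = C.wsum ((px k)^[n] q) (n + 1) := by
  unfold wsum wsumW
  rw [← Finset.sum_range_reflect]
  apply Finset.sum_congr rfl
  intro j hj
  rw [Finset.mem_range] at hj
  rw [px_sub h (by omega : j ≤ n), show n + 1 - 1 - j = n - j by omega]

/-- the total of a rim from every position -/
lemma wsum_tot {B : ℕ} (hW : C.Words B) {q : P.FSt × ℕ} (hq : C.VR q.1) (hx : q.2 < k) :
    C.wsum q (minimalPeriod pE q.1 * k) = 2 * C.sg q.1.facet := by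
  obtain ⟨r, x⟩ := q
  have h1 := hW.tot r hq.1 hq.2
  have hx' : x < k := hx
  have h2 : (nx k)^[x] (r, 0) = (r, x) := by rw [nxi_col r (by omega), Nat.zero_add]
  have h3 := wsum_add (C := C) (r, 0) x (minimalPeriod pE r * k)
  have h4 := wsum_add (C := C) (r, 0) (minimalPeriod pE r * k) x
  rw [nxi_per r (by omega)] at h4
  rw [h2, Nat.add_comm x, h4, h1] at h3
  have h5 : C.wsum (r, x) (minimalPeriod pE r * k) = 2 * C.sg r.facet := by linarith
  exact h5

lemma wsumW_tot {B : ℕ} (hW : C.Words B) {q : P.FSt × ℕ} (hq : C.VR q.1) (hx : q.2 < k) :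
    C.wsumW q (minimalPeriod pE q.1 * k) = 2 * C.sg q.1.facet := by
  have hp : 0 < minimalPeriod pE q.1 * k :=
    Nat.mul_pos (Pool.Agent.MP42.minimalPeriod_pos' pE _) (by omega)
  obtain ⟨n, hn⟩ : ∃ n, minimalPeriod pE q.1 * k = n + 1 := ⟨_, (Nat.sub_add_cancel hp).symm⟩
  have hs := same_pxi hx n
  have h1 := wsum_tot hW (VR_same hq hs).1 (pxi_lt hx n)
  rw [per_same hs, hn, ← wsumW_eq hx, (VR_same hq hs).2] at h1
  rw [hn]
  exact h1

/-! ## the abstract walk -/

/-- the position in the certificate -/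
noncomputable def mu (C : JCertE P k) (q : C.rg.W × ℕ) : P.FSt × ℕ := (q.1.1, C.aC q.1.1 q.2)

open Classical in
/-- the step in the certificate -/
noncomputable def nF (C : JCertE P k) (q : P.FSt × ℕ) : P.FSt × ℕ :=
  if C.sg q.1.facet = -1 then px k q else nx k q

lemma nF_neg {q : P.FSt × ℕ} (h : C.sg q.1.facet = -1) : C.nF q = px k q := if_pos h
lemma nF_pos {q : P.FSt × ℕ} (h : C.sg q.1.facet ≠ -1) : C.nF q = nx k q := if_neg h

lemma mu_nx {q : C.rg.W × ℕ} (hx : q.2 < k) : C.mu (C.rg.nx q) = C.nF (C.mu q) := by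
  obtain ⟨r, x⟩ := q
  have hx' : x < k := hx
  by_cases hs : C.sg r.1.facet = -1
  · have e1 : C.mu (r, x) = (r.1, k - 1 - x) := Prod.ext rfl (C.aC_neg hs x)
    rw [e1, nF_neg (by exact hs)]
    unfold Rg0.nx px
    by_cases h1 : x + 1 < k
    · rw [if_pos (show (r, x).2 + 1 < k from h1), if_pos (by show 0 < k - 1 - x; omega)]
      refine Prod.ext rfl ?_
      show C.aC r.1 (x + 1) = k - 1 - x - 1
      rw [C.aC_neg hs]
      omega
    · rw [if_neg (show ¬ (r, x).2 + 1 < k from h1), if_neg (by show ¬ (0 < k - 1 - x); omega)]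
      refine Prod.ext (C.eF_neg hs) ?_
      show C.aC (C.eF r.1) 0 = k - 1
      rw [C.aC_neg (by rw [r.2.eF.2]; exact hs)]
      rfl
  · have e1 : C.mu (r, x) = (r.1, x) := Prod.ext rfl (C.aC_pos hs x)
    rw [e1, nF_pos (by exact hs)]
    unfold Rg0.nx nx
    by_cases h1 : x + 1 < k
    · rw [if_pos (show (r, x).2 + 1 < k from h1), if_pos h1]
      exact Prod.ext rfl (C.aC_pos hs (x + 1))
    · rw [if_neg (show ¬ (r, x).2 + 1 < k from h1), if_neg h1]
      refine Prod.ext (C.eF_pos hs) ?_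
      show C.aC (C.eF r.1) 0 = 0
      rw [C.aC_pos (by rw [r.2.eF.2]; exact hs)]

lemma sg_nx (q : C.rg.W × ℕ) : C.sg (C.rg.nx q).1.1.facet = C.sg q.1.1.facet := by
  unfold Rg0.nx
  split_ifs
  · rfl
  · exact q.1.2.eF.2

lemma sg_nxi (q : C.rg.W × ℕ) (n : ℕ) :
    C.sg (C.rg.nx^[n] q).1.1.facet = C.sg q.1.1.facet := by
  induction n with
  | zero => rfl
  | succ n ih => rw [iterate_succ_apply', sg_nx, ih]

lemma mu_nxi_pos {q : C.rg.W × ℕ} (hx : q.2 < k) (hs : C.sg q.1.1.facet ≠ -1) (n : ℕ) :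
    C.mu (C.rg.nx^[n] q) = (nx k)^[n] (C.mu q) := by
  induction n with
  | zero => rfl
  | succ n ih =>
    rw [iterate_succ_apply', iterate_succ_apply', mu_nx (Rg.iter_lt hx n), ih, ← ih, nF_pos]
    show C.sg (C.rg.nx^[n] q).1.1.facet ≠ -1
    rw [sg_nxi]
    exact hs

lemma mu_nxi_neg {q : C.rg.W × ℕ} (hx : q.2 < k) (hs : C.sg q.1.1.facet = -1) (n : ℕ) :
    C.mu (C.rg.nx^[n] q) = (px k)^[n] (C.mu q) := by
  induction n with
  | zero => rfl
  | succ n ih =>
    rw [iterate_succ_apply', iterate_succ_apply', mu_nx (Rg.iter_lt hx n), ih, ← ih, nF_neg]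
    show C.sg (C.rg.nx^[n] q).1.1.facet = -1
    rw [sg_nxi]
    exact hs

lemma wd_mu_pos {q : C.rg.W × ℕ} (hs : C.sg q.1.1.facet ≠ -1) :
    C.rg.wd q.1 q.2 = C.wd (C.mu q).1 (C.mu q).2 := by
  show C.aW q.1.1 q.2 = C.wd q.1.1 (C.aC q.1.1 q.2)
  rw [C.aW_pos hs, C.aC_pos hs]

lemma wd_mu_neg {q : C.rg.W × ℕ} (hs : C.sg q.1.1.facet = -1) :
    C.rg.wd q.1 q.2 = swL (C.wd (C.mu q).1 (C.mu q).2) := by
  show C.aW q.1.1 q.2 = swL (C.wd q.1.1 (C.aC q.1.1 q.2))
  rw [C.aW_neg hs, C.aC_neg hs]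

lemma wsum_mu_pos {q : C.rg.W × ℕ} (hx : q.2 < k) (hs : C.sg q.1.1.facet ≠ -1) (n : ℕ) :
    C.rg.wsum q n = C.wsum (C.mu q) n := by
  unfold Rg0.wsum wsum
  apply Finset.sum_congr rfl
  intro j _
  rw [wd_mu_pos (by rw [sg_nxi]; exact hs), mu_nxi_pos hx hs]

lemma wsum_mu_neg {q : C.rg.W × ℕ} (hx : q.2 < k) (hs : C.sg q.1.1.facet = -1) (n : ℕ) :
    C.rg.wsum q n = - C.wsumW (C.mu q) n := by
  unfold Rg0.wsum wsumW
  rw [← Finset.sum_neg_distrib]
  apply Finset.sum_congr rfl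
  intro j _
  rw [wd_mu_neg (by rw [sg_nxi]; exact hs), vl_swL, mu_nxi_neg hx hs]

/-! ## periods -/

lemma pFi_val (r : C.rg.W) (n : ℕ) :
    (C.sg r.1.facet ≠ -1 → (C.rg.E^[n] r).1 = pE^[n] r.1) ∧
    (C.sg r.1.facet = -1 → (C.rg.E^[n] r).1 = pE.symm^[n] r.1) ∧
    C.sg (C.rg.E^[n] r).1.facet = C.sg r.1.facet := by
  induction n with
  | zero => exact ⟨fun _ => rfl, fun _ => rfl, rfl⟩
  | succ n ih =>
    obtain ⟨h1, h2, h3⟩ := ih
    rw [iterate_succ_apply', iterate_succ_apply', iterate_succ_apply']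
    refine ⟨fun hs => ?_, fun hs => ?_, ?_⟩
    · show C.eF (C.rg.E^[n] r).1 = _
      rw [C.eF_pos (by rw [h3]; exact hs), h1 hs]
      rfl
    · show C.eF (C.rg.E^[n] r).1 = _
      rw [C.eF_neg (by rw [h3]; exact hs), h2 hs]
    · show C.sg (C.eF (C.rg.E^[n] r).1).facet = _
      rw [(C.rg.E^[n] r).2.eF.2, h3]

lemma per_rg (r : C.rg.W) : minimalPeriod C.rg.E r = minimalPeriod pE r.1 := by
  rw [minimalPeriod_eq_minimalPeriod_iff]
  intro n
  obtain ⟨h1, h2, -⟩ := pFi_val r n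
  have e1 : IsPeriodicPt C.rg.E n r ↔ (C.rg.E^[n] r).1 = r.1 :=
    ⟨fun h => congrArg Subtype.val h, fun h => Subtype.ext h⟩
  have e2 : IsPeriodicPt pE n r.1 ↔ pE^[n] r.1 = r.1 := Iff.rfl
  rw [e1, e2]
  by_cases hs : C.sg r.1.facet = -1
  · rw [h2 hs]
    have h3 : ∀ a : P.FSt, pE^[n] (pE.symm^[n] a) = a :=
      (Function.LeftInverse.iterate pE.apply_symm_apply n)
    have h4 : ∀ a : P.FSt, pE.symm^[n] (pE^[n] a) = a :=
      (Function.LeftInverse.iterate pE.symm_apply_apply n)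
    constructor
    · intro h
      have := h3 r.1
      rwa [h] at this
    · intro h
      have := h4 r.1
      rwa [h] at this
  · rw [h1 hs]

/-- the words of the rings -/
theorem rg_words {B : ℕ} (hW : C.Words B) (hk : 0 < k) : C.rg.Words B where
  bd := fun r x n hx hn => by
    rw [per_rg] at hn
    by_cases hs : C.sg r.1.facet = -1
    · rw [wsum_mu_neg (q := (r, x)) hx hs, abs_neg]
      rcases Nat.eq_zero_or_pos n with rfl | hn0
      · unfold wsumW
        simp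
      · obtain ⟨m, rfl⟩ : ∃ m, n = m + 1 := ⟨n - 1, by omega⟩
        have hlt : (C.mu (r, x)).2 < k := C.aC_lt hx
        rw [wsumW_eq hlt]
        have hsm := same_pxi hlt m
        obtain ⟨hv, -⟩ := VR_same (a := ((px k)^[m] (C.mu (r, x))).1) r.2 hsm
        have := hW.bd ((px k)^[m] (C.mu (r, x))).1 ((px k)^[m] (C.mu (r, x))).2 (m + 1) hv.1 hv.2
          (pxi_lt hlt m) (by rw [per_same hsm]; exact hn)
        exact this
    · rw [wsum_mu_pos (q := (r, x)) hx hs]
      exact hW.bd r.1 (C.aC r.1 x) n r.2.1 r.2.2 (C.aC_lt hx) hn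
  tot := fun r hr => by
    rw [per_rg]
    by_cases hs : C.sg r.1.facet = -1
    · rw [wsum_mu_neg (q := (r, 0)) hk hs]
      have := wsumW_tot hW (q := C.mu (r, 0)) r.2 (C.aC_lt hk)
      have e : (C.mu (r, 0)).1 = r.1 := rfl
      rw [e, hs] at this
      rw [this]
      norm_num
    · rw [wsum_mu_pos (q := (r, 0)) hk hs]
      have := wsum_tot hW (q := C.mu (r, 0)) r.2 (C.aC_lt hk)
      have e : (C.mu (r, 0)).1 = r.1 := rfl
      rw [e] at this
      rw [this]
      have h1 : C.sg r.1.facet ≠ 0 := hr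
      rcases C.sg_or r.1.facet r.2.2 with h | h | h
      · rw [h]; norm_num
      · exact absurd h hs
      · exact absurd h h1
  tot0 := fun r hr => by
    rw [per_rg]
    have h0 : C.sg r.1.facet = 0 := not_not.1 hr
    rw [wsum_mu_pos (q := (r, 0)) hk (by rw [h0]; decide)]
    have := wsum_tot hW (q := C.mu (r, 0)) r.2 (C.aC_lt hk)
    have e : (C.mu (r, 0)).1 = r.1 := rfl
    rw [e, h0] at this
    rw [this]
    norm_num

/-! ## bracket matching -/

/-- the position in the rings -/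
noncomputable def nu (C : JCertE P k) (q : P.FSt × ℕ) (hq : C.VR q.1) : C.rg.W × ℕ :=
  (⟨q.1, hq⟩, C.aC q.1 q.2)

lemma mu_nu {q : P.FSt × ℕ} (hq : C.VR q.1) (hx : q.2 < k) : C.mu (C.nu q hq) = q :=
  Prod.ext rfl (C.aC_aC hx)

lemma mu_inj {q q' : C.rg.W × ℕ} (hx : q.2 < k) (hx' : q'.2 < k) (h : C.mu q = C.mu q') :
    q = q' := by
  have h1 : q.1.1 = q'.1.1 := congrArg Prod.fst h
  have h2 : C.aC q.1.1 q.2 = C.aC q'.1.1 q'.2 := congrArg Prod.snd h
  refine Prod.ext (Subtype.ext h1) ?_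
  rw [h1] at h2
  have h3 := congrArg (C.aC q'.1.1) h2
  rwa [C.aC_aC hx, C.aC_aC hx'] at h3

/-- matched positions are matched in the rings, in one of the two orders -/
theorem matched_rg {q q' : P.FSt × ℕ} (hq : C.VR q.1) (hx : q.2 < k) (hq' : C.VR q'.1)
    (hx' : q'.2 < k) (h : C.Matched q q') :
    C.rg.Matched (C.nu q hq) (C.nu q' hq') ∨ C.rg.Matched (C.nu q' hq') (C.nu q hq) := by
  obtain ⟨h1, h2, n, hn, h3, h4, h5⟩ := h
  have hlt : (C.nu q hq).2 < k := C.aC_lt hx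
  have hlt' : (C.nu q' hq').2 < k := C.aC_lt hx'
  have hsg : C.sg q'.1.facet = C.sg q.1.facet := by
    have := same_nxi (k := k) q n
    rw [h3] at this
    exact (VR_same hq this).2
  by_cases hs : C.sg q.1.facet = -1
  · right
    have hs' : C.sg (C.nu q' hq').1.1.facet = -1 := hsg.trans hs
    have hs0 : C.sg (C.nu q hq).1.1.facet = -1 := hs
    refine ⟨?_, ?_, n, hn, ?_, ?_, ?_⟩
    · rw [wd_mu_neg hs', mu_nu hq' hx', h2]; rfl
    · rw [wd_mu_neg hs0, mu_nu hq hx, h1]; rfl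
    · apply mu_inj (Rg.iter_lt hlt' n) hlt
      rw [mu_nxi_neg hlt' hs', mu_nu hq' hx', mu_nu hq hx, ← h3, px_nxi hx]
    · -- sums
      rw [wsum_mu_neg hlt' hs', mu_nu hq' hx']
      obtain ⟨m, rfl⟩ : ∃ m, n = m + 1 := ⟨n - 1, by omega⟩
      rw [wsumW_eq hx', ← h3, nx_sub hx (by omega), show m + 1 - m = 1 by omega,
        iterate_one]
      have e1 := wsum_add (C := C) q 1 (m + 1)
      have e2 := wsum_succ (C := C) q (m + 1)
      rw [h3, h2, h4] at e2
      rw [Nat.add_comm 1 (m + 1), e2, wsum_one, h1, iterate_one] at e1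
      simp only [vl] at e1
      linarith
    · intro j hj1 hj2
      rw [wsum_mu_neg hlt' hs', mu_nu hq' hx']
      obtain ⟨m, rfl⟩ : ∃ m, j = m + 1 := ⟨j - 1, by omega⟩
      rw [wsumW_eq hx', ← h3, nx_sub hx (by omega)]
      have e1 := wsum_add (C := C) q (n - m) (m + 1)
      have e2 := wsum_succ (C := C) q n
      rw [h3, h2, h4] at e2
      rw [show n - m + (m + 1) = n + 1 by omega, e2] at e1
      simp only [vl] at e1
      have e3 := h5 (n - m) (by omega) (by omega)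
      linarith
  · left
    have hs' : C.sg (C.nu q hq).1.1.facet ≠ -1 := hs
    have hs0 : C.sg (C.nu q' hq').1.1.facet ≠ -1 := by
      intro h
      exact hs (hsg.symm.trans h)
    refine ⟨?_, ?_, n, hn, ?_, ?_, ?_⟩
    · rw [wd_mu_pos hs', mu_nu hq hx, h1]
    · rw [wd_mu_pos hs0, mu_nu hq' hx', h2]
    · apply mu_inj (Rg.iter_lt hlt n) hlt'
      rw [mu_nxi_pos hlt hs', mu_nu hq hx, mu_nu hq' hx', h3]
    · rw [wsum_mu_pos hlt hs', mu_nu hq hx, h4]
    · intro j hj1 hj2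
      rw [wsum_mu_pos hlt hs', mu_nu hq hx]
      exact h5 j hj1 hj2

/-- unmatched positions are unmatched in the rings, and the ring is not cut -/
theorem unmatched_rg {B : ℕ} (hW : C.Words B) {q : P.FSt × ℕ} (hq : C.VR q.1) (hx : q.2 < k)
    (h : C.Unmatched q) : C.rg.tr (C.nu q hq).1 ∧ C.rg.Unmatched (C.nu q hq) := by
  have hlt : (C.nu q hq).2 < k := C.aC_lt hx
  have hp : 1 ≤ minimalPeriod pE q.1 * k :=
    Nat.mul_pos (Pool.Agent.MP42.minimalPeriod_pos' pE _) (by omega)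
  have e1 := wsum_tot hW hq hx
  have e2 := wsumW_tot hW hq hx
  rcases h with ⟨h1, h2⟩ | ⟨h1, h2⟩
  · have h3 := h2 _ hp
    rw [e1] at h3
    have hs : C.sg q.1.facet ≠ -1 := by intro h; rw [h] at h3; omega
    have hs' : C.sg (C.nu q hq).1.1.facet ≠ -1 := hs
    refine ⟨?_, ?_, ?_⟩
    · show C.sg q.1.facet ≠ 0
      intro h; rw [h] at h3; omega
    · rw [wd_mu_pos hs', mu_nu hq hx, h1]
    · intro j hj
      rw [wsum_mu_pos hlt hs', mu_nu hq hx]
      exact h2 j hj
  · have h3 := h2 _ hp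
    rw [e2] at h3
    have hs : C.sg q.1.facet = -1 := by
      rcases C.sg_or q.1.facet hq.2 with h | h | h
      · rw [h] at h3; omega
      · exact h
      · rw [h] at h3; omega
    have hs' : C.sg (C.nu q hq).1.1.facet = -1 := hs
    refine ⟨?_, ?_, ?_⟩
    · show C.sg q.1.facet ≠ 0
      rw [hs]; decide
    · rw [wd_mu_neg hs', mu_nu hq hx, h1]; rfl
    · intro j hj
      rw [wsum_mu_neg hlt hs', mu_nu hq hx]
      have := h2 j hj
      linarith

/-- and conversely -/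
theorem unmatched_of_rg {q : C.rg.W × ℕ} (hx : q.2 < k) (h : C.rg.Unmatched q) :
    C.Unmatched (C.mu q) := by
  obtain ⟨h1, h2⟩ := h
  by_cases hs : C.sg q.1.1.facet = -1
  · right
    rw [wd_mu_neg hs, swL_n] at h1
    refine ⟨h1, fun j hj => ?_⟩
    have := h2 j hj
    rw [wsum_mu_neg hx hs] at this
    linarith
  · left
    rw [wd_mu_pos hs] at h1
    refine ⟨h1, fun j hj => ?_⟩
    have := h2 j hj
    rwa [wsum_mu_pos hx hs] at this

end JCertE

end Pool.Agent.MP42E
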