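import Pool.Agent.MP42.E.Wn
import Pool.Agent.MP42.G.WinR

/-!
# Signed reduction theorem: abstract rings, their windows (owner helper74)

`Rg k D`: the rim states of all core rings with heights, special states and parities.  `E` is the
walk along the rim, `T` the half turn (the other rim of the band).  All rings have total `2`
(`tr`) or `0` (cut rings).  The rings with `sg = -1` are used in the mirror image.
-/

set_option autoImplicit false
set_option linter.unusedSectionVars false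

namespace Pool.Agent.MP42E

open Pool.Agent.Helper55.UNF Pool.Agent.MP42G

/-! ## Rotated windows -/

namespace Wn

variable {k : ℕ} (w : Wn k)

lemma lo_le_hi (hk : 0 < k) {x : ℕ} (hx : x ≤ k) : w.lo x ≤ w.hi x + 1 := by
  rcases Nat.lt_or_ge x k with h | h
  · cases hs : w.sh x
    · exact (w.n2 x h hs).1
    · have := w.s0 x h hs
      omega
  · obtain ⟨y, rfl⟩ : ∃ y, x = y + 1 := ⟨x - 1, by omega⟩
    cases hs : w.sh y
    · exact (w.n2 y (by omega) hs).2.2.2
    · have := w.s0 y (by omega) hs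
      omega

/-- half turn of a window -/
def rot (hk : 0 < k) : Wn k where
  lo := fun x => k - 1 - w.hi (k - x)
  hi := fun x => k - 1 - w.lo (k - x)
  sh := fun x => w.sh (k - 1 - x)
  lt := fun x _ => by omega
  lk := fun x _ => by omega
  n0 := fun x hx hs => by
    have h1 := w.n1 (k - 1 - x) (by omega) hs
    have h2 := w.lt (k - 1 - x) (by omega)
    have h3 := w.lt (k - 1 - x + 1) (by omega)
    rw [show k - x = k - 1 - x + 1 by omega, show k - (x + 1) = k - 1 - x by omega]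
    omega
  n1 := fun x hx hs => by
    have h1 := w.n0 (k - 1 - x) (by omega) hs
    have h2 := w.lk (k - 1 - x) (by omega)
    have h3 := w.lk (k - 1 - x + 1) (by omega)
    rw [show k - x = k - 1 - x + 1 by omega, show k - (x + 1) = k - 1 - x by omega]
    omega
  n2 := fun x hx hs => by
    have h1 := w.n2 (k - 1 - x) (by omega) hs
    have h2 := w.lt (k - 1 - x) (by omega)
    have h3 := w.lt (k - 1 - x + 1) (by omega)
    have h4 := w.lk (k - 1 - x) (by omega)
    have h5 := w.lk (k - 1 - x + 1) (by omega)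
    rw [show k - x = k - 1 - x + 1 by omega, show k - (x + 1) = k - 1 - x by omega]
    omega
  s0 := fun x hx hs => by
    have h1 := w.s0 (k - 1 - x) (by omega) hs
    have h2 := w.lt (k - 1 - x) (by omega)
    have h3 := w.lt (k - 1 - x + 1) (by omega)
    have h4 := w.lk (k - 1 - x) (by omega)
    have h5 := w.lk (k - 1 - x + 1) (by omega)
    rw [show k - x = k - 1 - x + 1 by omega, show k - (x + 1) = k - 1 - x by omega]
    omega

lemma rot_lo (hk : 0 < k) (x : ℕ) : (w.rot hk).lo x = k - 1 - w.hi (k - x) := rfl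
lemma rot_hi (hk : 0 < k) (x : ℕ) : (w.rot hk).hi x = k - 1 - w.lo (k - x) := rfl
lemma rot_sh (hk : 0 < k) (x : ℕ) : (w.rot hk).sh x = w.sh (k - 1 - x) := rfl

lemma rot_pr (hk : 0 < k) {x y : ℕ} (hx : x ≤ k) (hy : y < k) :
    (w.rot hk).pr x y = w.pr (k - x) (k - 1 - y) := by
  have h1 := w.lt (k - x) (by omega)
  have h2 := w.lk (k - x) (by omega)
  unfold pr
  rw [rot_lo, rot_hi]
  congr 1
  apply propext
  constructor <;> intro h <;> omega

lemma rot_la (hk : 0 < k) {x y : ℕ} (hx : x < k) (hy : y ≤ k) :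
    (w.rot hk).la x y = w.la (k - 1 - x) (k - y) := by
  have h1 := w.lt (k - 1 - x) (by omega)
  have h2 := w.lt (k - 1 - x + 1) (by omega)
  have h4 := w.lk (k - 1 - x) (by omega)
  have h5 := w.lk (k - 1 - x + 1) (by omega)
  unfold la
  rw [rot_lo, rot_hi, rot_lo, rot_hi, rot_sh]
  rw [show k - x = k - 1 - x + 1 by omega, show k - (x + 1) = k - 1 - x by omega]
  cases hs : w.sh (k - 1 - x)
  · have h6 := w.n2 (k - 1 - x) (by omega) hs
    have h7 := w.n1 (k - 1 - x) (by omega) hs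
    have h8 := w.n0 (k - 1 - x) (by omega) hs
    simp only [Bool.false_eq_true, if_false]
    unfold lnd
    split_ifs <;> first | rfl | (exfalso; omega)
  · have h6 := w.s0 (k - 1 - x) (by omega) hs
    simp only [if_true]
    split_ifs <;> first | rfl | (exfalso; omega)

end Wn

/-! ## Rings -/

/-- the rim states of the core rings -/
structure Rg0 (k : ℕ) where
  W : Type
  fin : Finite W
  /-- the walk along the rim -/
  E : Equiv.Perm W
  /-- the half turn -/
  T : W → W
  TT : ∀ r, T (T r) = r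
  ET : ∀ r, E (T (E r)) = T r
  /-- north is up -/
  U : W → Prop
  U_E : ∀ r, U (E r) ↔ U r
  U_T : ∀ r, U (T r) ↔ ¬ U r
  /-- the word -/
  wd : W → ℕ → Ln
  /-- the rings that are not cut -/
  tr : W → Prop
  tr_E : ∀ r, tr (E r) ↔ tr r
  tr_T : ∀ r, tr (T r) ↔ tr r
  free : ∀ r, tr r → ∀ x < k, (x < 2 ∨ k ≤ x + 2) → wd r x = Ln.z

namespace Rg0

variable {k : ℕ} (A : Rg0 k)

open Classical in
/-- shift columns of the special states -/
noncomputable def shc (sp : A.W → Prop) (r : A.W) (x : ℕ) : Bool :=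
  decide (sp r ∧ (if A.U r then k ≤ x + 2 else x < 2))

lemma shc_true {sp : A.W → Prop} {r : A.W} {x : ℕ} :
    A.shc sp r x = true ↔ sp r ∧ ((A.U r → k ≤ x + 2) ∧ (¬ A.U r → x < 2)) := by
  classical
  unfold shc
  rw [decide_eq_true_iff]
  by_cases h : A.U r
  · rw [if_pos h]
    exact and_congr_right fun _ => ⟨fun h1 => ⟨fun _ => h1, fun h2 => absurd h h2⟩, fun h1 => h1.1 h⟩
  · rw [if_neg h]
    exact and_congr_right fun _ => ⟨fun h1 => ⟨fun h2 => absurd h2 h, fun _ => h1⟩, fun h1 => h1.2 h⟩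

lemma shc_T {sp : A.W → Prop} (hsp : ∀ r, sp (A.T r) ↔ sp r) {r : A.W} {x : ℕ} (hx : x < k) :
    A.shc sp (A.T r) (k - 1 - x) = A.shc sp r x := by
  rw [Bool.eq_iff_iff, shc_true, shc_true, hsp, A.U_T]
  apply and_congr_right
  intro _
  by_cases hu : A.U r
  · constructor
    · rintro ⟨-, h⟩
      have := h (by exact not_not.2 hu)
      exact ⟨fun _ => by omega, fun h2 => absurd hu h2⟩
    · rintro ⟨h, -⟩
      have := h hu
      exact ⟨fun h2 => absurd hu h2, fun _ => by omega⟩
  · constructor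
    · rintro ⟨h, -⟩
      have := h hu
      exact ⟨fun h2 => absurd h2 hu, fun _ => by omega⟩
    · rintro ⟨-, h⟩
      have := h hu
      exact ⟨fun _ => by omega, fun h2 => absurd hu h2⟩

lemma shc_free {sp : A.W → Prop} {r : A.W} {x : ℕ} (h : A.shc sp r x = true) :
    x < 2 ∨ k ≤ x + 2 := by
  rw [shc_true] at h
  obtain ⟨-, h1, h2⟩ := h
  by_cases hu : A.U r
  · exact Or.inr (h1 hu)
  · exact Or.inl (h2 hu)

/-- the next column on a rim -/
def nx (q : A.W × ℕ) : A.W × ℕ := if q.2 + 1 < k then (q.1, q.2 + 1) else (A.E q.1, 0)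

/-- sum of the next `n` letters of the word of a rim -/
def wsum (q : A.W × ℕ) (n : ℕ) : ℤ :=
  ∑ j ∈ Finset.range n, vl (A.wd (A.nx^[j] q).1 (A.nx^[j] q).2)

/-- bracket matching: `q` opens a strand and `q'` closes it -/
def Matched (q q' : A.W × ℕ) : Prop :=
  A.wd q.1 q.2 = Ln.n ∧ A.wd q'.1 q'.2 = Ln.s ∧ ∃ n, 1 ≤ n ∧ A.nx^[n] q = q' ∧
    A.wsum q n = 1 ∧ ∀ j, 1 ≤ j → j ≤ n → 1 ≤ A.wsum q j

/-- `q` opens a strand that is never closed -/
def Unmatched (q : A.W × ℕ) : Prop := A.wd q.1 q.2 = Ln.n ∧ ∀ j, 1 ≤ j → 1 ≤ A.wsum q j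

/-- The words: total `2` or `0`, and partial sums are bounded. -/
structure Words (B : ℕ) : Prop where
  bd : ∀ r x n, x < k → n ≤ Function.minimalPeriod A.E r * k → |A.wsum (r, x) n| ≤ B
  tot : ∀ r, A.tr r → A.wsum (r, 0) (Function.minimalPeriod A.E r * k) = 2
  tot0 : ∀ r, ¬ A.tr r → A.wsum (r, 0) (Function.minimalPeriod A.E r * k) = 0

end Rg0

/-- heights on the rims, special states and parities -/
structure Rg {k : ℕ} (A : Rg0 k) (D : ℕ) where
  hk : 2 * D + 2 ≤ k
  hD : 1 ≤ D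
  /-- the special states: one in every ring that is not cut -/
  sp : A.W → Prop
  sp_tr : ∀ r, sp r → A.tr r
  sp_T : ∀ r, sp (A.T r) ↔ sp r
  sp_ex : ∀ r, A.tr r → ∃! a, A.E.SameCycle r a ∧ sp a
  /-- the height on the line `x` -/
  H : A.W → ℕ → ℕ
  H_le : ∀ r x, x ≤ k → H r x ≤ D
  H_x : ∀ r x, x < k →
    (H r (x + 1) : ℤ) + (if A.shc sp r x then 1 else 0) = H r x + vl (A.wd r x)
  H_E : ∀ r, H (A.E r) 0 = H r k
  H_0 : ∀ r, ¬ A.tr r → ∃ a x, A.E.SameCycle r a ∧ x < k ∧ H a x = 0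
  /-- parity -/
  t : A.W → Bool
  t_E : ∀ r, t (A.E r) = t r
  t_T : ∀ r, t (A.T r) = t r

namespace Rg

variable {k D : ℕ} {A : Rg0 k} (R : Rg A D)

include R in
lemma hk4 : 4 ≤ k := by
  have := R.hk
  have := R.hD
  omega

open Classical in
/-- number of the core rows -/
noncomputable def tc (r : A.W) : ℕ := if A.tr r then (if R.t r then 2 else 1) else 0

open Classical in
/-- the row of level `0` in the frame of the rim state `r` -/
noncomputable def base (r : A.W) : ℕ := if A.U r then D else k - D - R.tc r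

lemma tc_le (r : A.W) : R.tc r ≤ 2 := by unfold tc; split_ifs <;> omega

lemma tc_pos {r : A.W} (h : A.tr r) : 1 ≤ R.tc r := by
  unfold tc
  rw [if_pos h]
  split_ifs <;> omega

lemma tc_cut {r : A.W} (h : ¬ A.tr r) : R.tc r = 0 := by
  unfold tc
  rw [if_neg h]

lemma tc_T (r : A.W) : R.tc (A.T r) = R.tc r := by
  by_cases h : A.tr r
  · unfold tc
    rw [R.t_T, if_pos h, if_pos ((A.tr_T r).2 h)]
  · rw [R.tc_cut h, R.tc_cut fun h' => h ((A.tr_T r).1 h')]

lemma tc_E (r : A.W) : R.tc (A.E r) = R.tc r := by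
  by_cases h : A.tr r
  · unfold tc
    rw [R.t_E, if_pos h, if_pos ((A.tr_E r).2 h)]
  · rw [R.tc_cut h, R.tc_cut fun h' => h ((A.tr_E r).1 h')]

lemma base_E (r : A.W) : R.base (A.E r) = R.base r := by
  unfold base
  rw [R.tc_E]
  by_cases h : A.U r
  · rw [if_pos h, if_pos ((A.U_E r).2 h)]
  · rw [if_neg h, if_neg fun h' => h ((A.U_E r).1 h')]

lemma base_add (r : A.W) : R.base r + R.tc r + R.base (A.T r) = k := by
  have h1 := R.hk
  have h2 := R.tc_le r
  have h3 := A.U_T r
  unfold base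
  rw [R.tc_T]
  by_cases hu : A.U r
  · rw [if_pos hu, if_neg (by rw [h3]; exact not_not.2 hu)]
    omega
  · rw [if_neg hu, if_pos (h3.2 hu)]
    omega

lemma D_le_base (r : A.W) : D ≤ R.base r := by
  have h1 := R.hk
  have h2 := R.tc_le r
  unfold base
  split_ifs <;> omega

lemma H_le_base (r : A.W) {x : ℕ} (hx : x ≤ k) : R.H r x ≤ R.base r :=
  (R.H_le r x hx).trans (R.D_le_base r)

lemma H_sh {r : A.W} {x : ℕ} (hx : x < k) (hs : A.shc R.sp r x = true) :
    R.H r x = R.H r (x + 1) + 1 := by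
  have h1 := R.H_x r x hx
  rw [if_pos hs, A.free r (R.sp_tr r (A.shc_true.1 hs).1) x hx (A.shc_free hs)] at h1
  simp only [vl] at h1
  omega

lemma H_not {r : A.W} {x : ℕ} (hx : x < k) (hs : A.shc R.sp r x = false) :
    (R.H r (x + 1) : ℤ) = R.H r x + vl (A.wd r x) := by
  have h1 := R.H_x r x hx
  rw [if_neg (by rw [hs]; decide)] at h1
  omega

lemma shc_T {r : A.W} {x : ℕ} (hx : x < k) :
    A.shc R.sp (A.T r) (k - 1 - x) = A.shc R.sp r x := A.shc_T R.sp_T hx

lemma tr_of_sh {r : A.W} {x : ℕ} (hs : A.shc R.sp r x = true) : A.tr r :=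
  R.sp_tr r (A.shc_true.1 hs).1

/-- the window of a rim state, in its own frame -/
noncomputable def win (r : A.W) : Wn k where
  lo := fun x => R.base r - R.H r x
  hi := fun x => k - 1 - (R.base (A.T r) - R.H (A.T r) (k - x))
  sh := fun x => A.shc R.sp r x
  lt := fun x _ => by
    have := R.hk4
    omega
  lk := fun x _ => by
    have h5 := R.base_add r
    have h6 := R.D_le_base (A.T r)
    have h7 := R.hD
    omega
  n0 := fun x hx hs => by
    have h1 := R.H_not hx hs
    have h2 := R.H_le_base r (x := x) hx.le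
    have h3 := R.H_le_base r (x := x + 1) hx
    rcases JCert.vl_cases (A.wd r x) with h4 | h4 | h4 <;> rw [h4] at h1 <;> omega
  n1 := fun x hx hs => by
    have h1 := R.H_not (r := A.T r) (x := k - 1 - x) (by omega) (by rw [R.shc_T hx]; exact hs)
    rw [show k - 1 - x + 1 = k - x by omega] at h1
    rw [show k - (x + 1) = k - 1 - x by omega]
    have h2 := R.H_le_base (A.T r) (x := k - x) (by omega)
    have h3 := R.H_le_base (A.T r) (x := k - 1 - x) (by omega)
    have h5 := R.base_add r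
    have h6 := R.D_le_base r
    have h7 := R.hD
    rcases JCert.vl_cases (A.wd (A.T r) (k - 1 - x)) with h4 | h4 | h4 <;> rw [h4] at h1 <;> omega
  n2 := fun x hx hs => by
    have h2 := R.H_le_base (A.T r) (x := k - x) (by omega)
    have h3 := R.H_le_base (A.T r) (x := k - (x + 1)) (by omega)
    have h5 := R.base_add r
    have h6 := R.D_le_base r
    have h7 := R.hD
    omega
  s0 := fun x hx hs => by
    have h1 := R.H_sh hx hs
    have h2 := R.H_sh (r := A.T r) (x := k - 1 - x) (by omega) (by rw [R.shc_T hx]; exact hs)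
    rw [show k - 1 - x + 1 = k - x by omega] at h2
    rw [show k - (x + 1) = k - 1 - x by omega]
    have h3 := R.H_le_base r (x := x) hx.le
    have h4 := R.H_le_base (A.T r) (x := k - 1 - x) (by omega)
    have h5 := R.base_add r
    have h6 := R.tc_pos (R.tr_of_sh hs)
    omega

lemma win_lo (r : A.W) (x : ℕ) : (R.win r).lo x = R.base r - R.H r x := rfl

lemma win_hi (r : A.W) (x : ℕ) :
    (R.win r).hi x = k - 1 - (R.base (A.T r) - R.H (A.T r) (k - x)) := rfl

lemma win_sh (r : A.W) (x : ℕ) : (R.win r).sh x = A.shc R.sp r x := rfl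

include R in
lemma k_pos : 0 < k := by have := R.hk4; omega

lemma win_T_lo (r : A.W) {x : ℕ} (hx : x ≤ k) :
    (R.win (A.T r)).lo x = ((R.win r).rot R.k_pos).lo x := by
  rw [Wn.rot_lo, win_hi, win_lo]
  have h5 := R.base_add r
  have h6 := R.D_le_base r
  have h7 := R.hD
  rw [show k - (k - x) = x by omega]
  omega

lemma win_T_hi (r : A.W) {x : ℕ} (_hx : x ≤ k) :
    (R.win (A.T r)).hi x = ((R.win r).rot R.k_pos).hi x := by
  rw [Wn.rot_hi, win_hi, win_lo, A.TT]

lemma win_T_sh (r : A.W) {x : ℕ} (hx : x < k) :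
    (R.win (A.T r)).sh x = ((R.win r).rot R.k_pos).sh x := by
  rw [Wn.rot_sh, win_sh, win_sh, ← R.shc_T (x := k - 1 - x) (by omega)]
  congr 1
  omega

lemma win_T_pr (r : A.W) {x y : ℕ} (hx : x ≤ k) (hy : y < k) :
    (R.win (A.T r)).pr x y = (R.win r).pr (k - x) (k - 1 - y) := by
  rw [← Wn.rot_pr _ R.k_pos hx hy]
  unfold Wn.pr
  rw [R.win_T_lo r hx, R.win_T_hi r hx]

lemma win_T_la (r : A.W) {x y : ℕ} (hx : x < k) (hy : y ≤ k) :
    (R.win (A.T r)).la x y = (R.win r).la (k - 1 - x) (k - y) := by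
  rw [← Wn.rot_la _ R.k_pos hx hy]
  unfold Wn.la
  rw [R.win_T_lo r hx.le, R.win_T_hi r hx.le, R.win_T_lo r (x := x + 1) hx,
    R.win_T_hi r (x := x + 1) hx, R.win_T_sh r hx]

lemma win_bot (r : A.W) {x : ℕ} (hx : x < k) : (R.win r).bot x = A.wd r x := by
  unfold Wn.bot
  rw [win_sh, win_lo, win_lo]
  cases hs : A.shc R.sp r x
  · have h1 := R.H_not hx hs
    have h2 := R.H_le_base r (x := x) hx.le
    have h3 := R.H_le_base r (x := x + 1) hx
    rw [if_neg (by decide)]
    unfold lnd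
    rcases JCert.vl_cases (A.wd r x) with h4 | h4 | h4
    · rw [JCert.vl_z.1 h4]
      rw [h4] at h1
      rw [if_neg (by omega), if_neg (by omega)]
    · rw [JCert.vl_n.1 h4]
      rw [h4] at h1
      rw [if_pos (by omega)]
    · rw [JCert.vl_s.1 h4]
      rw [h4] at h1
      rw [if_neg (by omega), if_pos (by omega)]
  · rw [if_pos rfl, A.free r (R.tr_of_sh hs) x hx (A.shc_free hs)]

lemma win_top (r : A.W) {x : ℕ} (hx : x < k) :
    (R.win r).top x = A.wd (A.T r) (k - 1 - x) := by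
  have h1 := R.win_bot (A.T r) (x := k - 1 - x) (by omega)
  have h2 := (R.win (A.T r)).la_bot (k - 1 - x)
  have h3 := (R.win r).la_top hx
  rw [R.win_T_la r (by omega) (Nat.zero_le k)] at h2
  rw [show k - 1 - (k - 1 - x) = x by omega, Nat.sub_zero] at h2
  rw [← h1, ← h2, h3]

lemma win_E_lo (r : A.W) : (R.win (A.E r)).lo 0 = (R.win r).lo k := by
  rw [win_lo, win_lo, R.base_E, R.H_E r]

lemma win_E_hi (r : A.W) : (R.win (A.E r)).hi 0 = (R.win r).hi k := by
  rw [win_hi, win_hi]
  have h1 := R.H_E (A.T (A.E r))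
  rw [A.ET] at h1
  have h2 : R.base (A.T (A.E r)) = R.base (A.T r) := by
    rw [← R.base_E (A.T (A.E r)), A.ET]
  rw [h2, Nat.sub_zero, Nat.sub_self, h1]

lemma win_E_pr (r : A.W) (y : ℕ) : (R.win (A.E r)).pr 0 y = (R.win r).pr k y := by
  unfold Wn.pr
  rw [R.win_E_lo r, R.win_E_hi r]

lemma core_row (r : A.W) {y : ℕ} (h1 : R.base r ≤ y) (h2 : y < R.base r + R.tc r) {x : ℕ}
    (_hx : x ≤ k) : (R.win r).pr x y = true := by
  rw [Wn.pr_true, win_lo, win_hi]
  have h5 := R.base_add r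
  omega

end Rg

/-- the values on the strands and lanes of the rings -/
structure RInv {k D : ℕ} {A : Rg0 k} (R : Rg A D) (vS hS : A.W → ℕ → ℕ → Prop) : Prop where
  rel : ∀ r, CellRel k (R.win r).pr (R.win r).la (vS r) (hS r)
  gl : ∀ r, ∀ y < k, (R.win r).pr k y = true → (vS r k y ↔ vS (A.E r) 0 y)
  vT : ∀ r x y, x ≤ k → y < k → (vS (A.T r) x y ↔ vS r (k - x) (k - 1 - y))
  hT : ∀ r x y, x < k → y ≤ k → (hS (A.T r) x y ↔ hS r (k - 1 - x) (k - y))

end Pool.Agent.MP42E
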