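import Pool.Agent.MP42.E.WinR

/-!
# Signed reduction theorem: strands of the core walls, in the S-reading

Text of `G/Track.lean` (helper53), adapted.
-/

set_option autoImplicit false
set_option linter.unusedSectionVars false

namespace Pool.Agent.MP42E

open Pool.Agent.Helper55.UNF Pool.Agent.Helper55.UNF.GridSolid Pool.Agent.MP42G
open Pool.Agent.MP42G.JCert (shc shc_true shc_r2 shc_free vl_z vl_n vl_s vl_cases c0)

namespace JCertE

variable {P : GridSolid} {k : ℕ} {C : JCertE P k} {D : ℕ} {R : C.Rims D}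
  {ψ χ : P.Facet → ℕ → ℕ → Prop}

/-! ## One column -/

section Col

variable (I : RInv R ψ χ) {r : P.FSt} (h : IsV r ∧ C.core r.facet)
include I h

lemma lo_x {x : ℕ} (hx : x ≤ k) : (R.win r h).lo x + R.H r x = R.base r := by
  rw [Rims.win_lo]
  have := R.H_le_base h hx
  omega

lemma core_le_hi (x : ℕ) : R.base r + R.tc r ≤ (R.win r h).hi x + 1 := by
  rw [Rims.win_hi]
  have h1 := R.base_add h.1
  have h2 := R.base_lt (Rims.vr2 h).1
  omega

/-- a strand of level `l ≥ 1` or a core strand runs straight -/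
lemma col_straight {x y : ℕ} (hx : x < k) (hs : shc k R.sp r x = false)
    (h1 : R.base r ≤ y + R.H r x) (h2 : R.base r ≤ y + R.H r (x + 1))
    (h3 : y < R.base r + R.tc r) : C.vS ψ r x y ↔ C.vS ψ r (x + 1) y := by
  have a1 := lo_x I h hx.le
  have a2 := lo_x I h (x := x + 1) hx
  have a3 := core_le_hi I h x
  have a4 := core_le_hi I h (x + 1)
  exact (R.win r h).straight (I.rel r h) hx hs (by omega) (by omega) (by omega) (by omega)

/-- in a shift column the strands move up -/
lemma col_shift {x y : ℕ} (hx : x < k) (hs : shc k R.sp r x = true)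
    (h1 : R.base r ≤ y + R.H r x) (h3 : y < R.base r + R.tc r) :
    (C.vS ψ r x y ↔ C.hS χ r x (y + 1)) ∧ (C.hS χ r x (y + 1) ↔ C.vS ψ r (x + 1) (y + 1)) := by
  have a1 := lo_x I h hx.le
  have a3 := core_le_hi I h x
  exact (R.win r h).shift (I.rel r h) hx hs (by omega) (by omega)

/-- a lane to the north opens a strand -/
lemma col_open {x : ℕ} (hx : x < k) (hn : C.wdS r x = Ln.n) :
    shc k R.sp r x = false ∧ R.H r (x + 1) = R.H r x + 1 ∧
    (C.fvS χ r x ↔ C.vS ψ r (x + 1) (R.base r - R.H r (x + 1))) := by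
  have hs : shc k R.sp r x = false := by
    cases hs : shc k R.sp r x
    · rfl
    · have := R.shc_free' h hx hs
      rw [hn] at this
      exact absurd this (by decide)
  have h1 := R.H_not h hx hs
  rw [hn] at h1
  simp only [vl] at h1
  have a1 := lo_x I h hx.le
  have a2 := lo_x I h (x := x + 1) hx
  refine ⟨hs, by omega, ?_⟩
  rw [C.fvS_eq]
  exact ((R.win r h).enter_low (I.rel r h) hx hs (by omega)).2

/-- a lane to the south closes the lowest strand -/
lemma col_close {x : ℕ} (hx : x < k) (hn : C.wdS r x = Ln.s) :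
    shc k R.sp r x = false ∧ R.H r x = R.H r (x + 1) + 1 ∧
    (C.fvS χ r x ↔ C.vS ψ r x (R.base r - R.H r x)) := by
  have hs : shc k R.sp r x = false := by
    cases hs : shc k R.sp r x
    · rfl
    · have := R.shc_free' h hx hs
      rw [hn] at this
      exact absurd this (by decide)
  have h1 := R.H_not h hx hs
  rw [hn] at h1
  simp only [vl] at h1
  have a1 := lo_x I h hx.le
  have a2 := lo_x I h (x := x + 1) hx
  refine ⟨hs, by omega, ?_⟩
  rw [C.fvS_eq]
  exact ((R.win r h).leave_low (I.rel r h) hx hs (by omega)).2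

end Col

/-! ## Positions -/

/-- the height before the position `q` -/
def Rims.Hq (R : C.Rims D) (q : P.FSt × ℕ) : ℕ := R.H q.1 q.2

/-- valid positions -/
def Ok (C : JCertE P k) (q : P.FSt × ℕ) : Prop := (IsV q.1 ∧ C.core q.1.facet) ∧ q.2 < k

lemma Ok.nx {q : P.FSt × ℕ} (h : Ok C q) : Ok C (C.nxS q) := by
  unfold JCertE.nxS
  split_ifs with h1
  · exact ⟨h.1, h1⟩
  · exact ⟨Rims.vS' h.1, by
      have := h.2
      show 0 < k
      omega⟩

lemma Ok.iter {q : P.FSt × ℕ} (h : Ok C q) (n : ℕ) : Ok C ((C.nxS)^[n] q) := by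
  induction n with
  | zero => exact h
  | succ n ih =>
    rw [Function.iterate_succ_apply']
    exact ih.nx

lemma Hq_nx {q : P.FSt × ℕ} (h : Ok C q) : R.Hq (C.nxS q) = R.H q.1 (q.2 + 1) := by
  unfold nxS Rims.Hq
  split_ifs with h1
  · rfl
  · have h2 := R.H_E q.1 h.1.1 h.1.2
    have h3 : q.2 + 1 = k := by have := h.2; omega
    rw [h3]
    exact h2

lemma base_nx {q : P.FSt × ℕ} : R.base (C.nxS q).1 = R.base q.1 := by
  unfold nxS
  split_ifs with h1
  · rfl
  · exact R.base_S _

lemma base_iter {q : P.FSt × ℕ} (n : ℕ) : R.base ((C.nxS)^[n] q).1 = R.base q.1 := by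
  induction n with
  | zero => rfl
  | succ n ih => rw [Function.iterate_succ_apply', base_nx, ih]

/-- the value after a column is the value before the next position -/
lemma val_nx (I : RInv R ψ χ) {q : P.FSt × ℕ} (h : Ok C q) {y : ℕ}
    (h1 : R.base q.1 ≤ y + R.H q.1 (q.2 + 1)) (h3 : y < R.base q.1 + R.tc q.1) :
    C.vS ψ q.1 (q.2 + 1) y ↔ C.vS ψ (C.nxS q).1 (C.nxS q).2 y := by
  unfold nxS
  split_ifs with h2
  · exact Iff.rfl
  · have h4 : q.2 + 1 = k := by have := h.2; omega
    rw [h4] at h1 ⊢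
    have a1 := lo_x I h.1 (le_refl k)
    have a3 := core_le_hi I h.1 k
    have a4 := (R.win q.1 h.1).lt k le_rfl
    exact I.gl q.1 h.1 y (by omega) ((R.win q.1 h.1).pr_true.2 ⟨by omega, by omega⟩)

open Classical in
/-- 1 in the shift columns -/
noncomputable def shq (R : C.Rims D) (q : P.FSt × ℕ) : ℕ := if shc k R.sp q.1 q.2 = true then 1 else 0

lemma Hq_step {q : P.FSt × ℕ} (h : Ok C q) :
    (R.Hq (C.nxS q) : ℤ) + shq R q = R.Hq q + vl (C.wdS q.1 q.2) := by
  rw [Hq_nx h]
  unfold shq
  have := R.H_x q.1 q.2 h.1.1 h.1.2 h.2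
  split_ifs at this ⊢ with h1
  · exact this
  · exact this

lemma wsumS_succ (q : P.FSt × ℕ) (n : ℕ) : C.wsumS q (n + 1) =
    C.wsumS q n + vl (C.wdS ((C.nxS)^[n] q).1 ((C.nxS)^[n] q).2) := by
  unfold wsumS
  rw [Finset.sum_range_succ]

lemma wsumS_one (q : P.FSt × ℕ) : C.wsumS q 1 = vl (C.wdS q.1 q.2) := by
  unfold wsumS
  simp

/-- the level of the strand that is opened at `q`, after `j` steps -/
noncomputable def lev (R : C.Rims D) (q : P.FSt × ℕ) (j : ℕ) : ℤ :=
  R.Hq ((C.nxS)^[j] q) - C.wsumS q j + 1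

lemma lev_succ {q : P.FSt × ℕ} (h : Ok C q) (j : ℕ) :
    lev R q (j + 1) = lev R q j - shq R ((C.nxS)^[j] q) := by
  unfold lev
  have h1 := Hq_step (R := R) (h.iter j)
  rw [wsumS_succ, Function.iterate_succ_apply']
  linarith

lemma lev_anti {q : P.FSt × ℕ} (h : Ok C q) {i j : ℕ} (hij : i ≤ j) : lev R q j ≤ lev R q i := by
  induction j, hij using Nat.le_induction with
  | base => exact le_rfl
  | succ n hn ih =>
    rw [lev_succ h]
    have : (0 : ℤ) ≤ shq R ((C.nxS)^[n] q) := by positivity
    linarith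

/-- following the strand that is opened at `q` -/
lemma follow (I : RInv R ψ χ) {q : P.FSt × ℕ} (h : Ok C q) (hn : C.wdS q.1 q.2 = Ln.n) {n : ℕ}
    (hw : ∀ j, 1 ≤ j → j ≤ n → 1 ≤ C.wsumS q j) (hl : 1 ≤ lev R q n) (h1 : 1 ≤ n) :
    C.fvS χ q.1 q.2 ↔ C.vS ψ ((C.nxS)^[n] q).1 ((C.nxS)^[n] q).2
      (R.base q.1 - (lev R q n).toNat) := by
  induction n, h1 using Nat.le_induction with
  | base =>
    obtain ⟨h2, h3, h4⟩ := col_open I h.1 h.2 hn
    have h5 : lev R q 1 = R.H q.1 (q.2 + 1) := by
      unfold lev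
      rw [wsumS_one, hn, Function.iterate_one, Hq_nx h]
      simp [vl]
    have h6 := R.H_le_base h.1 (x := q.2 + 1) h.2
    rw [h4, Function.iterate_one, h5, Int.toNat_natCast]
    exact val_nx I h (by omega) (by omega)
  | succ n hn1 ih =>
    have h2 := lev_succ (R := R) h n
    have h0 : (0 : ℤ) ≤ shq R ((C.nxS)^[n] q) := by positivity
    rw [ih (fun j a b => hw j a (by omega)) (by linarith)]
    have ok := h.iter n
    have hb := base_iter (R := R) (q := q) n
    rw [Function.iterate_succ_apply']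
    set p := (C.nxS)^[n] q with hp
    have hHb := R.H_le_base ok.1 ok.2.le
    have hw1 := hw n (by omega) (by omega)
    have hw2 := hw (n + 1) (by omega) le_rfl
    have hHn := Hq_nx (R := R) ok
    have hlen : lev R q n = R.H p.1 p.2 - C.wsumS q n + 1 := rfl
    have hlen' : lev R q (n + 1) = R.H p.1 (p.2 + 1) - C.wsumS q (n + 1) + 1 := by
      unfold lev
      rw [Function.iterate_succ_apply', ← hp, hHn]
    have hHb' := R.H_le_base ok.1 (x := p.2 + 1) ok.2
    unfold shq at h2
    split_ifs at h2 with hs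
    · -- shift column
      obtain ⟨y, hy⟩ : ∃ y, R.base q.1 - (lev R q n).toNat = y := ⟨_, rfl⟩
      rw [hy, show R.base q.1 - (lev R q (n + 1)).toNat = y + 1 by omega]
      have h3 := col_shift I ok.1 ok.2 hs (y := y) (by omega) (by omega)
      rw [h3.1, h3.2]
      have hsh := R.H_sh ok.1 ok.2 hs
      exact val_nx I ok (by omega) (by omega)
    · have hs' : shc k R.sp p.1 p.2 = false := by
        cases hs2 : shc k R.sp p.1 p.2
        · rfl
        · exact absurd hs2 hs
      obtain ⟨y, hy⟩ : ∃ y, R.base q.1 - (lev R q n).toNat = y := ⟨_, rfl⟩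
      rw [hy, show R.base q.1 - (lev R q (n + 1)).toNat = y by omega]
      rw [col_straight I ok.1 ok.2 hs' (y := y) (by omega) (by omega) (by omega)]
      exact val_nx I ok (by omega) (by omega)

/-- **T2 (a)**: matched feet have the same value -/
theorem matched_of_inv (I : RInv R ψ χ) {r : P.FSt} {x : ℕ} {q' : P.FSt × ℕ} (hV : IsV r)
    (hC : C.core r.facet) (hx : x < k) (hm : C.MatchedS (r, x) q') :
    C.fvS χ r x ↔ C.fvS χ q'.1 q'.2 := by
  obtain ⟨h1, h2, n, hn, rfl, h3, h4⟩ := hm
  have ok : Ok C (r, x) := ⟨⟨hV, hC⟩, hx⟩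
  have ok' := ok.iter n
  obtain ⟨-, h5, h6⟩ := col_close I ok'.1 ok'.2 h2
  have h7 : lev R (r, x) n = R.Hq ((C.nxS)^[n] (r, x)) := by
    unfold lev
    rw [h3]
    ring
  have h8 : 1 ≤ R.Hq ((C.nxS)^[n] (r, x)) := by
    unfold Rims.Hq
    omega
  have h9 := follow I ok h1 h4 (by rw [h7]; exact_mod_cast h8) hn
  rw [h6]
  refine h9.trans ?_
  rw [h7, Int.toNat_natCast, base_iter]
  exact Iff.rfl

/-! ## Special facets are met -/

lemma iter_col (r : P.FSt) {x n : ℕ} (h : x + n < k) : (C.nxS)^[n] (r, x) = (r, x + n) := by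
  induction n with
  | zero => rfl
  | succ n ih =>
    rw [Function.iterate_succ_apply', ih (by omega)]
    unfold nxS
    rw [if_pos (by show x + n + 1 < k; omega)]
    rfl

lemma iter_facet (r : P.FSt) {x : ℕ} (h : x < k) : (C.nxS)^[k - x] (r, x) = ((C.pS r), 0) := by
  obtain ⟨n, hn⟩ : ∃ n, k - x = n + 1 := ⟨k - x - 1, by omega⟩
  rw [hn, Function.iterate_succ_apply', iter_col r (by omega)]
  unfold nxS
  rw [if_neg (by show ¬ (x + n + 1 < k); omega)]

lemma iter_facets (hk : 0 < k) (r : P.FSt) (m : ℕ) : ∃ n, (C.nxS)^[n] (r, 0) = ((C.pS ^ m) r, 0) := by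
  induction m with
  | zero => exact ⟨0, rfl⟩
  | succ m ih =>
    obtain ⟨n, hn⟩ := ih
    refine ⟨(k - 0) + n, ?_⟩
    rw [Function.iterate_add_apply, hn, iter_facet _ hk, pow_succ']
    rfl

/-- every position is reached again -/
lemma exists_iter (hk : 0 < k) {r a : P.FSt} (h : C.pS.SameCycle r a) (x c : ℕ) (hx : x < k)
    (hc : c < k) : ∃ n, (C.nxS)^[n] (r, x) = (a, c) := by
  have h1 : C.pS.SameCycle (C.pS r) a := Equiv.Perm.sameCycle_apply_left.2 h
  obtain ⟨m, hm⟩ := h1.exists_nat_pow_eq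
  obtain ⟨n, hn⟩ := iter_facets hk (C.pS r) m
  refine ⟨c + (n + (k - x)), ?_⟩
  rw [Function.iterate_add_apply, Function.iterate_add_apply, iter_facet r hx, hn, hm,
    iter_col a (by omega), Nat.zero_add]

/-- the special facet in the S-reading -/
lemma spS_ex (R : C.Rims D) {r : P.FSt} (hV : IsV r) (hC : C.core r.facet)
    (hs0 : C.sg r.facet ≠ 0) : ∃! a, C.pS.SameCycle r a ∧ R.sp a.facet := by
  obtain ⟨a, ⟨h1, h2⟩, h3⟩ := R.sp_ex r hV hC hs0
  exact ⟨a, ⟨C.sameCycle_S.2 h1, h2⟩, fun b hb => h3 b ⟨C.sameCycle_S.1 hb.1, hb.2⟩⟩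

lemma shc_c0 (R : C.Rims D) {a : P.FSt} (ha : R.sp a.facet) {x : ℕ} (hx : x < k) :
    shc k R.sp a x = true ↔ x = c0 k a ∨ x = c0 k a + 1 := by
  have := R.hk4
  rw [shc_true]
  unfold c0
  by_cases hu : IsU a
  · rw [if_pos hu, if_pos hu]
    constructor
    · rintro ⟨-, h⟩; omega
    · intro h; exact ⟨ha, by omega⟩
  · rw [if_neg hu, if_neg hu]
    constructor
    · rintro ⟨-, h⟩; omega
    · intro h; exact ⟨ha, by omega⟩

/-- **T2 (b)**: a strand that is never closed leaves level 1 at the special facet -/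
theorem unmatched_port (I : RInv R ψ χ) {r : P.FSt} {x : ℕ} (hV : IsV r) (hC : C.core r.facet)
    (hs0 : C.sg r.facet ≠ 0) (hx : x < k) (hu : C.UnmatchedS (r, x)) :
    ∃ a j, C.pS.SameCycle r a ∧ R.sp a.facet ∧ j < 2 ∧ (C.fvS χ r x ↔ R.port χ a j) := by
  classical
  obtain ⟨h1, h2⟩ := hu
  have ok : Ok C (r, x) := ⟨⟨hV, hC⟩, hx⟩
  obtain ⟨a, ⟨ha, hsp⟩, -⟩ := spS_ex R hV hC hs0
  have hk4 := R.hk4
  have hc : c0 k a + 1 < k := by unfold c0; split_ifs <;> omega
  have hl1 : 1 ≤ lev R (r, x) 1 := by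
    obtain ⟨-, h4, -⟩ := col_open I ok.1 ok.2 h1
    have h5 : lev R (r, x) 1 = R.H r (x + 1) := by
      unfold lev
      rw [wsumS_one, h1, Function.iterate_one, Hq_nx ok]
      simp [vl]
    rw [h5]
    have h4' : R.H r (x + 1) = R.H r x + 1 := h4
    omega
  -- the levels go down to 0
  have key : ∀ l : ℕ, ∀ j, 1 ≤ j → lev R (r, x) j = (l : ℤ) + 1 →
      ∃ m, 1 ≤ m ∧ lev R (r, x) m = 1 ∧ shc k R.sp ((C.nxS)^[m] (r, x)).1
        ((C.nxS)^[m] (r, x)).2 = true := by
    intro l
    induction l with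
    | zero =>
      intro j hj hl
      -- the next shift column
      have hex : ∃ m, shc k R.sp ((C.nxS)^[j + m] (r, x)).1 ((C.nxS)^[j + m] (r, x)).2 = true := by
        have okj := ok.iter j
        have hsame : C.pS.SameCycle ((C.nxS)^[j] (r, x)).1 a := by
          have : ∀ n, C.pS.SameCycle r ((C.nxS)^[n] (r, x)).1 := by
            intro n
            induction n with
            | zero => exact Equiv.Perm.SameCycle.refl _ _
            | succ n ih =>
              rw [Function.iterate_succ_apply']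
              unfold nxS
              split_ifs
              · exact ih
              · exact Equiv.Perm.sameCycle_apply_right.2 ih
          exact (this j).symm.trans ha
        obtain ⟨n, hn⟩ := exists_iter (k := k) (by omega) hsame _ (c0 k a) okj.2 (by omega)
        refine ⟨n, ?_⟩
        rw [Nat.add_comm j n, Function.iterate_add_apply]
        have : ((C.nxS)^[n] ((C.nxS)^[j] (r, x))) = (a, c0 k a) := hn
        rw [this]
        exact (shc_c0 R hsp (by omega)).2 (Or.inl rfl)
      refine ⟨j + Nat.find hex, by omega, ?_, Nat.find_spec hex⟩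
      have hmin : ∀ i, i ≤ Nat.find hex → lev R (r, x) (j + i) = lev R (r, x) j := by
        intro i
        induction i with
        | zero => intro _; rfl
        | succ i ih =>
          intro hi
          rw [← Nat.add_assoc, lev_succ ok, ih (by omega)]
          have := Nat.find_min hex (m := i) (by omega)
          unfold shq
          rw [if_neg this]
          simp
      rw [hmin _ le_rfl, hl]
      simp
    | succ l ih =>
      intro j hj hl
      have hex : ∃ m, shc k R.sp ((C.nxS)^[j + m] (r, x)).1 ((C.nxS)^[j + m] (r, x)).2 = true := by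
        have okj := ok.iter j
        have hsame : C.pS.SameCycle ((C.nxS)^[j] (r, x)).1 a := by
          have : ∀ n, C.pS.SameCycle r ((C.nxS)^[n] (r, x)).1 := by
            intro n
            induction n with
            | zero => exact Equiv.Perm.SameCycle.refl _ _
            | succ n ih =>
              rw [Function.iterate_succ_apply']
              unfold nxS
              split_ifs
              · exact ih
              · exact Equiv.Perm.sameCycle_apply_right.2 ih
          exact (this j).symm.trans ha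
        obtain ⟨n, hn⟩ := exists_iter (k := k) (by omega) hsame _ (c0 k a) okj.2 (by omega)
        refine ⟨n, ?_⟩
        rw [Nat.add_comm j n, Function.iterate_add_apply]
        have : ((C.nxS)^[n] ((C.nxS)^[j] (r, x))) = (a, c0 k a) := hn
        rw [this]
        exact (shc_c0 R hsp (by omega)).2 (Or.inl rfl)
      have hmin : ∀ i, i ≤ Nat.find hex → lev R (r, x) (j + i) = lev R (r, x) j := by
        intro i
        induction i with
        | zero => intro _; rfl
        | succ i ih =>
          intro hi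
          rw [← Nat.add_assoc, lev_succ ok, ih (by omega)]
          have := Nat.find_min hex (m := i) (by omega)
          unfold shq
          rw [if_neg this]
          simp
      apply ih (j + Nat.find hex + 1) (by omega)
      rw [lev_succ ok, hmin _ le_rfl, hl]
      unfold shq
      rw [if_pos (Nat.find_spec hex)]
      push_cast
      ring
  obtain ⟨l, hl⟩ : ∃ l : ℕ, lev R (r, x) 1 = (l : ℤ) + 1 :=
    ⟨(lev R (r, x) 1 - 1).toNat, by omega⟩
  obtain ⟨m, hm1, hm2, hm3⟩ := key l 1 le_rfl hl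
  have okm := ok.iter m
  have hf := follow I ok h1 (n := m) (fun j hj _ => h2 j hj) (by rw [hm2]) hm1
  rw [hm2] at hf
  have hbm := base_iter (R := R) (q := (r, x)) m
  set p := (C.nxS)^[m] (r, x) with hp
  have hsp' : R.sp p.1.facet := (shc_true.1 hm3).1
  have hsame' : C.pS.SameCycle r p.1 := by
    have : ∀ n, C.pS.SameCycle r ((C.nxS)^[n] (r, x)).1 := by
      intro n
      induction n with
      | zero => exact Equiv.Perm.SameCycle.refl _ _
      | succ n ih =>
        rw [Function.iterate_succ_apply']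
        unfold nxS
        split_ifs
        · exact ih
        · exact Equiv.Perm.sameCycle_apply_right.2 ih
    exact this m
  have hlo : 1 ≤ R.H p.1 p.2 := by
    have := R.H_sh okm.1 okm.2 hm3
    omega
  have hbase := R.H_le_base okm.1 okm.2.le
  have hb1 : R.base r = R.base p.1 := hbm.symm
  refine ⟨p.1, p.2 - c0 k p.1, hsame', hsp', ?_, ?_⟩
  · rcases (shc_c0 R hsp' okm.2).1 hm3 with h3 | h3 <;> omega
  · have h3 := (col_shift I okm.1 okm.2 hm3 (y := R.base p.1 - 1) (by omega) (by omega)).1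
    rw [show R.base p.1 - 1 + 1 = R.base p.1 by omega] at h3
    have h4 : R.port χ p.1 (p.2 - c0 k p.1) ↔ C.hS χ p.1 p.2 (R.base p.1) := by
      unfold Rims.port
      have h5 : (if IsU p.1 then k - 2 + (p.2 - c0 k p.1) else p.2 - c0 k p.1) = p.2 := by
        have h6 := (shc_c0 R hsp' okm.2).1 hm3
        unfold c0 at h6 ⊢
        split_ifs at h6 ⊢ <;> omega
      rw [h5]
    rw [h4, ← h3]
    refine hf.trans ?_
    rw [hb1]
    exact Iff.rfl

end JCertE

end Pool.Agent.MP42E
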