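import Pool.Agent.MP42.E.TrackR
import Pool.Agent.MP42.Counter

/-!
# Signed reduction theorem: through strands, all strands of the rings
-/

set_option autoImplicit false
set_option linter.unusedSectionVars false

namespace Pool.Agent.MP42E

open Pool.Agent.Helper55.UNF Pool.Agent.MP42G

namespace Rg

variable {k D : ℕ} {A : Rg0 k} {R : Rg A D} {vS hS : A.W → ℕ → ℕ → Prop}

lemma c0_T (a : A.W) (hk : 2 ≤ k) : k - 1 - c0 A (A.T a) = c0 A a + 1 ∧
    c0 A (A.T a) + c0 A a + 2 = k := by
  have h1 := A.U_T a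
  unfold c0
  by_cases hu : A.U a
  · rw [if_pos hu, if_neg (by rw [h1]; exact not_not.2 hu)]
    omega
  · rw [if_neg hu, if_pos (h1.2 hu)]
    omega

lemma port_T (I : RInv R vS hS) (a : A.W) {j : ℕ} (hj : j < 2) :
    R.port hS (A.T a) j ↔ hS a (c0 A a + 1 - j) (R.base a + R.tc a) := by
  have h1 := R.base_add a
  have h2 := c0_T a (by have := R.hk4; omega)
  have h3 := c0_lt R (A.T a)
  unfold port
  rw [I.hT a _ _ (by omega) (by omega)]
  rw [show k - 1 - (c0 A (A.T a) + j) = c0 A a + 1 - j by omega,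
    show k - R.base (A.T a) = R.base a + R.tc a by omega]

/-! ## Core rows -/

section Core

variable (I : RInv R vS hS)
include I

lemma core_col {r : A.W} {x y : ℕ} (hx : x < k)
    (hs : A.shc R.sp r x = false) (h1 : R.base r ≤ y) (h2 : y < R.base r + R.tc r) :
    vS r x y ↔ vS r (x + 1) y :=
  col_straight I hx hs (by omega) (by omega) h2

lemma core_cols {r : A.W} {x x' y : ℕ} (hxx : x ≤ x') (hx : x' ≤ k)
    (hs : ∀ i, x ≤ i → i < x' → A.shc R.sp r i = false) (h1 : R.base r ≤ y)
    (h2 : y < R.base r + R.tc r) : vS r x y ↔ vS r x' y := by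
  induction x', hxx using Nat.le_induction with
  | base => exact Iff.rfl
  | succ n hn ih =>
    rw [ih (by omega) (fun i a b => hs i a (by omega))]
    exact core_col I (by omega) (hs n hn (by omega)) h1 h2

lemma core_gl {r : A.W} {y : ℕ} (h1 : R.base r ≤ y)
    (h2 : y < R.base r + R.tc r) : vS r k y ↔ vS (A.E r) 0 y := by
  have h3 := R.base_add r
  have h4 := R.D_le_base (A.T r)
  have h5 := R.hk
  refine I.gl r y ?_ (R.core_row r h1 h2 le_rfl)
  have := (R.win r).lt k le_rfl
  have := core_le_hi R r k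
  omega

lemma core_facet {r : A.W} (hn : ¬ R.sp r) {y : ℕ}
    (h1 : R.base r ≤ y) (h2 : y < R.base r + R.tc r) : vS r 0 y ↔ vS (A.E r) 0 y := by
  rw [core_cols I (Nat.zero_le k) le_rfl ?_ h1 h2]
  · exact core_gl I h1 h2
  · intro i _ _
    cases hs : A.shc R.sp r i
    · rfl
    · exact absurd (A.shc_true.1 hs).1 hn

omit I in
lemma base_pow (a : A.W) (i : ℕ) : R.base ((A.E ^ i) a) = R.base a := by
  induction i with
  | zero => rfl
  | succ i ih =>
    rw [pow_succ']
    exact (R.base_E _).trans ih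

omit I in
lemma tc_pow (a : A.W) (i : ℕ) : R.tc ((A.E ^ i) a) = R.tc a := by
  induction i with
  | zero => rfl
  | succ i ih =>
    rw [pow_succ']
    exact (R.tc_E _).trans ih

omit I in
lemma not_sp_pow {a : A.W} (hsp : R.sp a) {i : ℕ}
    (h0 : 0 < i) (h1 : i < Function.minimalPeriod A.E a) : ¬ R.sp ((A.E ^ i) a) := by
  intro h2
  obtain ⟨b, -, hb⟩ := R.sp_ex a (R.sp_tr a hsp)
  have e1 := hb a ⟨Equiv.Perm.SameCycle.refl _ _, hsp⟩
  have e2 := hb ((A.E ^ i) a) ⟨⟨i, by rw [zpow_natCast]⟩, h2⟩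
  have e3 : (A.E ^ i) a = (A.E ^ (Function.minimalPeriod A.E a)) a := by
    rw [Pool.Agent.MP42.pow_minimalPeriod, e2, e1]
  have := Pool.Agent.MP42.pos_unique A.E h0 h1.le (by omega) le_rfl e3
  omega

/-- a core row from the facet after the special facet to the special facet -/
lemma core_turn {a : A.W} (hsp : R.sp a) {y : ℕ}
    (h1 : R.base a ≤ y) (h2 : y < R.base a + R.tc a) : vS (A.E a) 0 y ↔ vS a 0 y := by
  have key : ∀ i, i + 1 ≤ Function.minimalPeriod A.E a →
      (vS (A.E a) 0 y ↔ vS ((A.E ^ (i + 1)) a) 0 y) := by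
    intro i
    induction i with
    | zero => intro _; exact Iff.rfl
    | succ i ih =>
      intro hi
      rw [ih (by omega), pow_succ' A.E (i + 1)]
      apply core_facet I (not_sp_pow hsp (by omega) (by omega))
      · rw [base_pow]; exact h1
      · rw [base_pow, tc_pow]; exact h2
  have hp := Pool.Agent.MP42.minimalPeriod_pos' A.E a
  have h3 := key (Function.minimalPeriod A.E a - 1) (by omega)
  rw [Nat.sub_add_cancel hp, Pool.Agent.MP42.pow_minimalPeriod] at h3
  exact h3

lemma core_turn' {a : A.W} (hsp : R.sp a) {y : ℕ}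
    (h1 : R.base a ≤ y) (h2 : y < R.base a + R.tc a) :
    vS a (c0 A a + 2) y ↔ vS a (c0 A a) y := by
  have hc := c0_lt R a
  have hs : ∀ i, i < k → ¬ (i = c0 A a ∨ i = c0 A a + 1) → A.shc R.sp a i = false := by
    intro i hi hne
    cases hs : A.shc R.sp a i
    · rfl
    · exact absurd ((shc_c0 R hsp hi).1 hs) hne
  rw [← core_cols I (Nat.zero_le (c0 A a)) (by omega) (fun i _ hi => hs i (by omega) (by omega))
    h1 h2]
  rw [core_cols I hc le_rfl (fun i hi hi' => hs i hi' (by omega)) h1 h2]
  rw [core_gl I h1 h2]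
  exact core_turn I hsp h1 h2

omit I in
lemma one_le_H {a : A.W} (hsp : R.sp a) {j : ℕ} (hj : j < 2) : 1 ≤ R.H a (c0 A a + j) := by
  have hc := c0_lt R a
  have := R.H_sh (r := a) (x := c0 A a + j) (by omega) ((shc_c0 R hsp (by omega)).2 (by omega))
  omega

/-- the strands that go through the band -/
theorem through {a : A.W} (hsp : R.sp a) {j : ℕ}
    (hj : j < 2) : R.port hS a j ↔ R.port hS (A.T a) (if R.t a then 1 - j else j) := by
  have hc := c0_lt R a
  have htr := R.sp_tr a hsp
  have hb := R.H_le_base a (x := c0 A a) (by omega)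
  have hb1 := R.H_le_base a (x := c0 A a + 1) (by omega)
  have hH0 := one_le_H hsp (j := 0) (by omega)
  have hH1 := one_le_H hsp (j := 1) (by omega)
  rw [Nat.add_zero] at hH0
  have htc := R.tc_pos htr
  have s0 : A.shc R.sp a (c0 A a) = true := (shc_c0 R hsp (by omega)).2 (Or.inl rfl)
  have s1 : A.shc R.sp a (c0 A a + 1) = true := (shc_c0 R hsp (by omega)).2 (Or.inr rfl)
  -- the ports
  have p0 : R.port hS a 0 ↔ hS a (c0 A a) (R.base a) := Iff.rfl
  have p1 : R.port hS a 1 ↔ hS a (c0 A a + 1) (R.base a) := Iff.rfl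
  have e0 : hS a (c0 A a) (R.base a) ↔ vS a (c0 A a + 1) (R.base a) := by
    have := (col_shift I (x := c0 A a) (y := R.base a - 1) (by omega) s0 (by omega)
      (by omega)).2
    rwa [show R.base a - 1 + 1 = R.base a by omega] at this
  have e1 : hS a (c0 A a + 1) (R.base a) ↔ vS a (c0 A a + 2) (R.base a) := by
    have := (col_shift I (x := c0 A a + 1) (y := R.base a - 1) (by omega) s1 (by omega)
      (by omega)).2
    rwa [show R.base a - 1 + 1 = R.base a by omega] at this
  have f0 : ∀ y, R.base a ≤ y → y < R.base a + R.tc a →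
      (vS a (c0 A a) y ↔ hS a (c0 A a) (y + 1)) ∧
      (hS a (c0 A a) (y + 1) ↔ vS a (c0 A a + 1) (y + 1)) := fun y h1 h2 =>
    col_shift I (x := c0 A a) (by omega) s0 (by omega) h2
  have f1 : ∀ y, R.base a ≤ y → y < R.base a + R.tc a →
      (vS a (c0 A a + 1) y ↔ hS a (c0 A a + 1) (y + 1)) ∧
      (hS a (c0 A a + 1) (y + 1) ↔ vS a (c0 A a + 2) (y + 1)) := fun y h1 h2 =>
    col_shift I (x := c0 A a + 1) (by omega) s1 (by omega) h2
  cases ht : R.t a
  · have htc1 : R.tc a = 1 := by unfold tc; rw [if_pos htr, ht]; rfl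
    rw [if_neg (by decide), port_T I a hj, htc1]
    have hj' : j = 0 ∨ j = 1 := by omega
    rcases hj' with rfl | rfl
    · rw [p0, Nat.sub_zero, e0]
      exact (f1 _ le_rfl (by omega)).1
    · rw [p1, Nat.add_sub_cancel, e1, core_turn' I hsp le_rfl (by omega)]
      exact (f0 _ le_rfl (by omega)).1
  · have htc1 : R.tc a = 2 := by unfold tc; rw [if_pos htr, ht]; rfl
    rw [if_pos rfl, port_T I a (by omega), htc1]
    have hj' : j = 0 ∨ j = 1 := by omega
    rcases hj' with rfl | rfl
    · rw [p0, e0, show c0 A a + 1 - (1 - 0) = c0 A a by omega]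
      rw [(f1 _ le_rfl (by omega)).1, (f1 _ le_rfl (by omega)).2,
        core_turn' I hsp (by omega) (by omega)]
      exact (f0 _ (by omega) (by omega)).1
    · rw [p1, e1, show c0 A a + 1 - (1 - 1) = c0 A a + 1 by omega]
      rw [core_turn' I hsp le_rfl (by omega), (f0 _ le_rfl (by omega)).1,
        (f0 _ le_rfl (by omega)).2]
      exact (f1 _ (by omega) (by omega)).1

end Core

/-! ## All strands -/

section All

variable {c : Prop} (I : RInv R vS hS)
  (J : ∀ r x, x < k → A.wd r x ≠ Ln.z → (hS r x 0 ↔ c))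
include I J

/-- the strand of level `l` at the line `x` has the value `c` -/
def Good (R : Rg A D) (vS : A.W → ℕ → ℕ → Prop) (c : Prop) (l : ℕ) (r : A.W)
    (x : ℕ) : Prop := l ≤ R.H r x → (vS r x (R.base r - l) ↔ c)

lemma good_col {l : ℕ} (hl : 1 ≤ l) {r : A.W} {x : ℕ} (hx : x < k)
    (h1 : A.shc R.sp r x = true → Good R vS c (l + 1) r x)
    (h2 : A.shc R.sp r x = false → Good R vS c l r x) :
    Good R vS c l r (x + 1) := by
  intro hle
  have hb := R.H_le_base r (x := x) hx.le
  have hb' := R.H_le_base r (x := x + 1) hx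
  cases hs : A.shc R.sp r x
  · have h3 := R.H_not hx hs
    rcases JCert.vl_cases (A.wd r x) with h4 | h4 | h4
    · rw [h4] at h3
      rw [← col_straight I hx hs (y := R.base r - l) (by omega) (by omega) (by omega)]
      exact h2 hs (by omega)
    · have hn := JCert.vl_n.1 h4
      obtain ⟨-, h5, h6⟩ := col_open I hx hn
      by_cases h7 : l = R.H r (x + 1)
      · rw [h7, ← h6]
        exact J r x hx (by rw [hn]; decide)
      · rw [← col_straight I hx hs (y := R.base r - l) (by omega) (by omega) (by omega)]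
        exact h2 hs (by omega)
    · rw [h4] at h3
      rw [← col_straight I hx hs (y := R.base r - l) (by omega) (by omega) (by omega)]
      exact h2 hs (by omega)
  · have h3 := R.H_sh hx hs
    have h4 := col_shift I hx hs (y := R.base r - (l + 1)) (by omega) (by omega)
    rw [show R.base r - (l + 1) + 1 = R.base r - l by omega] at h4
    rw [← h4.2, ← h4.1]
    exact h1 hs (by omega)

lemma good_cols {l : ℕ} (hl : 1 ≤ l) {r : A.W}
    (h1 : ∀ x ≤ k, A.tr r → Good R vS c (l + 1) r x) {x0 x : ℕ} (hxx : x0 ≤ x) (hx : x ≤ k)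
    (h2 : Good R vS c l r x0) : Good R vS c l r x := by
  induction x, hxx using Nat.le_induction with
  | base => exact h2
  | succ n hn ih =>
    exact good_col I J hl (by omega) (fun hs => h1 n (by omega) (R.tr_of_sh hs))
      (fun _ => ih (by omega))

lemma good_E {l : ℕ} (hl : 1 ≤ l) {r : A.W}
    (h1 : Good R vS c l r k) : Good R vS c l (A.E r) 0 := by
  intro hle
  rw [R.H_E r] at hle
  rw [R.base_E, ← h1 hle]
  have hb := R.H_le_base r (x := k) le_rfl
  have a1 := lo_x R r (x := k) le_rfl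
  have a2 := core_le_hi R r k
  have a3 := (R.win r).lt k le_rfl
  exact (I.gl r _ (by omega) ((R.win r).pr_true.2 ⟨by omega, by omega⟩)).symm

lemma tr_pow (a : A.W) (i : ℕ) : A.tr ((A.E ^ i) a) ↔ A.tr a := by
  refine (A.tr_same ⟨(i : ℤ), ?_⟩).symm
  rw [zpow_natCast]

/-- once around the ring -/
lemma good_around {l : ℕ} (hl : 1 ≤ l) {a r : A.W} (ha : A.E.SameCycle a r)
    (h1 : ∀ s, A.E.SameCycle a s → ∀ x ≤ k, A.tr s → Good R vS c (l + 1) s x)
    {x0 : ℕ} (hx0 : x0 ≤ k) (h2 : Good R vS c l a x0) : ∀ x ≤ k, Good R vS c l r x := by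
  have h3 : ∀ i, Good R vS c l ((A.E ^ i) (A.E a)) 0 := by
    intro i
    induction i with
    | zero =>
      exact good_E I J hl (good_cols I J hl (h1 a (Equiv.Perm.SameCycle.refl _ _)) hx0 le_rfl h2)
    | succ i ih =>
      rw [pow_succ']
      refine good_E I J hl (good_cols I J hl (h1 _ ?_) (Nat.zero_le k) le_rfl ih)
      refine (A.same_E a).trans ⟨(i : ℤ), ?_⟩
      rw [zpow_natCast]
  have h4 : A.E.SameCycle (A.E a) r := Equiv.Perm.sameCycle_apply_left.2 ha
  obtain ⟨i, hi⟩ := h4.exists_nat_pow_eq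
  intro x hx
  have h5 := h3 i
  rw [hi] at h5
  exact good_cols I J hl (h1 r ha) (Nat.zero_le x) hx h5

lemma good_tr (m : ℕ) : ∀ l, 1 ≤ l → D < l + m → ∀ r, A.tr r → ∀ x ≤ k,
    Good R vS c l r x := by
  induction m with
  | zero =>
    intro l hl hD r hr x hx hle
    have := R.H_le r x hx
    omega
  | succ m ih =>
    intro l hl hD r hr
    have ih' := ih (l + 1) (by omega) (by omega)
    obtain ⟨a, ⟨ha, hsp⟩, -⟩ := R.sp_ex r hr
    have hc := c0_lt R a
    -- after the shift columns
    have h1 : Good R vS c l a (c0 A a + 1 + 1) :=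
      good_col I J hl (by omega) (fun _ => ih' a (R.sp_tr a hsp) _ (by omega)) (fun hs => by
        have := (shc_c0 R hsp (x := c0 A a + 1) (by omega)).2 (Or.inr rfl)
        rw [this] at hs
        exact absurd hs (by decide))
    exact good_around I J hl ha.symm (fun s _ x hx hs => ih' s hs x hx) (by omega) h1

lemma good_all {l : ℕ} (hl : 1 ≤ l) (r : A.W) {x : ℕ} (hx : x ≤ k) : Good R vS c l r x := by
  by_cases hr : A.tr r
  · exact good_tr I J (D + 1) l hl (by omega) r hr x hx
  · obtain ⟨a, x0, ha, hx0, h0⟩ := R.H_0 r hr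
    refine good_around I J hl ha.symm (fun s hs y _ hs' => ?_) hx0.le (fun hle => ?_) x hx
    · exact absurd ((A.tr_same (ha.trans hs)).2 hs') hr
    · omega

/-- all levels -/
lemma low_row {r : A.W} {x y : ℕ} (hx : x ≤ k)
    (h1 : (R.win r).lo x ≤ y) (h2 : y < R.base r) : vS r x y ↔ c := by
  have a1 := lo_x R r hx
  have := good_all I J (l := R.base r - y) (by omega) r hx (by omega)
  rwa [show R.base r - (R.base r - y) = y by omega] at this

lemma high_row {r : A.W} {x y : ℕ} (hx : x ≤ k)
    (h1 : y ≤ (R.win r).hi x) (h2 : R.base r + R.tc r ≤ y) : vS r x y ↔ c := by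
  have hlt := (R.win r).lt x hx
  have h3 := R.base_add r
  have h4 : vS (A.T r) (k - x) (k - 1 - y) ↔ vS r x y := by
    rw [I.vT r _ _ (by omega) (by omega), show k - (k - x) = x by omega,
      show k - 1 - (k - 1 - y) = y by omega]
  rw [← h4]
  apply low_row I J (by omega)
  · have h5 := R.win_hi r x
    have h7 := R.H_le_base (A.T r) (x := k - x) (by omega)
    have h8 := R.D_le_base r
    have h9 := R.hD
    rw [R.win_lo (A.T r) (k - x)]
    omega
  · omega

lemma core_sp {a : A.W} (hsp : R.sp a) {y : ℕ}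
    (h1 : R.base a ≤ y) (h2 : y < R.base a + R.tc a) :
    (vS a (c0 A a) y ↔ c) ∧ (vS a (c0 A a + 1) y ↔ c) ∧
    (vS a (c0 A a + 2) y ↔ c) := by
  have hc := c0_lt R a
  have htc := R.tc_pos (R.sp_tr a hsp)
  have htc2 := R.tc_le a
  have s : ∀ j < 2, A.shc R.sp a (c0 A a + j) = true := fun j hj =>
    (shc_c0 R hsp (by omega)).2 (by omega)
  have f : ∀ j < 2, ∀ y, R.base a ≤ y → y < R.base a + R.tc a →
      (vS a (c0 A a + j) y ↔ vS a (c0 A a + j + 1) (y + 1)) := fun j hj y h1 h2 =>
    (col_shift I (x := c0 A a + j) (by omega) (s j hj) (by omega) h2).1.trans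
      (col_shift I (x := c0 A a + j) (by omega) (s j hj) (by omega) h2).2
  -- the row above the core rows
  have top : ∀ j < 2, (vS a (c0 A a + j + 1) (R.base a + R.tc a) ↔ c) := by
    intro j hj
    apply high_row I J (by omega) _ le_rfl
    have h3 := (R.win a).s0 (c0 A a + j) (by omega) (s j hj)
    have h4 := core_le_hi R a (c0 A a + j)
    omega
  have g1 : ∀ j < 2, (vS a (c0 A a + j) (R.base a + R.tc a - 1) ↔ c) := by
    intro j hj
    rw [f j hj _ (by omega) (by omega), show R.base a + R.tc a - 1 + 1 = R.base a + R.tc a by omega]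
    exact top j hj
  have t1 : ∀ y, R.base a ≤ y → y < R.base a + R.tc a → (vS a (c0 A a) y ↔ c) →
      (vS a (c0 A a + 2) y ↔ c) := fun y h1 h2 h3 => (core_turn' I hsp h1 h2).trans h3
  by_cases hy : y = R.base a + R.tc a - 1
  · rw [hy]
    exact ⟨g1 0 (by omega), g1 1 (by omega), t1 _ (by omega) (by omega) (g1 0 (by omega))⟩
  · have hy2 : y + 1 = R.base a + R.tc a - 1 := by omega
    have k0 : vS a (c0 A a) y ↔ c := by
      have := f 0 (by omega) y h1 h2
      rw [Nat.add_zero, hy2] at this
      rw [this]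
      exact g1 1 (by omega)
    refine ⟨k0, ?_, t1 _ h1 h2 k0⟩
    rw [f 1 (by omega) y h1 h2, hy2]
    exact t1 _ (by omega) (by omega) (g1 0 (by omega))

lemma core_sp_all {a : A.W} (hsp : R.sp a) {y : ℕ}
    (h1 : R.base a ≤ y) (h2 : y < R.base a + R.tc a) {x : ℕ} (hx : x ≤ k) :
    vS a x y ↔ c := by
  have hc := c0_lt R a
  obtain ⟨g0, g1, g2⟩ := core_sp I J hsp h1 h2
  have hs : ∀ i, i < k → ¬ (i = c0 A a ∨ i = c0 A a + 1) → A.shc R.sp a i = false := by
    intro i hi hne
    cases hs : A.shc R.sp a i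
    · rfl
    · exact absurd ((shc_c0 R hsp hi).1 hs) hne
  rcases Nat.lt_or_ge (c0 A a) x with h3 | h3
  · rcases Nat.lt_or_ge (c0 A a + 1) x with h4 | h4
    · rw [← core_cols I (x := c0 A a + 2) (x' := x) (by omega) hx
        (fun i hi hi' => hs i (by omega) (by omega)) h1 h2]
      exact g2
    · rw [show x = c0 A a + 1 by omega]
      exact g1
  · rw [core_cols I (x := x) (x' := c0 A a) h3 (by omega)
      (fun i hi hi' => hs i (by omega) (by omega)) h1 h2]
    exact g0

lemma core_all {r : A.W} {y : ℕ} (h1 : R.base r ≤ y)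
    (h2 : y < R.base r + R.tc r) {x : ℕ} (hx : x ≤ k) : vS r x y ↔ c := by
  have hr : A.tr r := by
    by_contra hr
    rw [R.tc_cut hr] at h2
    omega
  obtain ⟨a, ⟨ha, hsp⟩, hau⟩ := R.sp_ex r hr
  have h4 : A.E.SameCycle a r := ha.symm
  obtain ⟨i, hi⟩ := h4.exists_nat_pow_eq
  have hb : R.base r = R.base a := by rw [← hi, base_pow]
  have ht : R.tc r = R.tc a := by rw [← hi, tc_pow]
  have key : ∀ i, ∀ x ≤ k, (vS ((A.E ^ i) a) x y ↔ c) := by
    intro i
    induction i with
    | zero => exact fun x hx => core_sp_all I J hsp (by omega) (by omega) hx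
    | succ i ih =>
      intro x hx
      by_cases hspi : R.sp ((A.E ^ (i + 1)) a)
      · exact core_sp_all I J hspi (by rw [base_pow]; omega) (by rw [base_pow, tc_pow]; omega) hx
      · rw [← core_cols I (x := 0) (x' := x) (Nat.zero_le x) hx (fun j _ _ => by
          cases hs : A.shc R.sp ((A.E ^ (i + 1)) a) j
          · rfl
          · exact absurd (A.shc_true.1 hs).1 hspi) (by rw [base_pow]; omega)
          (by rw [base_pow, tc_pow]; omega)]
        rw [pow_succ']
        show vS (A.E ((A.E ^ i) a)) 0 y ↔ c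
        rw [← core_gl I (by rw [base_pow]; omega) (by rw [base_pow, tc_pow]; omega)]
        exact ih k le_rfl
  have := key i x hx
  rwa [hi] at this

/-- all strands of the rings have the value `c` -/
theorem all_pr {r : A.W} {x y : ℕ} (hx : x ≤ k)
    (hp : (R.win r).pr x y = true) : vS r x y ↔ c := by
  rw [Wn.pr_true] at hp
  rcases Nat.lt_or_ge y (R.base r) with h1 | h1
  · exact low_row I J hx hp.1 h1
  · rcases Nat.lt_or_ge y (R.base r + R.tc r) with h2 | h2
    · exact core_all I J h1 h2 hx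
    · exact high_row I J hx hp.2 h2

/-- all lanes of the rings have the value `c` -/
theorem all_la {r : A.W} {x y : ℕ} (hx : x < k) (hy : y ≤ k)
    (hp : (R.win r).la x y ≠ Ln.z) : hS r x y ↔ c := by
  cases hs : A.shc R.sp r x
  · have hs' : (R.win r).sh x = false := hs
    by_cases h3 : y ≤ (R.win r).lo x ∧ y ≤ (R.win r).lo (x + 1)
    · have h4 : (R.win r).bot x ≠ Ln.z := by
        intro h0
        apply hp
        unfold Wn.la
        rw [if_neg (by rw [hs']; decide), if_pos h3]
        unfold Wn.bot at h0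
        rwa [if_neg (by rw [hs']; decide)] at h0
      rw [← (R.win r).lane_low (I.rel r) hx hs' h4 y h3.1 h3.2]
      apply J r x hx
      rw [← R.win_bot r hx]
      exact h4
    · -- upper lane
      have h1 : (R.win r).hi x < y ∧ (R.win r).hi (x + 1) < y := by
        by_contra hcon
        apply hp
        unfold Wn.la
        rw [if_neg (by rw [hs']; decide), if_neg h3, if_neg hcon]
      have h4 : (R.win r).top x ≠ Ln.z := by
        intro h0
        apply hp
        unfold Wn.la
        rw [if_neg (by rw [hs']; decide), if_neg h3, if_pos h1]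
        unfold Wn.top at h0
        rwa [if_neg (by rw [hs']; decide)] at h0
      rw [(R.win r).lane_high (I.rel r) hx hs' h4 y h1.1 h1.2 hy]
      have h5 : hS (A.T r) (k - 1 - x) 0 ↔ hS r x k := by
        rw [I.hT r _ _ (by omega) (Nat.zero_le k), show k - 1 - (k - 1 - x) = x by omega,
          Nat.sub_zero]
      rw [← h5]
      apply J _ _ (by omega)
      rw [← R.win_top r hx]
      exact h4
  · have hs' : (R.win r).sh x = true := hs
    have h1 : (R.win r).lo x < y ∧ y ≤ (R.win r).hi x + 1 := by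
      by_contra hcon
      apply hp
      unfold Wn.la
      rw [if_pos hs', if_neg hcon]
    have h2 := ((R.win r).shift (I.rel r) hx hs' (y := y - 1) (by omega) (by omega)).1
    rw [show y - 1 + 1 = y by omega] at h2
    rw [← h2]
    exact all_pr I J hx.le ((R.win r).pr_true.2 ⟨by omega, by omega⟩)

end All

end Rg

end Pool.Agent.MP42E
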