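import Pool.Agent.MP42.E.HeightR

/-!
# Signed reduction theorem: strands of the rings (after G/Track and G/Track2)
-/

set_option autoImplicit false
set_option linter.unusedSectionVars false

namespace Pool.Agent.MP42E

open Pool.Agent.Helper55.UNF Pool.Agent.MP42G

namespace Rg

variable {k D : ℕ} {A : Rg0 k} {R : Rg A D} {vS hS : A.W → ℕ → ℕ → Prop}

/-! ## One column -/

section Col

variable (I : RInv R vS hS) (r : A.W)

lemma lo_x (R : Rg A D) (r : A.W) {x : ℕ} (hx : x ≤ k) : (R.win r).lo x + R.H r x = R.base r := by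
  rw [Rg.win_lo]
  have := R.H_le_base r hx
  omega

lemma core_le_hi (R : Rg A D) (r : A.W) (x : ℕ) : R.base r + R.tc r ≤ (R.win r).hi x + 1 := by
  rw [Rg.win_hi]
  have h1 := R.base_add r
  have h2 := R.D_le_base r
  have h3 := R.hD
  omega

include I

/-- a strand of level `l ≥ 1` or a core strand runs straight -/
lemma col_straight {r : A.W} {x y : ℕ} (hx : x < k) (hs : A.shc R.sp r x = false)
    (h1 : R.base r ≤ y + R.H r x) (h2 : R.base r ≤ y + R.H r (x + 1))
    (h3 : y < R.base r + R.tc r) : vS r x y ↔ vS r (x + 1) y := by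
  have a1 := lo_x R r hx.le
  have a2 := lo_x R r (x := x + 1) hx
  have a3 := core_le_hi R r x
  have a4 := core_le_hi R r (x + 1)
  exact (R.win r).straight (I.rel r) hx hs (by omega) (by omega) (by omega) (by omega)

/-- in a shift column the strands move up -/
lemma col_shift {r : A.W} {x y : ℕ} (hx : x < k) (hs : A.shc R.sp r x = true)
    (h1 : R.base r ≤ y + R.H r x) (h3 : y < R.base r + R.tc r) :
    (vS r x y ↔ hS r x (y + 1)) ∧ (hS r x (y + 1) ↔ vS r (x + 1) (y + 1)) := by
  have a1 := lo_x R r hx.le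
  have a3 := core_le_hi R r x
  exact (R.win r).shift (I.rel r) hx hs (by omega) (by omega)

omit I in
lemma not_sh_of_wd {r : A.W} {x : ℕ} (hx : x < k) (hn : A.wd r x ≠ Ln.z) :
    A.shc R.sp r x = false := by
  cases hs : A.shc R.sp r x
  · rfl
  · exact absurd (A.free r (R.tr_of_sh hs) x hx (A.shc_free hs)) hn

/-- a lane to the north opens a strand -/
lemma col_open {r : A.W} {x : ℕ} (hx : x < k) (hn : A.wd r x = Ln.n) :
    A.shc R.sp r x = false ∧ R.H r (x + 1) = R.H r x + 1 ∧
    (hS r x 0 ↔ vS r (x + 1) (R.base r - R.H r (x + 1))) := by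
  have hs : A.shc R.sp r x = false := not_sh_of_wd hx (by rw [hn]; decide)
  have h1 := R.H_not hx hs
  rw [hn] at h1
  simp only [vl] at h1
  have a1 := lo_x R r hx.le
  have a2 := lo_x R r (x := x + 1) hx
  refine ⟨hs, by omega, ?_⟩
  exact ((R.win r).enter_low (I.rel r) hx hs (by omega)).2

/-- a lane to the south closes the lowest strand -/
lemma col_close {r : A.W} {x : ℕ} (hx : x < k) (hn : A.wd r x = Ln.s) :
    A.shc R.sp r x = false ∧ R.H r x = R.H r (x + 1) + 1 ∧
    (hS r x 0 ↔ vS r x (R.base r - R.H r x)) := by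
  have hs : A.shc R.sp r x = false := not_sh_of_wd hx (by rw [hn]; decide)
  have h1 := R.H_not hx hs
  rw [hn] at h1
  simp only [vl] at h1
  have a1 := lo_x R r hx.le
  have a2 := lo_x R r (x := x + 1) hx
  refine ⟨hs, by omega, ?_⟩
  exact ((R.win r).leave_low (I.rel r) hx hs (by omega)).2

end Col

/-! ## Positions -/

/-- the height before the position `q` -/
def Hq (R : Rg A D) (q : A.W × ℕ) : ℕ := R.H q.1 q.2

lemma nx_lt {q : A.W × ℕ} (h : q.2 < k) : (A.nx q).2 < k := by
  unfold Rg0.nx
  split_ifs with h1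
  · exact h1
  · show 0 < k
    omega

lemma iter_lt {q : A.W × ℕ} (h : q.2 < k) (n : ℕ) : (A.nx^[n] q).2 < k := by
  induction n with
  | zero => exact h
  | succ n ih =>
    rw [Function.iterate_succ_apply']
    exact nx_lt ih

lemma Hq_nx {q : A.W × ℕ} (h : q.2 < k) : Hq R (A.nx q) = R.H q.1 (q.2 + 1) := by
  unfold Rg0.nx Hq
  split_ifs with h1
  · rfl
  · have h2 := R.H_E q.1
    have h3 : q.2 + 1 = k := by omega
    rw [h3]
    exact h2

lemma base_nx {q : A.W × ℕ} : R.base (A.nx q).1 = R.base q.1 := by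
  unfold Rg0.nx
  split_ifs with h1
  · rfl
  · exact R.base_E _

lemma base_iter {q : A.W × ℕ} (n : ℕ) : R.base (A.nx^[n] q).1 = R.base q.1 := by
  induction n with
  | zero => rfl
  | succ n ih => rw [Function.iterate_succ_apply', base_nx, ih]

/-- the value after a column is the value before the next position -/
lemma val_nx (I : RInv R vS hS) {q : A.W × ℕ} (h : q.2 < k) {y : ℕ}
    (h1 : R.base q.1 ≤ y + R.H q.1 (q.2 + 1)) (h3 : y < R.base q.1 + R.tc q.1) :
    vS q.1 (q.2 + 1) y ↔ vS (A.nx q).1 (A.nx q).2 y := by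
  unfold Rg0.nx
  split_ifs with h2
  · exact Iff.rfl
  · have h4 : q.2 + 1 = k := by omega
    rw [h4] at h1 ⊢
    have a1 := lo_x R q.1 (le_refl k)
    have a3 := core_le_hi R q.1 k
    have a4 := (R.win q.1).lt k le_rfl
    exact I.gl q.1 y (by omega) ((R.win q.1).pr_true.2 ⟨by omega, by omega⟩)

open Classical in
/-- 1 in the shift columns -/
noncomputable def shq (R : Rg A D) (q : A.W × ℕ) : ℕ := if A.shc R.sp q.1 q.2 = true then 1 else 0

lemma Hq_step {q : A.W × ℕ} (h : q.2 < k) :
    (Hq R (A.nx q) : ℤ) + shq R q = Hq R q + vl (A.wd q.1 q.2) := by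
  rw [Hq_nx h]
  unfold shq
  have := R.H_x q.1 q.2 h
  split_ifs at this ⊢ with h1
  · exact this
  · exact this

lemma wsum_succ (q : A.W × ℕ) (n : ℕ) : A.wsum q (n + 1) =
    A.wsum q n + vl (A.wd (A.nx^[n] q).1 (A.nx^[n] q).2) := by
  unfold Rg0.wsum
  rw [Finset.sum_range_succ]

lemma wsum_one (q : A.W × ℕ) : A.wsum q 1 = vl (A.wd q.1 q.2) := by
  unfold Rg0.wsum
  simp

/-- the level of the strand that is opened at `q`, after `j` steps -/
noncomputable def lev (R : Rg A D) (q : A.W × ℕ) (j : ℕ) : ℤ :=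
  Hq R (A.nx^[j] q) - A.wsum q j + 1

lemma lev_succ {q : A.W × ℕ} (h : q.2 < k) (j : ℕ) :
    lev R q (j + 1) = lev R q j - shq R (A.nx^[j] q) := by
  unfold lev
  have h1 := Hq_step (R := R) (iter_lt h j)
  rw [wsum_succ, Function.iterate_succ_apply']
  linarith

/-- following the strand that is opened at `q` -/
lemma follow (I : RInv R vS hS) {q : A.W × ℕ} (h : q.2 < k) (hn : A.wd q.1 q.2 = Ln.n) {n : ℕ}
    (hw : ∀ j, 1 ≤ j → j ≤ n → 1 ≤ A.wsum q j) (hl : 1 ≤ lev R q n) (h1 : 1 ≤ n) :
    hS q.1 q.2 0 ↔ vS (A.nx^[n] q).1 (A.nx^[n] q).2 (R.base q.1 - (lev R q n).toNat) := by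
  induction n, h1 using Nat.le_induction with
  | base =>
    obtain ⟨h2, h3, h4⟩ := col_open I h hn
    have h5 : lev R q 1 = R.H q.1 (q.2 + 1) := by
      unfold lev
      rw [wsum_one, hn, Function.iterate_one, Hq_nx h]
      simp [vl]
    have h6 := R.H_le_base q.1 (x := q.2 + 1) h
    rw [h4, Function.iterate_one, h5, Int.toNat_natCast]
    exact val_nx I h (by omega) (by omega)
  | succ n hn1 ih =>
    have h2 := lev_succ (R := R) h n
    have h0 : (0 : ℤ) ≤ shq R (A.nx^[n] q) := by positivity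
    rw [ih (fun j a b => hw j a (by omega)) (by linarith)]
    have ok := iter_lt (A := A) h n
    have hb := base_iter (R := R) (q := q) n
    rw [Function.iterate_succ_apply']
    set p := A.nx^[n] q with hp
    have hHb := R.H_le_base p.1 ok.le
    have hw1 := hw n (by omega) (by omega)
    have hw2 := hw (n + 1) (by omega) le_rfl
    have hHn := Hq_nx (R := R) ok
    have hlen : lev R q n = R.H p.1 p.2 - A.wsum q n + 1 := rfl
    have hlen' : lev R q (n + 1) = R.H p.1 (p.2 + 1) - A.wsum q (n + 1) + 1 := by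
      unfold lev
      rw [Function.iterate_succ_apply', ← hp, hHn]
    have hHb' := R.H_le_base p.1 (x := p.2 + 1) ok
    unfold shq at h2
    split_ifs at h2 with hs
    · -- shift column
      obtain ⟨y, hy⟩ : ∃ y, R.base q.1 - (lev R q n).toNat = y := ⟨_, rfl⟩
      have htc := R.tc_pos (R.tr_of_sh hs)
      rw [hy, show R.base q.1 - (lev R q (n + 1)).toNat = y + 1 by omega]
      have h3 := col_shift I ok hs (y := y) (by omega) (by omega)
      rw [h3.1, h3.2]
      have hsh := R.H_sh ok hs
      exact val_nx I ok (by omega) (by omega)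
    · have hs' : A.shc R.sp p.1 p.2 = false := by
        cases hs2 : A.shc R.sp p.1 p.2
        · rfl
        · exact absurd hs2 hs
      obtain ⟨y, hy⟩ : ∃ y, R.base q.1 - (lev R q n).toNat = y := ⟨_, rfl⟩
      rw [hy, show R.base q.1 - (lev R q (n + 1)).toNat = y by omega]
      rw [col_straight I ok hs' (y := y) (by omega) (by omega) (by omega)]
      exact val_nx I ok (by omega) (by omega)

/-- matched feet have the same value -/
theorem matched_of_inv (I : RInv R vS hS) {q q' : A.W × ℕ} (hx : q.2 < k)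
    (hm : A.Matched q q') : hS q.1 q.2 0 ↔ hS q'.1 q'.2 0 := by
  obtain ⟨h1, h2, n, hn, rfl, h3, h4⟩ := hm
  have ok' := iter_lt (A := A) hx n
  obtain ⟨-, h5, h6⟩ := col_close I ok' h2
  have h7 : lev R q n = Hq R (A.nx^[n] q) := by
    unfold lev
    rw [h3]
    ring
  have h8 : 1 ≤ Hq R (A.nx^[n] q) := by
    unfold Hq
    omega
  have h9 := follow I hx h1 h4 (by rw [h7]; exact_mod_cast h8) hn
  rw [h6]
  refine h9.trans ?_
  rw [h7, Int.toNat_natCast, base_iter]
  exact Iff.rfl

/-! ## Special states are met -/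

lemma iter_facet (r : A.W) {x : ℕ} (h : x < k) : A.nx^[k - x] (r, x) = (A.E r, 0) := by
  obtain ⟨n, hn⟩ : ∃ n, k - x = n + 1 := ⟨k - x - 1, by omega⟩
  rw [hn, Function.iterate_succ_apply', A.nx_iter r (by omega)]
  unfold Rg0.nx
  rw [if_neg (by show ¬ (x + n + 1 < k); omega)]

lemma iter_facets (hk : 0 < k) (r : A.W) (m : ℕ) : ∃ n, A.nx^[n] (r, 0) = ((A.E ^ m) r, 0) := by
  induction m with
  | zero => exact ⟨0, rfl⟩
  | succ m ih =>
    obtain ⟨n, hn⟩ := ih
    refine ⟨(k - 0) + n, ?_⟩
    rw [Function.iterate_add_apply, hn, iter_facet _ hk, pow_succ']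
    rfl

/-- every position is reached again -/
lemma exists_iter (hk : 0 < k) {r a : A.W} (h : A.E.SameCycle r a) (x c : ℕ) (hx : x < k)
    (hc : c < k) : ∃ n, A.nx^[n] (r, x) = (a, c) := by
  have h1 : A.E.SameCycle (A.E r) a := Equiv.Perm.sameCycle_apply_left.2 h
  obtain ⟨m, hm⟩ := h1.exists_nat_pow_eq
  obtain ⟨n, hn⟩ := iter_facets hk (A.E r) m
  refine ⟨c + (n + (k - x)), ?_⟩
  rw [Function.iterate_add_apply, Function.iterate_add_apply, iter_facet r hx, hn, hm,
    A.nx_iter a (by omega), Nat.zero_add]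

lemma same_iter (q : A.W × ℕ) (n : ℕ) : A.E.SameCycle q.1 (A.nx^[n] q).1 := by
  induction n with
  | zero => exact Equiv.Perm.SameCycle.refl _ _
  | succ n ih =>
    rw [Function.iterate_succ_apply']
    unfold Rg0.nx
    split_ifs
    · exact ih
    · exact Equiv.Perm.sameCycle_apply_right.2 ih

open Classical in
/-- the position of the first shift column -/
noncomputable def c0 (A : Rg0 k) (a : A.W) : ℕ := if A.U a then k - 2 else 0

lemma shc_c0 (R : Rg A D) {a : A.W} (ha : R.sp a) {x : ℕ} (hx : x < k) :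
    A.shc R.sp a x = true ↔ x = c0 A a ∨ x = c0 A a + 1 := by
  have := R.hk4
  rw [Rg0.shc_true]
  unfold c0
  by_cases hu : A.U a
  · rw [if_pos hu]
    constructor
    · rintro ⟨-, h, -⟩
      have := h hu
      omega
    · intro h
      exact ⟨ha, fun _ => by omega, fun h1 => absurd hu h1⟩
  · rw [if_neg hu]
    constructor
    · rintro ⟨-, -, h⟩
      have := h hu
      omega
    · intro h
      exact ⟨ha, fun h1 => absurd h1 hu, fun _ => by omega⟩

lemma c0_lt (R : Rg A D) (a : A.W) : c0 A a + 2 ≤ k := by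
  have := R.hk4
  unfold c0
  split_ifs <;> omega

/-- the `j`-th strand (`j = 0, 1`) that leaves level 1 at the special state -/
def port (R : Rg A D) (hS : A.W → ℕ → ℕ → Prop) (a : A.W) (j : ℕ) : Prop :=
  hS a (c0 A a + j) (R.base a)

/-- a strand that is never closed leaves level 1 at the special state -/
theorem unmatched_port (I : RInv R vS hS) {r : A.W} {x : ℕ} (hr : A.tr r)
    (hx : x < k) (hu : A.Unmatched (r, x)) :
    ∃ a j, A.E.SameCycle r a ∧ R.sp a ∧ j < 2 ∧ (hS r x 0 ↔ R.port hS a j) := by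
  classical
  obtain ⟨h1, h2⟩ := hu
  have ok : (r, x).2 < k := hx
  obtain ⟨a, ⟨ha, hsp⟩, -⟩ := R.sp_ex r hr
  have hk4 := R.hk4
  have hc := c0_lt R a
  have hl1 : 1 ≤ lev R (r, x) 1 := by
    obtain ⟨-, h4, -⟩ := col_open I ok h1
    have h5 : lev R (r, x) 1 = R.H r (x + 1) := by
      unfold lev
      rw [wsum_one, h1, Function.iterate_one, Hq_nx ok]
      simp [vl]
    rw [h5]
    have h4' : R.H r (x + 1) = R.H r x + 1 := h4
    omega
  -- the next shift column
  have hnext : ∀ j, ∃ m, A.shc R.sp (A.nx^[j + m] (r, x)).1 (A.nx^[j + m] (r, x)).2 = true := by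
    intro j
    have okj := iter_lt (A := A) ok j
    have hsame : A.E.SameCycle (A.nx^[j] (r, x)).1 a := (same_iter (r, x) j).symm.trans ha
    obtain ⟨n, hn⟩ := exists_iter (k := k) (by omega) hsame _ (c0 A a) okj (by omega)
    refine ⟨n, ?_⟩
    rw [Nat.add_comm j n, Function.iterate_add_apply]
    have : (A.nx^[n] (A.nx^[j] (r, x))) = (a, c0 A a) := hn
    rw [this]
    exact (shc_c0 R hsp (by omega)).2 (Or.inl rfl)
  -- the levels go down to 0
  have key : ∀ l : ℕ, ∀ j, 1 ≤ j → lev R (r, x) j = (l : ℤ) + 1 →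
      ∃ m, 1 ≤ m ∧ lev R (r, x) m = 1 ∧ A.shc R.sp (A.nx^[m] (r, x)).1
        (A.nx^[m] (r, x)).2 = true := by
    intro l
    induction l with
    | zero =>
      intro j hj hl
      have hex := hnext j
      refine ⟨j + Nat.find hex, by omega, ?_, Nat.find_spec hex⟩
      have hmin : ∀ i, i ≤ Nat.find hex → lev R (r, x) (j + i) = lev R (r, x) j := by
        intro i
        induction i with
        | zero => intro _; rfl
        | succ i ih =>
          intro hi
          rw [← Nat.add_assoc, lev_succ ok, ih (by omega)]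
          have := Nat.find_min hex (m := i) (by omega)
          unfold shq
          rw [if_neg this]
          simp
      rw [hmin _ le_rfl, hl]
      simp
    | succ l ih =>
      intro j hj hl
      have hex := hnext j
      have hmin : ∀ i, i ≤ Nat.find hex → lev R (r, x) (j + i) = lev R (r, x) j := by
        intro i
        induction i with
        | zero => intro _; rfl
        | succ i ih =>
          intro hi
          rw [← Nat.add_assoc, lev_succ ok, ih (by omega)]
          have := Nat.find_min hex (m := i) (by omega)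
          unfold shq
          rw [if_neg this]
          simp
      apply ih (j + Nat.find hex + 1) (by omega)
      rw [lev_succ ok, hmin _ le_rfl, hl]
      unfold shq
      rw [if_pos (Nat.find_spec hex)]
      push_cast
      ring
  obtain ⟨l, hl⟩ : ∃ l : ℕ, lev R (r, x) 1 = (l : ℤ) + 1 :=
    ⟨(lev R (r, x) 1 - 1).toNat, by omega⟩
  obtain ⟨m, hm1, hm2, hm3⟩ := key l 1 le_rfl hl
  have okm := iter_lt (A := A) ok m
  have hf := follow I ok h1 (n := m) (fun j hj _ => h2 j hj) (by rw [hm2]) hm1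
  rw [hm2] at hf
  have hbm := base_iter (R := R) (q := (r, x)) m
  have hsame' := same_iter (A := A) (r, x) m
  set p := A.nx^[m] (r, x) with hp
  have hsp' : R.sp p.1 := (A.shc_true.1 hm3).1
  have hlo : 1 ≤ R.H p.1 p.2 := by
    have := R.H_sh okm hm3
    omega
  have hbase := R.H_le_base p.1 okm.le
  have hb1 : R.base r = R.base p.1 := hbm.symm
  have htc := R.tc_pos (R.tr_of_sh hm3)
  refine ⟨p.1, p.2 - c0 A p.1, hsame', hsp', ?_, ?_⟩
  · rcases (shc_c0 R hsp' okm).1 hm3 with h3 | h3 <;> omega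
  · have h3 := (col_shift I okm hm3 (y := R.base p.1 - 1) (by omega) (by omega)).1
    rw [show R.base p.1 - 1 + 1 = R.base p.1 by omega] at h3
    have h4 : R.port hS p.1 (p.2 - c0 A p.1) ↔ hS p.1 p.2 (R.base p.1) := by
      unfold port
      have h5 : c0 A p.1 + (p.2 - c0 A p.1) = p.2 := by
        have h6 := (shc_c0 R hsp' okm).1 hm3
        omega
      rw [h5]
    rw [h4, ← h3]
    refine hf.trans ?_
    rw [hb1]
    exact Iff.rfl

end Rg

end Pool.Agent.MP42E
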