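import Pool.Agent.MP42.E.Height

/-!
# Signed reduction theorem: the windows of the rim states, in the S-reading (owner helper73)

The frame of a state of a negative ring is mirrored (S-frame): `vS`, `hS`, `win` are in the S-frame.
-/

set_option autoImplicit false
set_option linter.unusedSectionVars false

namespace Pool.Agent.MP42E

open Pool.Agent.Helper55.UNF Pool.Agent.Helper55.UNF.GridSolid Pool.Agent.MP42G
open Pool.Agent.MP42G.JCert (shc shc_true shc_r2 shc_free vl_z vl_n vl_s vl_cases)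
open Function

variable {P : GridSolid}

namespace Wn

variable {k : ℕ}

lemma rot_pr {w w' : Wn k} (h1 : ∀ x ≤ k, w'.lo x = k - 1 - w.hi (k - x))
    (h2 : ∀ x ≤ k, w'.hi x = k - 1 - w.lo (k - x)) {x y : ℕ} (hx : x ≤ k) (hy : y < k) :
    w'.pr x y = w.pr (k - x) (k - 1 - y) := by
  have a1 := w.lt (k - x) (by omega)
  have a2 := w.lk (k - x) (by omega)
  rw [Bool.eq_iff_iff, pr_true, pr_true, h1 x hx, h2 x hx]
  omega

lemma lnd_rot {a b c d : ℕ} (h1 : a = b + 1 ↔ c = d + 1) (h2 : b = a + 1 ↔ d = c + 1) :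
    lnd a b = lnd c d := by
  unfold lnd
  by_cases e1 : a = b + 1
  · rw [if_pos e1, if_pos (h1.1 e1)]
  · rw [if_neg e1, if_neg (fun h => e1 (h1.2 h))]
    by_cases e2 : b = a + 1
    · rw [if_pos e2, if_pos (h2.1 e2)]
    · rw [if_neg e2, if_neg (fun h => e2 (h2.2 h))]

lemma rot_la {w w' : Wn k} (h1 : ∀ x ≤ k, w'.lo x = k - 1 - w.hi (k - x))
    (h2 : ∀ x ≤ k, w'.hi x = k - 1 - w.lo (k - x)) (h3 : ∀ x < k, w'.sh x = w.sh (k - 1 - x))
    {x y : ℕ} (hx : x < k) (hy : y ≤ k) : w'.la x y = w.la (k - 1 - x) (k - y) := by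
  have a1 := w.lt (k - x) (by omega)
  have a2 := w.lk (k - x) (by omega)
  have a3 := w.lt (k - 1 - x) (by omega)
  have a4 := w.lk (k - 1 - x) (by omega)
  have e1 := h1 x hx.le
  have e2 := h2 x hx.le
  have e3 := h1 (x + 1) hx
  have e4 := h2 (x + 1) hx
  rw [show k - (x + 1) = k - 1 - x by omega] at e3 e4
  have e5 : k - 1 - x + 1 = k - x := by omega
  unfold la
  rw [h3 x hx, e5]
  cases hs : w.sh (k - 1 - x)
  · have b1 := w.n2 (k - 1 - x) (by omega) hs
    rw [e5] at b1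
    simp only [Bool.false_eq_true, if_false]
    by_cases c1 : y ≤ w'.lo x ∧ y ≤ w'.lo (x + 1)
    · rw [if_pos c1]
      by_cases c2 : k - y ≤ w.lo (k - 1 - x) ∧ k - y ≤ w.lo (k - x)
      · rw [if_pos c2]
        exact lnd_rot (by omega) (by omega)
      · rw [if_neg c2, if_pos (by omega)]
        exact lnd_rot (by omega) (by omega)
    · rw [if_neg c1]
      by_cases c2 : w'.hi x < y ∧ w'.hi (x + 1) < y
      · rw [if_pos c2, if_pos (by omega)]
        exact lnd_rot (by omega) (by omega)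
      · rw [if_neg c2, if_neg (by omega), if_neg (by omega)]
  · obtain ⟨b1, b2, b3⟩ := w.s0 (k - 1 - x) (by omega) hs
    rw [e5] at b1 b2
    simp only [if_true]
    by_cases c1 : w'.lo x < y ∧ y ≤ w'.hi x + 1
    · rw [if_pos c1, if_pos (by omega)]
    · rw [if_neg c1, if_neg (by omega)]

end Wn

namespace JCertE

variable {k : ℕ} (C : JCertE P k)

/-- the states of the cut rings -/
def Cut (r : P.FSt) : Prop := IsV r ∧ C.core r.facet ∧ C.sg r.facet = 0

lemma Cut_E (r : P.FSt) : C.Cut r.stE ↔ C.Cut r := by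
  unfold Cut
  constructor
  · rintro ⟨h1, h2, h3⟩
    have hV := (IsV_stE r).1 h1
    have hC := (C.core_E r hV).1 h2
    exact ⟨hV, hC, by rw [← C.sg_E r hV hC]; exact h3⟩
  · rintro ⟨h1, h2, h3⟩
    exact ⟨(IsV_stE r).2 h1, (C.core_E r h1).2 h2, by rw [C.sg_E r h1 h2]; exact h3⟩

lemma Cut_r2 (r : P.FSt) : C.Cut r.r2 ↔ C.Cut r := by
  unfold Cut
  rw [IsV_r2, FSt.facet_r2]

lemma Cut_S (r : P.FSt) : C.Cut (C.pS r) ↔ C.Cut r := by
  by_cases h : C.Neg r
  · have h1 := C.pS_neg_stE h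
    rw [← C.Cut_E (C.pS r), h1]
  · rw [C.pS_pos h, C.Cut_E]

variable {C} in
lemma Cut.not_neg {r : P.FSt} (h : C.Cut r) : ¬ C.Neg r := by
  intro h2
  have h3 := h2.2.2
  rw [h.2.2] at h3
  exact absurd h3 (by decide)

lemma wd_free {r : P.FSt} (hc : C.core r.facet) (hs : C.sg r.facet ≠ 0) {x : ℕ} (hx : x < k)
    (h : x < 2 ∨ k ≤ x + 2) : C.wd r x = Ln.z := by
  unfold wd wdF
  split_ifs
  · exact (C.free _ hc hs x hx h).1
  · exact (C.free _ hc hs (k - 1 - x) (by omega) (by omega)).2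

lemma wdS_free {r : P.FSt} (hc : C.core r.facet) (hs : C.sg r.facet ≠ 0) {x : ℕ} (hx : x < k)
    (h : x < 2 ∨ k ≤ x + 2) : C.wdS r x = Ln.z := by
  unfold wdS
  split_ifs
  · rw [C.wd_free hc hs (by omega) (by omega)]; rfl
  · exact C.wd_free hc hs hx h

/-- heights, special facets and parities -/
structure Rims (D : ℕ) extends C.Hts D where
  hk : 2 * D + 2 ≤ k
  hk4 : 4 ≤ k
  hD : 1 ≤ D
  /-- parity -/
  t : P.FSt → Bool
  t_S : ∀ s, t (C.pS s) = t s
  t_r : ∀ s, t s.r2 = t s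

namespace Rims

variable {C} {D : ℕ} (R : C.Rims D)

/-- new parities -/
def withT (t : P.FSt → Bool) (h1 : ∀ s, t (C.pS s) = t s) (h2 : ∀ s, t s.r2 = t s) : C.Rims D :=
  { R with t := t, t_S := h1, t_r := h2 }

open Classical in
/-- number of the core rows -/
noncomputable def tc (r : P.FSt) : ℕ := if C.Cut r then 0 else if R.t r then 2 else 1

/-- the row of level `0` in the frame of the rim state `r` -/
noncomputable def base (r : P.FSt) : ℕ := if IsU r then D else k - D - R.tc r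

lemma tc_le (r : P.FSt) : R.tc r ≤ 2 := by unfold tc; split_ifs <;> omega

lemma tc_pos {r : P.FSt} (h : ¬ C.Cut r) : 1 ≤ R.tc r := by
  unfold tc
  rw [if_neg h]
  split_ifs <;> omega

lemma tc_cut {r : P.FSt} (h : C.Cut r) : R.tc r = 0 := by
  unfold tc
  rw [if_pos h]

lemma tc_not {r : P.FSt} (h : ¬ C.Cut r) : R.tc r = if R.t r then 2 else 1 := by
  unfold tc
  rw [if_neg h]

lemma tc_r2 (r : P.FSt) : R.tc r.r2 = R.tc r := by
  unfold tc
  rw [R.t_r]
  by_cases h : C.Cut r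
  · rw [if_pos h, if_pos ((C.Cut_r2 r).2 h)]
  · rw [if_neg h, if_neg (fun h' => h ((C.Cut_r2 r).1 h'))]

lemma tc_S (r : P.FSt) : R.tc (C.pS r) = R.tc r := by
  unfold tc
  rw [R.t_S]
  by_cases h : C.Cut r
  · rw [if_pos h, if_pos ((C.Cut_S r).2 h)]
  · rw [if_neg h, if_neg (fun h' => h ((C.Cut_S r).1 h'))]

lemma base_S (r : P.FSt) : R.base (C.pS r) = R.base r := by
  unfold base
  rw [R.tc_S]
  simp only [C.IsU_S]

lemma base_add {r : P.FSt} (h : IsV r) : R.base r + R.tc r + R.base r.r2 = k := by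
  have h1 := R.hk
  have h2 := R.tc_le r
  have h3 := IsU_r2 h
  unfold base
  rw [R.tc_r2]
  by_cases hu : IsU r
  · rw [if_pos hu, if_neg (by rw [h3]; exact not_not.2 hu)]
    omega
  · rw [if_neg hu, if_pos (h3.2 hu)]
    omega

lemma D_le_base (r : P.FSt) : D ≤ R.base r := by
  have h1 := R.hk
  have h2 := R.tc_le r
  unfold base
  split_ifs <;> omega

lemma base_lt {r : P.FSt} (h : IsV r) : R.base r < k := by
  have h1 := R.base_add h
  have h2 := R.D_le_base r.r2
  have h3 := R.hD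
  omega

lemma H_le_base {r : P.FSt} (h : IsV r ∧ C.core r.facet) {x : ℕ} (hx : x ≤ k) :
    R.H r x ≤ R.base r := (R.H_le r x h.1 h.2 hx).trans (R.D_le_base r)

lemma sp_cut {r : P.FSt} (h : IsV r ∧ C.core r.facet) (hs : R.sp r.facet) : ¬ C.Cut r :=
  fun h' => R.sp_sg _ h.2 hs h'.2.2

lemma shc_cut {r : P.FSt} (h : IsV r ∧ C.core r.facet) {x : ℕ}
    (hs : shc k R.sp r x = true) : ¬ C.Cut r := R.sp_cut h (shc_true.1 hs).1

lemma shc_free' {r : P.FSt} (h : IsV r ∧ C.core r.facet) {x : ℕ} (hx : x < k)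
    (hs : shc k R.sp r x = true) : C.wdS r x = Ln.z :=
  C.wdS_free h.2 (R.sp_sg _ h.2 (shc_true.1 hs).1) hx (shc_free hs)

lemma H_sh {r : P.FSt} (h : IsV r ∧ C.core r.facet) {x : ℕ} (hx : x < k)
    (hs : shc k R.sp r x = true) : R.H r x = R.H r (x + 1) + 1 := by
  have h1 := R.H_x r x h.1 h.2 hx
  rw [if_pos hs, R.shc_free' h hx hs] at h1
  simp only [vl] at h1
  omega

lemma H_not {r : P.FSt} (h : IsV r ∧ C.core r.facet) {x : ℕ} (hx : x < k)
    (hs : shc k R.sp r x = false) : (R.H r (x + 1) : ℤ) = R.H r x + vl (C.wdS r x) := by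
  have h1 := R.H_x r x h.1 h.2 hx
  rw [if_neg (by rw [hs]; decide)] at h1
  omega

lemma vr2 {r : P.FSt} (h : IsV r ∧ C.core r.facet) : IsV r.r2 ∧ C.core r.r2.facet :=
  ⟨(IsV_r2 r).2 h.1, h.2⟩

lemma vE {r : P.FSt} (h : IsV r ∧ C.core r.facet) : IsV r.stE ∧ C.core r.stE.facet :=
  ⟨(IsV_stE r).2 h.1, (C.core_E r h.1).2 h.2⟩

lemma vS' {r : P.FSt} (h : IsV r ∧ C.core r.facet) : IsV (C.pS r) ∧ C.core (C.pS r).facet :=
  ⟨(C.IsV_S r).2 h.1, (C.core_S h.1).2 h.2⟩

/-- the window of a rim state, in its S-frame -/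
noncomputable def win (r : P.FSt) (h : IsV r ∧ C.core r.facet) : Wn k where
  lo := fun x => R.base r - R.H r x
  hi := fun x => k - 1 - (R.base r.r2 - R.H r.r2 (k - x))
  sh := fun x => shc k R.sp r x
  lt := fun x _ => by
    have := R.hk4
    omega
  lk := fun x _ => by
    have := R.base_lt h.1
    omega
  n0 := fun x hx hs => by
    have h1 := R.H_not h hx hs
    have h2 := R.H_le_base h (x := x) hx.le
    have h3 := R.H_le_base h (x := x + 1) hx
    rcases vl_cases (C.wdS r x) with h4 | h4 | h4 <;> rw [h4] at h1 <;> omega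
  n1 := fun x hx hs => by
    have h' := vr2 h
    have h1 := R.H_not h' (x := k - 1 - x) (by omega) (by rw [shc_r2 h.1 hx]; exact hs)
    rw [show k - 1 - x + 1 = k - x by omega] at h1
    rw [show k - (x + 1) = k - 1 - x by omega]
    have h2 := R.H_le_base h' (x := k - x) (by omega)
    have h3 := R.H_le_base h' (x := k - 1 - x) (by omega)
    have h5 := R.base_add h.1
    have h6 := R.base_lt h.1
    have h7 := R.base_lt h'.1
    rcases vl_cases (C.wdS r.r2 (k - 1 - x)) with h4 | h4 | h4 <;> rw [h4] at h1 <;> omega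
  n2 := fun x hx hs => by
    have h' := vr2 h
    have h2 := R.H_le_base h' (x := k - x) (by omega)
    have h3 := R.H_le_base h' (x := k - (x + 1)) (by omega)
    have h5 := R.base_add h.1
    have h6 := R.base_lt h.1
    have h7 := R.base_lt h'.1
    omega
  s0 := fun x hx hs => by
    have h' := vr2 h
    have h1 := R.H_sh h hx hs
    have h2 := R.H_sh h' (x := k - 1 - x) (by omega) (by rw [shc_r2 h.1 hx]; exact hs)
    rw [show k - 1 - x + 1 = k - x by omega] at h2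
    rw [show k - (x + 1) = k - 1 - x by omega]
    have h3 := R.H_le_base h (x := x) hx.le
    have h4 := R.H_le_base h' (x := k - 1 - x) (by omega)
    have h5 := R.base_add h.1
    have h6 := R.tc_pos (R.shc_cut h hs)
    omega

lemma win_lo (r : P.FSt) (h : IsV r ∧ C.core r.facet) (x : ℕ) :
    (R.win r h).lo x = R.base r - R.H r x := rfl

lemma win_hi (r : P.FSt) (h : IsV r ∧ C.core r.facet) (x : ℕ) :
    (R.win r h).hi x = k - 1 - (R.base r.r2 - R.H r.r2 (k - x)) := rfl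

lemma win_sh (r : P.FSt) (h : IsV r ∧ C.core r.facet) (x : ℕ) :
    (R.win r h).sh x = shc k R.sp r x := rfl

lemma win_rot_lo (r : P.FSt) (h : IsV r ∧ C.core r.facet) {x : ℕ} (hx : x ≤ k) :
    (R.win r.r2 (vr2 h)).lo x = k - 1 - (R.win r h).hi (k - x) := by
  rw [win_hi, win_lo]
  have h5 := R.base_lt (vr2 h).1
  rw [show k - (k - x) = x by omega]
  omega

lemma win_rot_hi (r : P.FSt) (h : IsV r ∧ C.core r.facet) {x : ℕ} (_hx : x ≤ k) :
    (R.win r.r2 (vr2 h)).hi x = k - 1 - (R.win r h).lo (k - x) := by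
  rw [win_hi, win_lo, FSt.r2_r2]

lemma win_rot_sh (r : P.FSt) (h : IsV r ∧ C.core r.facet) {x : ℕ} (hx : x < k) :
    (R.win r.r2 (vr2 h)).sh x = (R.win r h).sh (k - 1 - x) := by
  rw [win_sh, win_sh, ← shc_r2 h.1 (x := k - 1 - x) (by omega)]
  congr 1
  omega

lemma win_rot_pr (r : P.FSt) (h : IsV r ∧ C.core r.facet) {x y : ℕ} (hx : x ≤ k) (hy : y < k) :
    (R.win r.r2 (vr2 h)).pr x y = (R.win r h).pr (k - x) (k - 1 - y) :=
  Wn.rot_pr (fun _ hx => R.win_rot_lo r h hx) (fun _ hx => R.win_rot_hi r h hx) hx hy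

lemma win_rot_la (r : P.FSt) (h : IsV r ∧ C.core r.facet) {x y : ℕ} (hx : x < k) (hy : y ≤ k) :
    (R.win r.r2 (vr2 h)).la x y = (R.win r h).la (k - 1 - x) (k - y) :=
  Wn.rot_la (fun _ hx => R.win_rot_lo r h hx) (fun _ hx => R.win_rot_hi r h hx)
    (fun _ hx => R.win_rot_sh r h hx) hx hy

lemma win_bot (r : P.FSt) (h : IsV r ∧ C.core r.facet) {x : ℕ} (hx : x < k) :
    (R.win r h).bot x = C.wdS r x := by
  unfold Wn.bot
  rw [win_sh, win_lo, win_lo]
  cases hs : shc k R.sp r x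
  · have h1 := R.H_not h hx hs
    have h2 := R.H_le_base h (x := x) hx.le
    have h3 := R.H_le_base h (x := x + 1) hx
    rw [if_neg (by decide)]
    unfold lnd
    rcases vl_cases (C.wdS r x) with h4 | h4 | h4
    · rw [vl_z.1 h4]
      rw [h4] at h1
      rw [if_neg (by omega), if_neg (by omega)]
    · rw [vl_n.1 h4]
      rw [h4] at h1
      rw [if_pos (by omega)]
    · rw [vl_s.1 h4]
      rw [h4] at h1
      rw [if_neg (by omega), if_pos (by omega)]
  · rw [if_pos rfl, R.shc_free' h hx hs]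

lemma win_top (r : P.FSt) (h : IsV r ∧ C.core r.facet) {x : ℕ} (hx : x < k) :
    (R.win r h).top x = C.wdS r.r2 (k - 1 - x) := by
  have h1 := R.win_bot r.r2 (vr2 h) (x := k - 1 - x) (by omega)
  have h2 := (R.win r.r2 (vr2 h)).la_bot (k - 1 - x)
  have h3 := (R.win r h).la_top hx
  rw [R.win_rot_la r h (by omega) (Nat.zero_le k)] at h2
  rw [show k - 1 - (k - 1 - x) = x by omega, Nat.sub_zero] at h2
  rw [← h1, ← h2, h3]

lemma win_S_lo (r : P.FSt) (h : IsV r ∧ C.core r.facet) :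
    (R.win (C.pS r) (vS' h)).lo 0 = (R.win r h).lo k := by
  rw [win_lo, win_lo, R.base_S, R.H_E r h.1 h.2]

lemma win_S_hi (r : P.FSt) (h : IsV r ∧ C.core r.facet) :
    (R.win (C.pS r) (vS' h)).hi 0 = (R.win r h).hi k := by
  rw [win_hi, win_hi]
  have h1 := R.H_E (C.pS r).r2 (vr2 (vS' h)).1 (vr2 (vS' h)).2
  rw [C.pS_inv] at h1
  have h2 : R.base (C.pS r).r2 = R.base r.r2 := by
    rw [← R.base_S (C.pS r).r2, C.pS_inv]
  rw [h2, Nat.sub_zero, Nat.sub_self, h1]

lemma win_S_pr (r : P.FSt) (h : IsV r ∧ C.core r.facet) (y : ℕ) :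
    (R.win (C.pS r) (vS' h)).pr 0 y = (R.win r h).pr k y := by
  unfold Wn.pr
  rw [R.win_S_lo r h, R.win_S_hi r h]

lemma core_row (r : P.FSt) (h : IsV r ∧ C.core r.facet) {y : ℕ} (h1 : R.base r ≤ y)
    (h2 : y < R.base r + R.tc r) {x : ℕ} (_hx : x ≤ k) : (R.win r h).pr x y = true := by
  rw [Wn.pr_true, win_lo, win_hi]
  have h5 := R.base_add h.1
  omega

end Rims

/-! ## Predicates in the frame of a state -/

open Classical in
/-- value on vertical unit edges in the frame of `r` -/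
noncomputable def vF (ψ : P.Facet → ℕ → ℕ → Prop) (r : P.FSt) : ℕ → ℕ → Prop :=
  if C.can r.facet = r then ψ r.facet else rV k (ψ r.facet)

open Classical in
/-- value on horizontal unit edges in the frame of `r` -/
noncomputable def hF (χ : P.Facet → ℕ → ℕ → Prop) (r : P.FSt) : ℕ → ℕ → Prop :=
  if C.can r.facet = r then χ r.facet else rH k (χ r.facet)

open Classical in
/-- value on vertical unit edges in the S-frame of `r` -/
noncomputable def vS (ψ : P.Facet → ℕ → ℕ → Prop) (r : P.FSt) : ℕ → ℕ → Prop :=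
  if C.Neg r then mV k (C.vF ψ r) else C.vF ψ r

open Classical in
/-- value on horizontal unit edges in the S-frame of `r` -/
noncomputable def hS (χ : P.Facet → ℕ → ℕ → Prop) (r : P.FSt) : ℕ → ℕ → Prop :=
  if C.Neg r then mH k (C.hF χ r) else C.hF χ r

lemma can_can (f : P.Facet) : C.can (C.can f).facet = C.can f := by rw [C.can_facet]

lemma can_r2_ne {r : P.FSt} (h : C.can r.facet = r) : C.can r.r2.facet ≠ r.r2 := by
  rw [FSt.facet_r2, h]
  intro h1
  have h2 : r.1.e = opp r.1.e := congrArg (fun s : P.FSt => s.1.e) h1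
  have h3 : r.1.e.2 = !r.1.e.2 := congrArg Prod.snd h2
  revert h3
  cases r.1.e.2 <;> simp

/-- a state with vertical north over a core facet is the canonical one or its half turn -/
lemma can_or {r : P.FSt} (h : IsV r ∧ C.core r.facet) :
    C.can r.facet = r ∨ C.can r.r2.facet = r.r2 := by
  have h1 := C.can_core _ h.2
  have h2 := C.can_facet r.facet
  generalize hg : C.can r.facet = g at *
  rw [FSt.facet_r2, hg]
  have hd : g.1.d = r.1.d := congrArg (fun f : P.Facet => f.1.2) h2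
  have hr := h.1
  unfold IsV at hr h1
  have key : g.1.e = r.1.e ∨ g.1.e = opp r.1.e := by
    have e1 : (cross g.1.d g.1.e).1 = 2 := h1
    have e2 : (cross r.1.d r.1.e).1 = 2 := hr
    have g2 := g.2.2
    have r2 := r.2.2
    rw [hd] at e1 g2
    generalize g.1.e = a at *
    generalize r.1.e = b at *
    generalize r.1.d = d at *
    clear hr h1 hd h2 hg h
    revert a b d
    decide
  have hc : g.1.c = r.1.c := congrArg (fun f : P.Facet => f.1.1) h2
  rcases key with h3 | h3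
  · left
    apply FSt.ext'
    apply St.ext hc hd h3
  · right
    apply FSt.ext'
    exact St.ext hc hd h3

lemma vF_r2 {ψ : P.Facet → ℕ → ℕ → Prop} {r : P.FSt} (h : IsV r ∧ C.core r.facet) {x y : ℕ}
    (hx : x ≤ k) (hy : y < k) : C.vF ψ r.r2 x y ↔ C.vF ψ r (k - x) (k - 1 - y) := by
  unfold vF
  rcases C.can_or h with h1 | h1
  · rw [if_pos h1, if_neg (C.can_r2_ne h1)]
    exact Iff.rfl
  · have h2 : C.can r.facet ≠ r := by
      have := C.can_r2_ne h1
      rwa [FSt.r2_r2] at this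
    rw [if_pos h1, if_neg h2, rV_apply (ψ r.facet) (x' := x) (y' := y) (by omega) (by omega)]
    exact Iff.rfl

lemma hF_r2 {χ : P.Facet → ℕ → ℕ → Prop} {r : P.FSt} (h : IsV r ∧ C.core r.facet) {x y : ℕ}
    (hx : x < k) (hy : y ≤ k) : C.hF χ r.r2 x y ↔ C.hF χ r (k - 1 - x) (k - y) := by
  unfold hF
  rcases C.can_or h with h1 | h1
  · rw [if_pos h1, if_neg (C.can_r2_ne h1)]
    exact Iff.rfl
  · have h2 : C.can r.facet ≠ r := by
      have := C.can_r2_ne h1
      rwa [FSt.r2_r2] at this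
    rw [if_pos h1, if_neg h2, rH_apply (χ r.facet) (x' := x) (y' := y) (by omega) (by omega)]
    exact Iff.rfl

lemma vS_r2 {ψ : P.Facet → ℕ → ℕ → Prop} {r : P.FSt} (h : IsV r ∧ C.core r.facet) {x y : ℕ}
    (hx : x ≤ k) (hy : y < k) : C.vS ψ r.r2 x y ↔ C.vS ψ r (k - x) (k - 1 - y) := by
  unfold vS
  by_cases hn : C.Neg r
  · rw [if_pos hn, if_pos ((C.Neg_r2 r).2 hn)]
    unfold mV
    rw [C.vF_r2 h (by omega) hy]
  · rw [if_neg hn, if_neg (fun h' => hn ((C.Neg_r2 r).1 h'))]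
    exact C.vF_r2 h hx hy

lemma hS_r2 {χ : P.Facet → ℕ → ℕ → Prop} {r : P.FSt} (h : IsV r ∧ C.core r.facet) {x y : ℕ}
    (hx : x < k) (hy : y ≤ k) : C.hS χ r.r2 x y ↔ C.hS χ r (k - 1 - x) (k - y) := by
  unfold hS
  by_cases hn : C.Neg r
  · rw [if_pos hn, if_pos ((C.Neg_r2 r).2 hn)]
    unfold mH
    rw [C.hF_r2 h (by omega) hy]
  · rw [if_neg hn, if_neg (fun h' => hn ((C.Neg_r2 r).1 h'))]
    exact C.hF_r2 h hx hy

lemma fv_eq (χ : P.Facet → ℕ → ℕ → Prop) (r : P.FSt) (x : ℕ) :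
    C.fv χ r x ↔ C.hF χ r x 0 := by
  unfold fv hF
  split_ifs
  · exact Iff.rfl
  · show χ r.facet (k - 1 - x) k ↔ χ r.facet (k - 1 - x) (k - 0)
    rw [Nat.sub_zero]

lemma fvS_eq (χ : P.Facet → ℕ → ℕ → Prop) (r : P.FSt) (x : ℕ) :
    C.fvS χ r x ↔ C.hS χ r x 0 := by
  unfold fvS hS
  by_cases hn : C.Neg r
  · rw [if_pos hn, if_pos hn, C.fv_eq]
    exact Iff.rfl
  · rw [if_neg hn, if_neg hn, C.fv_eq]

variable {C}

/-- invariance in the core walls -/
structure RInv {D : ℕ} (R : C.Rims D) (ψ χ : P.Facet → ℕ → ℕ → Prop) : Prop where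
  rel : ∀ r (h : IsV r ∧ C.core r.facet), CellRel k (R.win r h).pr (R.win r h).la (C.vS ψ r)
    (C.hS χ r)
  gl : ∀ r (h : IsV r ∧ C.core r.facet), ∀ y < k, (R.win r h).pr k y = true →
    (C.vS ψ r k y ↔ C.vS ψ (C.pS r) 0 y)

/-- the `j`-th strand (`j = 0, 1`) that leaves level 1 at the special facet -/
def Rims.port {D : ℕ} (R : C.Rims D) (χ : P.Facet → ℕ → ℕ → Prop) (a : P.FSt) (j : ℕ) : Prop :=
  C.hS χ a (if IsU a then k - 2 + j else j) (R.base a)

end JCertE

end Pool.Agent.MP42E
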